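import Pool.Agent.Lib.MP_02c850_pr.Ext

-- part Pool.Agent.Lib.MP_02c850_pr.Sym
section

/-! Lattice symmetries. -/

namespace Pool.Agent.Lib.MP_02c850_pr

open Set

variable {w : Fin 4 → ℝ}

theorem cnt_le_map {F F' : Set (V × V)} {x x' : V} {π : Fin 4 → Fin 4} (hπ : Function.Injective π)
    (h : ∀ i, ed x' i ∈ F' → ed x (π i) ∈ F) : cnt F' x' ≤ cnt F x := by
  classical
  refine Finset.card_le_card_of_injOn π (fun i hi => ?_) hπ.injOn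
  simp only [Finset.coe_filter, Finset.mem_univ, true_and, mem_ofPred_eq] at hi ⊢
  exact h i hi

theorem Adm.map {ξ : Cfg} {F F' : Set (V × V)} (h : Adm ξ F) {s : V → V} {π : Fin 4 → Fin 4}
    (hπ : Function.Injective π) (hs : ∀ x i, ed x i ∈ F' → ed (s x) (π i) ∈ F) :
    Adm (ξ ∘ s) F' := fun x => by
  have h1 := cnt_le_map hπ (hs x)
  rcases h (s x) with h | h
  · left; omega
  · right
    change _ < (ξ (s x) : ℕ)
    omega

theorem Pr_WL_map (hw : Wt w) (g s : V → V) (π : Fin 4 → Fin 4) (hs : Function.Injective s)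
    (hπ : Function.Injective π) (ha : ∀ u v, Adj u v → Adj (g u) (g v))
    (he : ∀ x i u v, ed x i = (g u, g v) → ed (s x) (π i) = (u, v))
    {R I J R' I' J' : Set V} (hR : ∀ v ∈ R, g v ∈ R') (hI : ∀ v ∈ R, v ∈ I → g v ∈ I')
    (hJ : ∀ v ∈ R, v ∈ J → g v ∈ J') :
    (∀ L, Pr w (WL R I J L) ≤ Pr w (WL R' I' J' L)) ∧ Pr w (WW R I J) ≤ Pr w (WW R' I' J') := by
  have key : ∀ L, ∀ ω ∈ WL R I J L, ω ∘ s ∈ WL R' I' J' L := by
    rintro L ω ⟨p, N, h1, h2, h3, h4, h5⟩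
    refine ⟨g ∘ p, N, h1, ⟨fun i hi => ha _ _ (h2.adj i hi), h2.adm.map hπ ?_⟩,
      hI _ (h5 0 (Nat.zero_le _)) h3, hJ _ (h5 N le_rfl) h4, fun i hi => hR _ (h5 i hi)⟩
    rintro x i ⟨k, hk, hx⟩
    exact ⟨k, hk, he x i _ _ hx⟩
  refine ⟨fun L => Pr_comp_le hw hs (key L), Pr_comp_le hw hs fun ω hω => ?_⟩
  obtain ⟨L, hL⟩ := mem_iUnion.1 hω
  exact mem_iUnion.2 ⟨L, key L ω hL⟩

theorem Pr_WW_rev (hw : Wt w) (g s : V → V) (π : Fin 4 → Fin 4) (hs : Function.Injective s)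
    (hπ : Function.Injective π) (ha : ∀ u v, Adj u v → Adj (g v) (g u))
    (he : ∀ x i u v, ed x i = (g v, g u) → ed (s x) (π i) = (u, v))
    {R I J R' I' J' : Set V} (hR : ∀ v ∈ R, g v ∈ R') (hI : ∀ v ∈ R, v ∈ I → g v ∈ J')
    (hJ : ∀ v ∈ R, v ∈ J → g v ∈ I') : Pr w (WW R I J) ≤ Pr w (WW R' I' J') := by
  refine Pr_comp_le hw hs fun ω hω => ?_
  obtain ⟨p, N, h2, h3, h4, h5⟩ := mem_WW.1 hω
  have hk : ∀ k < N, N - k = N - (k + 1) + 1 := fun k hk => by omega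
  refine mem_WW.2 ⟨fun k => g (p (N - k)), N, ⟨fun k hk' => ?_, h2.adm.map hπ ?_⟩,
    hJ _ (h5 N le_rfl) h4, ?_, fun i hi => hR _ (h5 _ (by omega))⟩
  · rw [hk k hk']
    exact ha _ _ (h2.adj _ (by omega))
  · rintro x i ⟨k, hk', hx⟩
    refine ⟨N - (k + 1), by omega, he x i _ _ ?_⟩
    rw [← hk k hk']
    exact hx
  · simpa using hI _ (h5 0 (Nat.zero_le _)) h3

theorem Pr_tr (hw : Wt w) (a b : ℤ) {R I J R' I' J' : Set V}
    (hR : ∀ v ∈ R, (a + v.1, b + v.2) ∈ R') (hI : ∀ v ∈ R, v ∈ I → (a + v.1, b + v.2) ∈ I')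
    (hJ : ∀ v ∈ R, v ∈ J → (a + v.1, b + v.2) ∈ J') :
    (∀ L, Pr w (WL R I J L) ≤ Pr w (WL R' I' J' L)) ∧ Pr w (WW R I J) ≤ Pr w (WW R' I' J') := by
  refine Pr_WL_map hw (fun v => (a + v.1, b + v.2)) (fun x => (x.1 - a, x.2 - b)) id ?_
    Function.injective_id ?_ ?_ hR hI hJ
  · intro x y h
    simp only [Prod.ext_iff] at h ⊢
    omega
  · intro u v h
    simp only [Adj] at h ⊢
    omega
  · intro x i u v h
    rcases fin4 i with rfl | rfl | rfl | rfl <;> simp [Prod.ext_iff] at h ⊢ <;> omega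

theorem Pr_rot1 (hw : Wt w) (a b : ℤ) {R I J R' I' J' : Set V}
    (hR : ∀ v ∈ R, (a - v.2, b + v.1) ∈ R') (hI : ∀ v ∈ R, v ∈ I → (a - v.2, b + v.1) ∈ I')
    (hJ : ∀ v ∈ R, v ∈ J → (a - v.2, b + v.1) ∈ J') :
    (∀ L, Pr w (WL R I J L) ≤ Pr w (WL R' I' J' L)) ∧ Pr w (WW R I J) ≤ Pr w (WW R' I' J') := by
  refine Pr_WL_map hw (fun v => (a - v.2, b + v.1)) (fun x => (x.2 - b, a - x.1 - 1))
    (fun i => i + 3) ?_ (add_left_injective _) ?_ ?_ hR hI hJ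
  · intro x y h
    simp only [Prod.ext_iff] at h ⊢
    omega
  · intro u v h
    simp only [Adj] at h ⊢
    omega
  · intro x i u v h
    rcases fin4 i with rfl | rfl | rfl | rfl <;> simp [Prod.ext_iff] at h ⊢ <;> omega

theorem Pr_rot2 (hw : Wt w) (a b : ℤ) {R I J R' I' J' : Set V}
    (hR : ∀ v ∈ R, (a - v.1, b - v.2) ∈ R') (hI : ∀ v ∈ R, v ∈ I → (a - v.1, b - v.2) ∈ I')
    (hJ : ∀ v ∈ R, v ∈ J → (a - v.1, b - v.2) ∈ J') :
    (∀ L, Pr w (WL R I J L) ≤ Pr w (WL R' I' J' L)) ∧ Pr w (WW R I J) ≤ Pr w (WW R' I' J') := by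
  refine Pr_WL_map hw (fun v => (a - v.1, b - v.2)) (fun x => (a - x.1 - 1, b - x.2 - 1))
    (fun i => i + 2) ?_ (add_left_injective _) ?_ ?_ hR hI hJ
  · intro x y h
    simp only [Prod.ext_iff] at h ⊢
    omega
  · intro u v h
    simp only [Adj] at h ⊢
    omega
  · intro x i u v h
    rcases fin4 i with rfl | rfl | rfl | rfl <;> simp [Prod.ext_iff] at h ⊢ <;> omega

theorem Pr_rot3 (hw : Wt w) (a b : ℤ) {R I J R' I' J' : Set V}
    (hR : ∀ v ∈ R, (a + v.2, b - v.1) ∈ R') (hI : ∀ v ∈ R, v ∈ I → (a + v.2, b - v.1) ∈ I')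
    (hJ : ∀ v ∈ R, v ∈ J → (a + v.2, b - v.1) ∈ J') :
    (∀ L, Pr w (WL R I J L) ≤ Pr w (WL R' I' J' L)) ∧ Pr w (WW R I J) ≤ Pr w (WW R' I' J') := by
  refine Pr_WL_map hw (fun v => (a + v.2, b - v.1)) (fun x => (b - x.2 - 1, x.1 - a))
    (fun i => i + 1) ?_ (add_left_injective _) ?_ ?_ hR hI hJ
  · intro x y h
    simp only [Prod.ext_iff] at h ⊢
    omega
  · intro u v h
    simp only [Adj] at h ⊢
    omega
  · intro x i u v h
    rcases fin4 i with rfl | rfl | rfl | rfl <;> simp [Prod.ext_iff] at h ⊢ <;> omega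

theorem Pr_ref (hw : Wt w) (a b : ℤ) {R I J R' I' J' : Set V}
    (hR : ∀ v ∈ R, (a - v.1, b + v.2) ∈ R') (hI : ∀ v ∈ R, v ∈ I → (a - v.1, b + v.2) ∈ J')
    (hJ : ∀ v ∈ R, v ∈ J → (a - v.1, b + v.2) ∈ I') :
    Pr w (WW R I J) ≤ Pr w (WW R' I' J') := by
  refine Pr_WW_rev hw (fun v => (a - v.1, b + v.2)) (fun x => (a - x.1 - 1, x.2 - b))
    ![0, 3, 2, 1] ?_ (by decide) ?_ ?_ hR hI hJ
  · intro x y h
    simp only [Prod.ext_iff] at h ⊢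
    omega
  · intro u v h
    simp only [Adj] at h ⊢
    omega
  · intro x i u v h
    rcases fin4 i with rfl | rfl | rfl | rfl <;> simp [Prod.ext_iff] at h ⊢ <;> omega

end Pool.Agent.Lib.MP_02c850_pr
end

-- part Pool.Agent.Lib.MP_02c850_pr.Arm
section

/-! Arm events of blocking walks. -/

namespace Pool.Agent.Lib.MP_02c850_pr

open Set

variable {w : Fin 4 → ℝ}

def box (c : V) (r : ℤ) : Set V := rect (c.1 - r) (c.1 + r) (c.2 - r) (c.2 + r)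

theorem mem_box {c v : V} {r : ℤ} :
    v ∈ box c r ↔ c.1 - r ≤ v.1 ∧ v.1 ≤ c.1 + r ∧ c.2 - r ≤ v.2 ∧ v.2 ≤ c.2 + r := Iff.rfl

/-- a blocking walk of length at most `L` from the square of radius `n` to distance `2 n` -/
def Arm (c : V) (n : ℤ) (L : ℕ) : Set Cfg := WL (box c (2 * n)) (box c n) (box c (2 * n - 1))ᶜ L

def ArmW (n : ℤ) : Set Cfg := WW (box (0, 0) (2 * n)) (box (0, 0) n) (box (0, 0) (2 * n - 1))ᶜ

noncomputable def arm (w : Fin 4 → ℝ) (n : ℤ) (L : ℕ) : ℝ := Pr w (Arm (0, 0) n L)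

theorem arm_nonneg (w : Fin 4 → ℝ) (n : ℤ) (L : ℕ) : 0 ≤ arm w n L := Pr_nonneg _ _

theorem Pr_Arm (hw : Wt w) (c : V) (n : ℤ) (L : ℕ) : Pr w (Arm c n L) ≤ arm w n L := by
  refine (Pr_tr hw (-c.1) (-c.2) ?_ ?_ ?_).1 L <;> simp only [mem_box, mem_compl_iff] <;>
    intros <;> omega

theorem loc_Arm (c : V) (n : ℤ) (L : ℕ) :
    Loc (srect (c.1 - 2 * n) (c.1 + 2 * n) (c.2 - 2 * n) (c.2 + 2 * n)) (Arm c n L) :=
  loc_WL (cor_rect Subset.rfl) _ _ _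

theorem loc_ArmW (n : ℤ) : Loc (srect (0 - 2 * n) (0 + 2 * n) (0 - 2 * n) (0 + 2 * n)) (ArmW n) :=
  loc_WW (cor_rect Subset.rfl) _ _

theorem arm_le (hw : Wt w) (n : ℤ) (L : ℕ) : arm w n L ≤ Pr w (ArmW n) :=
  Pr_mono hw (subset_iUnion (WL _ _ _) L)

theorem ArmW_le (hw : Wt w) (n : ℕ) : Pr w (ArmW n) ≤ arm w n ((4 * n + 1) ^ 2) := by
  have h := WW_subset_WL (R := box (0, 0) (2 * n))
    (B := Finset.Icc (-(2 * n : ℤ), -(2 * n : ℤ)) (2 * n, 2 * n)) (fun v hv => by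
      simp only [mem_box, Finset.coe_Icc, mem_Icc, Prod.le_def] at hv ⊢
      omega) (box (0, 0) n) (box (0, 0) (2 * n - 1))ᶜ
  rw [Finset.card_Icc_prod, Int.card_Icc, show (2 * n + 1 - -(2 * n) : ℤ).toNat = 4 * n + 1 by omega,
    ← sq] at h
  exact Pr_mono hw h

theorem arm_zero {n : ℤ} (hn : 1 ≤ n) : arm w n 0 = 0 := by
  have : Arm (0, 0) n 0 = ∅ := by
    refine eq_empty_of_forall_notMem ?_
    rintro ξ ⟨p, N, h1, -, h2, h3, -⟩
    obtain rfl : N = 0 := by omega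
    simp only [mem_box, mem_compl_iff] at h2 h3
    omega
  simp [arm, this, Pr]

/-- sup norm -/
def nm (c v : V) : ℤ := max ((v.1 - c.1).natAbs : ℤ) ((v.2 - c.2).natAbs : ℤ)

theorem mem_box' {c v : V} {r : ℤ} : v ∈ box c r ↔ nm c v ≤ r := by
  simp only [mem_box, nm]
  omega

theorem Adj.nm_le {u v : V} (h : Adj u v) (c : V) : nm c v ≤ nm c u + 1 := by
  simp only [Adj, nm] at h ⊢
  omega

theorem IsW.first_nm {ξ : Cfg} {p : ℕ → V} {N : ℕ} (hp : IsW ξ p N) {s t : ℕ} (hs : s ≤ t)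
    (ht : t ≤ N) (c : V) {r : ℤ} (h0 : nm c (p s) ≤ r) (h1 : r ≤ nm c (p t)) :
    ∃ m, s ≤ m ∧ m ≤ t ∧ nm c (p m) = r ∧ ∀ k, s ≤ k → k ≤ m → nm c (p k) ≤ r := by
  obtain ⟨m, h2, h3, h4, h5⟩ := exists_first_level (f := fun k => nm c (p k)) hs h0 h1
    fun k _ hk => (hp.adj k (by omega)).nm_le c
  refine ⟨m, h2, h3, h4, fun k hk hk' => ?_⟩
  rcases hk'.eq_or_lt with rfl | hk'
  · exact h4.le
  · exact (h5 k hk hk').le

theorem IsW.arm {ξ : Cfg} {p : ℕ → V} {N : ℕ} (hp : IsW ξ p N) {s t L : ℕ} (hs : s ≤ t)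
    (ht : t ≤ N) (hL : t - s ≤ L) {c : V} {n : ℤ} (hn : 0 ≤ n) (h0 : p s ∈ box c n)
    (h1 : 2 * n ≤ nm c (p t)) : ξ ∈ Arm c n L := by
  obtain ⟨m, h2, h3, h4, h5⟩ := hp.first_nm hs ht c (r := 2 * n)
    (by have := mem_box'.1 h0; omega) h1
  refine hp.mem_WL h2 (by omega) (by omega) h0 (fun h => ?_) fun i hi hi' => mem_box'.2 (h5 i hi hi')
  have := mem_box'.1 h
  omega

noncomputable def grid (n : ℤ) (A : ℕ) : Finset V :=
  (Finset.Icc (-(A : ℤ), -(A : ℤ)) (A, A)).image fun z => (z.1 * n, z.2 * n)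

theorem card_grid (n : ℤ) (A : ℕ) : (grid n A).card ≤ (2 * A + 1) ^ 2 := by
  refine Finset.card_image_le.trans ?_
  rw [Finset.card_Icc_prod, Int.card_Icc, show (A + 1 - -A : ℤ).toNat = 2 * A + 1 by omega, sq]

theorem exists_cell {n A t : ℤ} (hn : 1 ≤ n) (h1 : -(A * n) ≤ t) (h2 : t ≤ A * n) :
    ∃ i, -A ≤ i ∧ i ≤ A ∧ i * n ≤ t ∧ t < i * n + n := by
  refine ⟨t / n, Int.le_ediv_of_mul_le (by omega) (by linarith),
    Int.ediv_le_of_le_mul (by omega) h2, Int.ediv_mul_le t (by omega), ?_⟩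
  have := Int.lt_ediv_add_one_mul_self t (show 0 < n by omega)
  linarith

theorem exists_grid {n : ℤ} (hn : 1 ≤ n) {A : ℕ} {v : V} (hv : v ∈ box (0, 0) (A * n)) :
    ∃ c ∈ grid n A, v ∈ box c n := by
  simp only [mem_box] at hv
  obtain ⟨i, h1, h2, h3, h4⟩ := exists_cell (A := A) (t := v.1) hn (by omega) (by omega)
  obtain ⟨j, h5, h6, h7, h8⟩ := exists_cell (A := A) (t := v.2) hn (by omega) (by omega)
  refine ⟨(i * n, j * n), Finset.mem_image.2 ⟨(i, j), ?_, rfl⟩, ?_⟩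
  · simp only [Finset.mem_Icc, Prod.le_def]
    omega
  · simp only [mem_box]
    omega

theorem Pr_Arms (hw : Wt w) {n : ℤ} {A : ℕ} {T : Finset V} (hT : T ⊆ grid n A) (L : ℕ) :
    Pr w (⋃ c ∈ T, Arm c n L) ≤ (2 * A + 1) ^ 2 * arm w n L := by
  refine (Pr_biUnion_le w T _ fun c _ => Pr_Arm hw c n L).trans
    (mul_le_mul_of_nonneg_right ?_ (arm_nonneg _ _ _))
  exact_mod_cast (Finset.card_le_card hT).trans (card_grid n A)

theorem exists_cover (hw : Wt w) {n : ℤ} (hn : 1 ≤ n) (A : ℕ) : ∃ G : Finset V,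
    (∀ T ⊆ G, ∀ L, Pr w (⋃ c ∈ T, Arm c n L) ≤ (2 * A + 1) ^ 2 * arm w n L) ∧
      ∀ v, nm (0, 0) v ≤ A * n → ∃ c ∈ G, v ∈ box c n :=
  ⟨grid n A, fun _ hT => Pr_Arms hw hT, fun _ hv => exists_grid hn (mem_box'.2 hv)⟩

theorem loc_biUnion {ι : Type} {Λ : Finset V} {T : Finset ι} {A : ι → Set Cfg}
    (h : ∀ c ∈ T, Loc Λ (A c)) : Loc Λ (⋃ c ∈ T, A c) := fun ω ω' hh hω => by
  obtain ⟨c, hc, h'⟩ := mem_iUnion₂.1 hω
  exact mem_iUnion₂.2 ⟨c, hc, h c hc ω ω' hh h'⟩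

theorem boost (hw : Wt w) {n : ℤ} (hn : 1 ≤ n) (L : ℕ) :
    arm w (20 * n) L ≤ (61 ^ 2 * arm w n L) ^ 2 := by
  classical
  obtain ⟨G, hG, hG'⟩ := exists_cover hw hn 30
  let T₁ := G.filter fun c => nm (0, 0) c ≤ 21 * n
  let T₂ := G.filter fun c => 29 * n ≤ nm (0, 0) c ∧ nm (0, 0) c ≤ 31 * n
  have h1 : Loc (srect (-23 * n) (23 * n) (-23 * n) (23 * n)) (⋃ c ∈ T₁, Arm c n L) :=
    loc_biUnion fun c hc => (loc_Arm c n L).mono fun x hx => by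
      have := (Finset.mem_filter.1 hc).2
      simp only [mem_srect, nm] at hx this ⊢
      omega
  have h2 : Loc (srect (-33 * n) (33 * n) (-33 * n) (33 * n) \
      srect (-23 * n) (23 * n) (-23 * n) (23 * n)) (⋃ c ∈ T₂, Arm c n L) :=
    loc_biUnion fun c hc => (loc_Arm c n L).mono fun x hx => by
      have := (Finset.mem_filter.1 hc).2
      simp only [Finset.mem_sdiff, mem_srect, nm] at hx this ⊢
      omega
  have h3 := hG T₁ (Finset.filter_subset _ _) L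
  have h4 := hG T₂ (Finset.filter_subset _ _) L
  norm_num at h3 h4
  refine (Pr_mono hw (B := (⋃ c ∈ T₁, Arm c n L) ∩ ⋃ c ∈ T₂, Arm c n L) ?_).trans ?_
  · rintro ξ ⟨p, N, hL, hp, h5, h6, -⟩
    rw [mem_compl_iff, mem_box'] at h6
    rw [mem_box'] at h5
    obtain ⟨m, -, h7, h8, -⟩ := hp.first_nm (Nat.zero_le N) le_rfl (0, 0) (r := 30 * n) (by omega)
      (by omega)
    obtain ⟨c, hc, h9⟩ := hG' (p 0) (by omega)
    obtain ⟨c', hc', h10⟩ := hG' (p m) (by omega)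
    have e : nm (0, 0) c ≤ 21 * n ∧ 2 * n ≤ nm c (p N) := by
      simp only [mem_box, nm] at h5 h6 h9 ⊢
      omega
    have e' : (29 * n ≤ nm (0, 0) c' ∧ nm (0, 0) c' ≤ 31 * n) ∧ 2 * n ≤ nm c' (p N) := by
      simp only [mem_box, nm] at h6 h8 h10 ⊢
      omega
    exact ⟨mem_iUnion₂.2 ⟨c, Finset.mem_filter.2 ⟨hc, e.1⟩,
        hp.arm (Nat.zero_le N) le_rfl (by omega) (by omega) h9 e.2⟩,
      mem_iUnion₂.2 ⟨c', Finset.mem_filter.2 ⟨hc', e'.1⟩,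
        hp.arm h7 le_rfl (by omega) (by omega) h10 e'.2⟩⟩
  · rw [Pr_indep hw h1 h2 Finset.disjoint_sdiff, sq]
    norm_num
    exact mul_le_mul h3 h4 (Pr_nonneg _ _) (mul_nonneg (by norm_num) (arm_nonneg _ _ _))

theorem boostW (hw : Wt w) {n : ℕ} (hn : 1 ≤ n) :
    Pr w (ArmW (20 * n : ℕ)) ≤ (61 ^ 2 * Pr w (ArmW n)) ^ 2 := by
  refine (ArmW_le hw (20 * n)).trans ?_
  push_cast
  refine (boost hw (by omega) _).trans ?_
  have := arm_nonneg w n ((4 * (20 * n) + 1) ^ 2)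
  gcongr
  exact arm_le hw _ _

/-- crossings from left to right of bounded length -/
def Ex (W H : ℤ) (L : ℕ) : Set Cfg := WL (rect 0 W 0 H) {v | v.1 = 0} {v | v.1 = W} L

theorem arm_le_Ex (hw : Wt w) {n : ℤ} (hn : 1 ≤ n) (L : ℕ) :
    arm w n L ≤ 4 * Pr w (Ex n (4 * n) L) := by
  let E : Set V → Set Cfg := fun J => WL (box (0, 0) (2 * n)) (box (0, 0) n) J L
  have h0 : Pr w (E {v | v.1 = 2 * n}) ≤ Pr w (Ex n (4 * n) L) := by
    refine le_trans (Pr_mono hw (B := WL (rect n (2 * n) (-2 * n) (2 * n)) {v | v.1 = n}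
      {v | v.1 = 2 * n} L) ?_) ((Pr_tr hw (-n) (2 * n) ?_ ?_ ?_).1 L)
    · rintro ξ ⟨p, N, hL, hp, h1, h2, h3⟩
      simp only [mem_box, mem_ofPred_eq] at h1 h2 h3
      obtain ⟨m, -, h4, h5, h6⟩ := exists_last_level (f := fun i => (p i).1) (c := n)
        (Nat.zero_le N) (by omega) (by omega)
        fun k _ hk => by have := hp.adj k hk; unfold Adj at this; omega
      refine hp.mem_WL h4 le_rfl (by omega) h5 h2 fun i hi hi' => ?_
      have := h3 i hi'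
      have := h6 i
      simp only [rect, mem_ofPred_eq] at *
      rcases hi.eq_or_lt with rfl | hi <;> omega
    all_goals
      simp only [rect, mem_ofPred_eq]
      intros
      omega
  have h1 : Pr w (E {v | v.2 = -2 * n}) ≤ Pr w (E {v | v.1 = 2 * n}) := by
    refine (Pr_rot1 hw 0 0 ?_ ?_ ?_).1 L <;> simp only [mem_box, mem_ofPred_eq] <;> intros <;> omega
  have h2 : Pr w (E {v | v.1 = -2 * n}) ≤ Pr w (E {v | v.1 = 2 * n}) := by
    refine (Pr_rot2 hw 0 0 ?_ ?_ ?_).1 L <;> simp only [mem_box, mem_ofPred_eq] <;> intros <;> omega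
  have h3 : Pr w (E {v | v.2 = 2 * n}) ≤ Pr w (E {v | v.1 = 2 * n}) := by
    refine (Pr_rot3 hw 0 0 ?_ ?_ ?_).1 L <;> simp only [mem_box, mem_ofPred_eq] <;> intros <;> omega
  have h4 : arm w n L ≤ Pr w ((E {v | v.1 = 2 * n} ∪ E {v | v.2 = -2 * n}) ∪
      (E {v | v.1 = -2 * n} ∪ E {v | v.2 = 2 * n})) := by
    refine Pr_mono hw ?_
    rintro ξ ⟨p, N, hL, hp, h1, h2, h3⟩
    have h4 := h3 N le_rfl
    simp only [mem_box, mem_compl_iff] at h2 h4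
    rcases (show (p N).1 = 2 * n ∨ (p N).2 = -2 * n ∨ (p N).1 = -2 * n ∨ (p N).2 = 2 * n by omega)
      with h | h | h | h
    · exact .inl (.inl ⟨p, N, hL, hp, h1, h, h3⟩)
    · exact .inl (.inr ⟨p, N, hL, hp, h1, h, h3⟩)
    · exact .inr (.inl ⟨p, N, hL, hp, h1, h, h3⟩)
    · exact .inr (.inr ⟨p, N, hL, hp, h1, h, h3⟩)
  have h5 := Pr_union w (E {v | v.1 = 2 * n} ∪ E {v | v.2 = -2 * n})
    (E {v | v.1 = -2 * n} ∪ E {v | v.2 = 2 * n})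
  have h6 := Pr_union w (E {v | v.1 = 2 * n}) (E {v | v.2 = -2 * n})
  have h7 := Pr_union w (E {v | v.1 = -2 * n}) (E {v | v.2 = 2 * n})
  linarith

end Pool.Agent.Lib.MP_02c850_pr
end
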