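import Mathlib

/-! The heterogeneous bootstrap rule on the square lattice. -/

namespace Pool.Agent.Lib.MP_02c850_pr

open MeasureTheory

/-- configurations: a state in `{0,1,2,3}` at every site of the square lattice -/
abbrev Cfg : Type := ℤ × ℤ → Fin 4

/-- the four nearest neighbours of a site -/
def nbrs (x : ℤ × ℤ) : Finset (ℤ × ℤ) :=
  {(x.1 + 1, x.2), (x.1 - 1, x.2), (x.1, x.2 + 1), (x.1, x.2 - 1)}

/-- the number of neighbours of `x` in state `0` -/
def zeros (ξ : Cfg) (x : ℤ × ℤ) : ℕ := ((nbrs x).filter fun y => ξ y = 0).card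

/-- one step of the dynamics -/
def step (ξ : Cfg) : Cfg := fun x => if (ξ x : ℕ) ≤ zeros ξ x then 0 else ξ x

/-- the event that the final state of the origin is `0` -/
def finalZero : Set Cfg := {ξ | ∀ᶠ t in Filter.atTop, step^[t] ξ (0, 0) = 0}

/-- the measure on `{0,1,2,3}` that gives mass `w i` to `i` -/
noncomputable def law (w : Fin 4 → ℝ) : Measure (Fin 4) :=
  ∑ i, ENNReal.ofReal (w i) • Measure.dirac i

/-- independent states with law `law w` -/
noncomputable def iid (w : Fin 4 → ℝ) : Measure Cfg := Measure.infinitePi fun _ => law w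

/-- the masses of the states `0, 1, 2, 3` for the parameters `u` and `ε` -/
noncomputable def mass (u ε : ℝ) : Fin 4 → ℝ :=
  ![ε, (1 - Real.exp (-u)) ^ 2, 2 * Real.exp (-u) - 2 * Real.exp (-2 * u) - ε, Real.exp (-2 * u)]

/-- the probability that the final state of the origin is `0`, with `u = a ^ ℓ / ℓ !` -/
noncomputable def finalProb (ℓ : ℕ) (a ε : ℝ) : ℝ :=
  (iid (mass (a ^ ℓ / (ℓ.factorial : ℝ)) ε) finalZero).toReal

end Pool.Agent.Lib.MP_02c850_pr
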