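import Pool.Agent.Lib.MP_02c850_pr.Defs
import Pool.Agent.Lib.MP_69dcc1_pr.Indep

-- part Pool.Agent.Lib.MP_02c850_pr.Prob
section

/-! Probability toolkit: local events, FKG, independence, symmetry, surgery. -/

namespace Pool.Agent.Lib.MP_02c850_pr

open MeasureTheory Set
open Pool.Agent.Lib.MP_69dcc1_pr (Dep)

abbrev V : Type := ℤ × ℤ

/-- probability vectors -/
def Wt (w : Fin 4 → ℝ) : Prop := (∀ i, 0 ≤ w i) ∧ ∑ i, w i = 1

variable {w : Fin 4 → ℝ}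

theorem law_singleton (w : Fin 4 → ℝ) (i : Fin 4) : law w {i} = ENNReal.ofReal (w i) := by
  simp [law, Measure.finsetSum_apply, indicator]

theorem Wt.prob (hw : Wt w) : IsProbabilityMeasure (law w) := by
  constructor
  simp only [law, Measure.finsetSum_apply, Measure.smul_apply, measure_univ, smul_eq_mul, mul_one]
  rw [← ENNReal.ofReal_sum_of_nonneg fun i _ => hw.1 i, hw.2, ENNReal.ofReal_one]

theorem Wt.probI (hw : Wt w) : IsProbabilityMeasure (iid w) := by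
  have := hw.prob
  unfold iid
  infer_instance

theorem Wt.le_one (hw : Wt w) (i : Fin 4) : w i ≤ 1 :=
  hw.2 ▸ Finset.single_le_sum (fun j _ => hw.1 j) (Finset.mem_univ i)

noncomputable def Pr (w : Fin 4 → ℝ) (A : Set Cfg) : ℝ := (iid w).real A

theorem Pr_nonneg (w : Fin 4 → ℝ) (A : Set Cfg) : 0 ≤ Pr w A := measureReal_nonneg

theorem Pr_le_one (hw : Wt w) (A : Set Cfg) : Pr w A ≤ 1 := by
  have := hw.probI
  exact measureReal_le_one

theorem Pr_mono (hw : Wt w) {A B : Set Cfg} (h : A ⊆ B) : Pr w A ≤ Pr w B := by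
  have := hw.probI
  exact measureReal_mono h

theorem Pr_union (w : Fin 4 → ℝ) (A B : Set Cfg) : Pr w (A ∪ B) ≤ Pr w A + Pr w B :=
  measureReal_union_le A B

theorem Pr_biUnion {ι : Type} (w : Fin 4 → ℝ) (s : Finset ι) (A : ι → Set Cfg) :
    Pr w (⋃ i ∈ s, A i) ≤ ∑ i ∈ s, Pr w (A i) := measureReal_biUnion_finset_le s A

theorem Pr_biUnion_le {ι : Type} (w : Fin 4 → ℝ) (s : Finset ι) (A : ι → Set Cfg) {c : ℝ}
    (h : ∀ i ∈ s, Pr w (A i) ≤ c) : Pr w (⋃ i ∈ s, A i) ≤ s.card * c :=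
  (Pr_biUnion w s A).trans (by simpa using Finset.sum_le_card_nsmul s _ c h)

theorem Pr_iUnion (hw : Wt w) {A : ℕ → Set Cfg} {c : ℕ → ℝ} (hc : Summable c)
    (h : ∀ k, Pr w (A k) ≤ c k) : Pr w (⋃ k, A k) ≤ ∑' k, c k := by
  have := hw.probI
  have h0 : ∀ k, 0 ≤ c k := fun k => (Pr_nonneg w _).trans (h k)
  have h1 : iid w (⋃ k, A k) ≤ ENNReal.ofReal (∑' k, c k) := by
    rw [ENNReal.ofReal_tsum_of_nonneg h0 hc]
    refine (measure_iUnion_le A).trans (ENNReal.tsum_le_tsum fun k => ?_)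
    exact (ENNReal.le_ofReal_iff_toReal_le (measure_ne_top _ _) (h0 k)).2 (h k)
  exact ENNReal.toReal_le_of_le_ofReal (tsum_nonneg h0) h1

theorem Pr_compl (hw : Wt w) {A : Set Cfg} (hA : MeasurableSet A) : Pr w Aᶜ = 1 - Pr w A := by
  have := hw.probI
  unfold Pr
  rw [measureReal_compl hA, probReal_univ]

theorem Pr_compl_ge (hw : Wt w) (A : Set Cfg) : 1 - Pr w A ≤ Pr w Aᶜ := by
  have := hw.probI
  have h := Pr_union w A Aᶜ
  rw [union_compl_self] at h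
  have h1 : Pr w univ = 1 := probReal_univ
  linarith

/-- events that depend only on the states in the finite set `Λ` -/
def Loc (Λ : Finset V) (A : Set Cfg) : Prop :=
  ∀ ω ω' : Cfg, (∀ x ∈ Λ, ω x = ω' x) → ω ∈ A → ω' ∈ A

def ext (Λ : Finset V) (η : Λ → Fin 4) : Cfg := fun x => if h : x ∈ Λ then η ⟨x, h⟩ else 0

theorem Loc.eq_preimage {Λ : Finset V} {A : Set Cfg} (h : Loc Λ A) :
    A = Λ.restrict ⁻¹' {η | ext Λ η ∈ A} := by
  ext ω
  exact ⟨h _ _ fun x hx => by simp [ext, hx], h _ _ fun x hx => by simp [ext, hx]⟩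

theorem Loc.meas {Λ : Finset V} {A : Set Cfg} (h : Loc Λ A) : MeasurableSet A := by
  rw [h.eq_preimage]
  exact Finset.measurable_restrict Λ (toFinite _).measurableSet

theorem Loc.dep {Λ : Finset V} {A : Set Cfg} (h : Loc Λ A) : Dep (Λ : Set V) A := ⟨h.meas, h⟩

theorem Loc.mono {Λ Λ' : Finset V} {A : Set Cfg} (h : Loc Λ A) (hΛ : Λ ⊆ Λ') : Loc Λ' A :=
  fun ω ω' hh => h ω ω' fun x hx => hh x (hΛ hx)

theorem Loc.inter {Λ : Finset V} {A B : Set Cfg} (h : Loc Λ A) (h' : Loc Λ B) : Loc Λ (A ∩ B) :=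
  fun ω ω' hh hω => ⟨h ω ω' hh hω.1, h' ω ω' hh hω.2⟩

theorem Loc.compl {Λ : Finset V} {A : Set Cfg} (h : Loc Λ A) : Loc Λ Aᶜ :=
  fun ω ω' hh hω h' => hω (h ω' ω (fun i hi => (hh i hi).symm) h')

open Classical in
theorem Loc.Pr_eq (hw : Wt w) {Λ : Finset V} {A : Set Cfg} (h : Loc Λ A) :
    Pr w A = ∑ η : Λ → Fin 4, (∏ x, w (η x)) * if ext Λ η ∈ A then 1 else 0 := by
  have := hw.prob
  have h1 : iid w A = Measure.pi (fun _ : Λ => law w) {η | ext Λ η ∈ A} := by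
    conv_lhs => rw [h.eq_preimage]
    rw [← Measure.map_apply (Finset.measurable_restrict Λ) (toFinite _).measurableSet, iid,
      Measure.infinitePi_map_restrict]
  have h2 : {η : Λ → Fin 4 | ext Λ η ∈ A} = ↑(Finset.univ.filter fun η => ext Λ η ∈ A) := by
    ext η; simp
  unfold Pr Measure.real
  rw [h1, h2, ← Measure.real, ← sum_measureReal_singleton, Finset.sum_filter]
  refine Finset.sum_congr rfl fun η _ => ?_
  split_ifs
  · rw [mul_one, Measure.real, Measure.pi_singleton, ENNReal.toReal_prod]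
    exact Finset.prod_congr rfl fun x _ => by rw [law_singleton, ENNReal.toReal_ofReal (hw.1 _)]
  · simp

theorem Loc.continuous {Λ : Finset V} {A : Set Cfg} (h : Loc Λ A) :
    ∃ G : (Fin 4 → ℝ) → ℝ, Continuous G ∧ ∀ w, Wt w → Pr w A = G w := by
  classical
  exact ⟨fun w => ∑ η : Λ → Fin 4, (∏ x, w (η x)) * if ext Λ η ∈ A then 1 else 0, by fun_prop,
    fun w hw => h.Pr_eq hw⟩

theorem Pr_fkg (hw : Wt w) {Λ : Finset V} {A B : Set Cfg} (hA : Loc Λ A) (hB : Loc Λ B)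
    (uA : IsUpperSet A) (uB : IsUpperSet B) : Pr w A * Pr w B ≤ Pr w (A ∩ B) := by
  classical
  have hext : Monotone (ext Λ) := fun η η' h x => by
    unfold ext
    split_ifs with hx
    · exact h _
    · exact le_rfl
  have hm : ∀ {A : Set Cfg}, IsUpperSet A →
      Monotone fun η : Λ → Fin 4 => if ext Λ η ∈ A then (1 : ℝ) else 0 := by
    intro A uA η η' h
    dsimp only
    split_ifs with h1 h2
    · exact le_rfl
    · exact absurd (uA (hext h) h1) h2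
    · exact zero_le_one
    · exact le_rfl
  have h := fkg (μ := fun η : Λ → Fin 4 => ∏ x, w (η x))
    (f := fun η => if ext Λ η ∈ A then (1 : ℝ) else 0)
    (g := fun η => if ext Λ η ∈ B then (1 : ℝ) else 0)
    (fun η => Finset.prod_nonneg fun x _ => hw.1 _)
    (fun η => by dsimp only; split_ifs <;> simp) (fun η => by dsimp only; split_ifs <;> simp)
    (hm uA) (hm uB) (fun a b => by
      rw [← Finset.prod_mul_distrib, ← Finset.prod_mul_distrib]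
      refine le_of_eq (Finset.prod_congr rfl fun x _ => ?_)
      rcases le_total (a x) (b x) with h | h
      · simp [h]
      · simp [h, mul_comm])
  have h1 : ∑ η : Λ → Fin 4, ∏ x, w (η x) = 1 := by
    rw [← Fintype.piFinset_univ, ← Finset.prod_univ_sum (fun _ : Λ => Finset.univ) fun _ i => w i]
    simp [hw.2]
  rw [h1, one_mul] at h
  rw [hA.Pr_eq hw, hB.Pr_eq hw, (hA.inter hB).Pr_eq hw]
  refine h.trans (le_of_eq (Finset.sum_congr rfl fun η _ => ?_))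
  by_cases h1 : ext Λ η ∈ A <;> by_cases h2 : ext Λ η ∈ B <;> simp [h1, h2]

theorem Pr_indep (hw : Wt w) {Λ Λ' : Finset V} {A B : Set Cfg} (hA : Loc Λ A) (hB : Loc Λ' B)
    (hd : Disjoint Λ Λ') : Pr w (A ∩ B) = Pr w A * Pr w B := by
  have := hw.prob
  unfold Pr Measure.real iid
  rw [hA.dep.meas_inter _ hB.dep (Finset.disjoint_coe.2 hd), ENNReal.toReal_mul]

theorem Pr_biInter (hw : Wt w) {ι : Type} (s : Finset ι) {Λ : ι → Finset V} {A : ι → Set Cfg}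
    (h : ∀ i ∈ s, Loc (Λ i) (A i)) (hd : ∀ i ∈ s, ∀ j ∈ s, i ≠ j → Disjoint (Λ i) (Λ j)) :
    Pr w (⋂ i ∈ s, A i) = ∏ i ∈ s, Pr w (A i) := by
  have := hw.prob
  unfold Pr Measure.real iid
  rw [MP_69dcc1_pr.meas_biInter _ s (S := fun i => (Λ i : Set V)) (fun i hi => (h i hi).dep)
    fun i hi j hj hij => Finset.disjoint_coe.2 (hd i hi j hj hij), ENNReal.toReal_prod]

theorem Pr_const (hw : Wt w) (T : Finset V) (k : Fin 4) :
    Pr w {ω | ∀ x ∈ T, ω x = k} = w k ^ T.card := by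
  have := hw.prob
  have h : {ω : Cfg | ∀ x ∈ T, ω x = k} = Set.pi T fun _ => {k} := by
    ext ω; simp
  unfold Pr Measure.real iid
  rw [h, Measure.infinitePi_pi _ fun _ _ => measurableSet_singleton k, Finset.prod_const,
    law_singleton, ENNReal.toReal_pow, ENNReal.toReal_ofReal (hw.1 k)]

theorem loc_const (T : Finset V) (k : Fin 4) : Loc T {ω | ∀ x ∈ T, ω x = k} :=
  fun _ _ hh h x hx => (hh x hx).symm.trans (h x hx)

theorem Pr_comp_le (hw : Wt w) {e : V → V} (he : Function.Injective e) {A B : Set Cfg}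
    (h : ∀ ω ∈ A, ω ∘ e ∈ B) : Pr w A ≤ Pr w B := by
  have := hw.prob
  have := hw.probI
  have h1 : (iid w).map (fun ω i => ω (e i)) = iid w :=
    Measure.map_infinitePi_infinitePi_of_inj (P := fun _ : V => law w) he
  refine ENNReal.toReal_mono (measure_ne_top _ _) ?_
  conv_rhs => rw [← h1]
  exact (measure_mono h).trans
    (Measure.le_map_apply (f := fun (ω : Cfg) i => ω (e i))
      (measurable_pi_lambda _ fun i => measurable_pi_apply (e i)).aemeasurable B)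

/-- set the states in `T` to `k` -/
def setTo (k : Fin 4) (T : Finset V) (ω : Cfg) : Cfg := fun x => if x ∈ T then k else ω x

theorem Loc.setTo {Λ : Finset V} {A : Set Cfg} (h : Loc Λ A) (k : Fin 4) (T : Finset V) :
    Loc (Λ \ T) (setTo k T ⁻¹' A) := fun ω ω' hh => h _ _ fun x hx => by
  unfold MP_02c850_pr.setTo
  split_ifs with hT
  · rfl
  · exact hh x (Finset.mem_sdiff.2 ⟨hx, hT⟩)

theorem Pr_setTo (hw : Wt w) {Λ : Finset V} {A : Set Cfg} (h : Loc Λ A) (k : Fin 4)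
    (T : Finset V) : w k ^ T.card * Pr w (setTo k T ⁻¹' A) ≤ Pr w A := by
  rw [← Pr_const hw, ← Pr_indep hw (loc_const T k) (h.setTo k T) Finset.disjoint_sdiff]
  refine Pr_mono hw fun ω hω => ?_
  have : setTo k T ω = ω := funext fun x => by
    unfold setTo
    split_ifs with hx
    · exact (hω.1 x hx).symm
    · rfl
  exact this ▸ hω.2

theorem surgery (hw : Wt w) {Λ : Finset V} {E C : Set Cfg} (hE : Loc Λ E) (hC : Loc Λ C)
    (T : Cfg → Finset V) (K : ℕ) (hT : ∀ ω ∈ E, T ω ⊆ Λ ∧ (T ω).card ≤ K ∧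
      setTo 3 (T ω) ω ∈ C ∧ T (setTo 3 (T ω) ω) = T ω) : w 3 ^ K * Pr w E ≤ Pr w C := by
  classical
  have := hw.probI
  let cut : Cfg → Cfg := fun ω x => if x ∈ Λ then ω x else 0
  let G : Finset V → Set Cfg := fun t => C ∩ {ω | T (cut ω) = t}
  have hG : ∀ t, Loc Λ (G t) := fun t => hC.inter fun ω ω' hh hω => by
    have : cut ω' = cut ω := funext fun x => by
      simp only [cut]
      split_ifs with hx
      · exact (hh x hx).symm
      · rfl
    simpa [this] using hω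
  let s := Λ.powerset.filter fun t => t.card ≤ K
  have h1 : E ⊆ ⋃ t ∈ s, setTo 3 t ⁻¹' G t := by
    intro ω hω
    obtain ⟨h1, h2, h3, h4⟩ := hT (cut ω) (hE _ _ (fun x hx => by simp [cut, hx]) hω)
    refine mem_iUnion₂.2 ⟨T (cut ω), by simp [s, h1, h2], ?_, ?_⟩
    · refine hC _ _ (fun x hx => ?_) h3
      simp [setTo, cut, hx]
    · have : cut (setTo 3 (T (cut ω)) ω) = setTo 3 (T (cut ω)) (cut ω) := funext fun x => by
        by_cases hx : x ∈ Λ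
        · simp [setTo, cut, hx]
        · have : x ∉ T (cut ω) := fun h => hx (h1 h)
          simp [setTo, cut, hx, this]
      change T (cut _) = _
      rw [this, h4]
  have h2 : ∑ t ∈ s, Pr w (G t) ≤ Pr w C := by
    unfold Pr
    rw [← measureReal_biUnion_finset (fun t _ t' _ htt => disjoint_left.2 fun ω h h' =>
      htt (h.2.symm.trans h'.2)) fun t _ => (hG t).meas]
    exact measureReal_mono (iUnion₂_subset fun t _ => inter_subset_left)
  refine le_trans ?_ h2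
  refine (mul_le_mul_of_nonneg_left ((Pr_mono hw h1).trans (Pr_biUnion w s _))
    (pow_nonneg (hw.1 3) K)).trans ?_
  rw [Finset.mul_sum]
  refine Finset.sum_le_sum fun t ht => le_trans ?_ (Pr_setTo hw (hG t) 3 t)
  exact mul_le_mul_of_nonneg_right
    (pow_le_pow_of_le_one (hw.1 3) (hw.le_one 3) (Finset.mem_filter.1 ht).2) (Pr_nonneg _ _)

end Pool.Agent.Lib.MP_02c850_pr
end

-- part Pool.Agent.Lib.MP_02c850_pr.Geom
section

/-! Oriented edges of the dual lattice, admissible edge sets and blocking walks.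
The site `x` is the unit square with lower left corner `x`. -/

namespace Pool.Agent.Lib.MP_02c850_pr

open Set

/-- corners of a site, counterclockwise -/
def cor (x : V) : Fin 4 → V
  | 0 => x
  | 1 => (x.1 + 1, x.2)
  | 2 => (x.1 + 1, x.2 + 1)
  | 3 => (x.1, x.2 + 1)

/-- the neighbour across the side `i` -/
def nbr (x : V) : Fin 4 → V
  | 0 => (x.1, x.2 - 1)
  | 1 => (x.1 + 1, x.2)
  | 2 => (x.1, x.2 + 1)
  | 3 => (x.1 - 1, x.2)

/-- the side `i` of `x`, oriented with `x` on its left -/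
def ed (x : V) (i : Fin 4) : V × V := (cor x i, cor x (i + 1))

def d1 (u v : V) : ℤ := ((u.1 - v.1).natAbs : ℤ) + ((u.2 - v.2).natAbs : ℤ)

def Adj (u v : V) : Prop :=
  (v.1 = u.1 + 1 ∧ v.2 = u.2) ∨ (v.1 = u.1 ∧ v.2 = u.2 + 1) ∨ (v.1 = u.1 - 1 ∧ v.2 = u.2) ∨
    (v.1 = u.1 ∧ v.2 = u.2 - 1)

theorem fin4 (i : Fin 4) : i = 0 ∨ i = 1 ∨ i = 2 ∨ i = 3 := by omega

@[simp] theorem ed_zero (x : V) : ed x 0 = (x, (x.1 + 1, x.2)) := rfl
@[simp] theorem ed_one (x : V) : ed x 1 = ((x.1 + 1, x.2), (x.1 + 1, x.2 + 1)) := rfl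
@[simp] theorem ed_two (x : V) : ed x 2 = ((x.1 + 1, x.2 + 1), (x.1, x.2 + 1)) := rfl
@[simp] theorem ed_three (x : V) : ed x 3 = ((x.1, x.2 + 1), x) := rfl

theorem adj_ed (x : V) (i : Fin 4) : Adj (ed x i).1 (ed x i).2 := by
  rcases fin4 i with rfl | rfl | rfl | rfl <;> simp [Adj]

theorem Adj.exists_ed {u v : V} (h : Adj u v) : ∃ x i, ed x i = (u, v) := by
  obtain ⟨u1, u2⟩ := u
  obtain ⟨v1, v2⟩ := v
  simp only [Adj] at h
  rcases h with ⟨rfl, rfl⟩ | ⟨rfl, rfl⟩ | ⟨rfl, rfl⟩ | ⟨rfl, rfl⟩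
  · exact ⟨(u1, v2), 0, by simp⟩
  · exact ⟨(v1 - 1, u2), 1, by simp⟩
  · exact ⟨(u1 - 1, v2 - 1), 2, by simp⟩
  · exact ⟨(v1, u2 - 1), 3, by simp⟩

theorem ed_inj {x y : V} {i j : Fin 4} (h : ed x i = ed y j) : x = y ∧ i = j := by
  obtain ⟨x1, x2⟩ := x
  obtain ⟨y1, y2⟩ := y
  rcases fin4 i with rfl | rfl | rfl | rfl <;> rcases fin4 j with rfl | rfl | rfl | rfl <;>
    simp at h ⊢ <;> omega

theorem ed_nbr (x : V) (i : Fin 4) : ed (nbr x i) (i + 2) = (ed x i).swap := by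
  rcases fin4 i with rfl | rfl | rfl | rfl <;> simp [nbr, ed, cor]

theorem nbr_nbr (x : V) (i : Fin 4) : nbr (nbr x i) (i + 2) = x := by
  rcases fin4 i with rfl | rfl | rfl | rfl <;> simp [nbr]

theorem adj_cor (x : V) (i : Fin 4) : Adj (cor x i) (cor x (i + 1)) := adj_ed x i

theorem Adj.symm {u v : V} (h : Adj u v) : Adj v u := by
  unfold Adj at *
  omega

open Classical in
/-- the number of sides of `x` in `F` -/
noncomputable def cnt (F : Set (V × V)) (x : V) : ℕ :=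
  (Finset.univ.filter fun i => ed x i ∈ F).card

theorem cnt_le {F G : Set (V × V)} {x : V} (h : ∀ i, ed x i ∈ F → ed x i ∈ G) :
    cnt F x ≤ cnt G x := by
  classical
  exact Finset.card_le_card fun i hi => by simp at hi ⊢; exact h i hi

theorem cnt_eq_zero {F : Set (V × V)} {x : V} : cnt F x = 0 ↔ ∀ i, ed x i ∉ F := by
  simp [cnt]

theorem cnt_le_two {F : Set (V × V)} {x : V} {i j : Fin 4} (hij : i ≠ j) (hi : ed x i ∉ F)
    (hj : ed x j ∉ F) : cnt F x ≤ 2 := by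
  classical
  have : (Finset.univ.filter fun k => ed x k ∈ F) ⊆ (Finset.univ.erase i).erase j := by
    intro k hk
    simp only [Finset.mem_filter, Finset.mem_univ, true_and] at hk
    simp only [Finset.mem_erase, Finset.mem_univ, and_true]
    exact ⟨fun h => hj (h ▸ hk), fun h => hi (h ▸ hk)⟩
  refine (Finset.card_le_card this).trans ?_
  rw [Finset.card_erase_of_mem (by simp [hij.symm]), Finset.card_erase_of_mem (by simp)]
  simp

/-- admissible sets of oriented edges -/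
def Adm (ξ : Cfg) (F : Set (V × V)) : Prop := ∀ x, cnt F x = 0 ∨ cnt F x < ξ x

theorem adm_at {ξ : Cfg} {F G : Set (V × V)} (h : Adm ξ G) {x : V} {k : Fin 4} (hk : ξ x ≤ k)
    (hF : ∀ i, ed x i ∈ F → ed x i ∈ G) : cnt F x = 0 ∨ cnt F x < k := by
  have h1 := cnt_le hF
  have h2 : (ξ x : ℕ) ≤ k := hk
  rcases h x with h | h <;> omega

theorem Adm.mono {ξ : Cfg} {F G : Set (V × V)} (h : Adm ξ G) (hF : F ⊆ G) : Adm ξ F :=
  fun _ => adm_at h le_rfl fun _ hi => hF hi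

theorem Adm.up {ξ ξ' : Cfg} {F : Set (V × V)} (h : Adm ξ F) (hξ : ξ ≤ ξ') : Adm ξ' F :=
  fun x => adm_at h (hξ x) fun _ hi => hi

theorem Adm.congr {ξ ξ' : Cfg} {F : Set (V × V)} (h : Adm ξ F)
    (hξ : ∀ x i, ed x i ∈ F → ξ x ≤ ξ' x) : Adm ξ' F := fun x => by
  by_cases h0 : cnt F x = 0
  · exact .inl h0
  · obtain ⟨i, hi⟩ := not_forall.1 (mt cnt_eq_zero.2 h0)
    exact adm_at h (hξ x i (not_not.1 hi)) fun _ hi => hi

/-- the edges of a walk -/
def edges (p : ℕ → V) (N : ℕ) : Set (V × V) := {e | ∃ i < N, e = (p i, p (i + 1))}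

/-- blocking walks -/
structure IsW (ξ : Cfg) (p : ℕ → V) (N : ℕ) : Prop where
  adj : ∀ i < N, Adj (p i) (p (i + 1))
  adm : Adm ξ (edges p N)

theorem IsW.sub {ξ : Cfg} {p : ℕ → V} {N : ℕ} (h : IsW ξ p N) {s t : ℕ} (ht : t ≤ N) :
    IsW ξ (fun i => p (s + i)) (t - s) :=
  ⟨fun i hi => h.adj (s + i) (by omega), h.adm.mono fun _ ⟨i, hi, he⟩ => ⟨s + i, by omega, he⟩⟩

/-- there is a blocking walk of length at most `L` in `R` from `I` to `J` -/
def WL (R I J : Set V) (L : ℕ) : Set Cfg :=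
  {ξ | ∃ p N, N ≤ L ∧ IsW ξ p N ∧ p 0 ∈ I ∧ p N ∈ J ∧ ∀ i ≤ N, p i ∈ R}

def WW (R I J : Set V) : Set Cfg := ⋃ L, WL R I J L

theorem mem_WW {R I J : Set V} {ξ : Cfg} :
    ξ ∈ WW R I J ↔ ∃ p N, IsW ξ p N ∧ p 0 ∈ I ∧ p N ∈ J ∧ ∀ i ≤ N, p i ∈ R := by
  simp only [WW, WL, mem_iUnion, mem_ofPred_eq]
  exact ⟨fun ⟨_, p, N, _, h⟩ => ⟨p, N, h⟩, fun ⟨p, N, h⟩ => ⟨N, p, N, le_rfl, h⟩⟩

theorem IsW.mem_WL {ξ : Cfg} {p : ℕ → V} {N : ℕ} (h : IsW ξ p N) {s t L : ℕ} (hs : s ≤ t)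
    (ht : t ≤ N) (hL : t - s ≤ L) {R I J : Set V} (h1 : p s ∈ I) (h2 : p t ∈ J)
    (h3 : ∀ i, s ≤ i → i ≤ t → p i ∈ R) : ξ ∈ WL R I J L :=
  ⟨_, _, hL, h.sub ht, h1, by rwa [Nat.add_sub_cancel' hs], fun i hi => h3 _ (by omega) (by omega)⟩

theorem IsW.mem_WW {ξ : Cfg} {p : ℕ → V} {N : ℕ} (h : IsW ξ p N) {s t : ℕ} (hs : s ≤ t)
    (ht : t ≤ N) {R I J : Set V} (h1 : p s ∈ I) (h2 : p t ∈ J)
    (h3 : ∀ i, s ≤ i → i ≤ t → p i ∈ R) : ξ ∈ WW R I J :=
  mem_iUnion.2 ⟨_, h.mem_WL hs ht le_rfl h1 h2 h3⟩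

theorem WL_mono {R I J R' I' J' : Set V} {L L' : ℕ} (hL : L ≤ L') (hR : R ⊆ R')
    (hI : ∀ v ∈ R, v ∈ I → v ∈ I') (hJ : ∀ v ∈ R, v ∈ J → v ∈ J') : WL R I J L ⊆ WL R' I' J' L' :=
  fun _ ⟨p, N, h1, h2, h3, h4, h5⟩ => ⟨p, N, h1.trans hL, h2, hI _ (h5 0 (Nat.zero_le _)) h3,
    hJ _ (h5 N le_rfl) h4, fun i hi => hR (h5 i hi)⟩

theorem WW_mono {R I J R' I' J' : Set V} (hR : R ⊆ R')
    (hI : ∀ v ∈ R, v ∈ I → v ∈ I') (hJ : ∀ v ∈ R, v ∈ J → v ∈ J') : WW R I J ⊆ WW R' I' J' :=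
  iUnion_mono fun _ => WL_mono le_rfl hR hI hJ

theorem upper_WL (R I J : Set V) (L : ℕ) : IsUpperSet (WL R I J L) :=
  fun _ _ h ⟨p, N, h1, h2, h3⟩ => ⟨p, N, h1, ⟨h2.adj, h2.adm.up h⟩, h3⟩

theorem upper_WW (R I J : Set V) : IsUpperSet (WW R I J) :=
  isUpperSet_iUnion fun L => upper_WL R I J L

theorem loc_WL {R : Set V} {Λ : Finset V} (h : ∀ x i, cor x i ∈ R → x ∈ Λ) (I J : Set V) (L : ℕ) :
    Loc Λ (WL R I J L) := by
  rintro ω ω' hh ⟨p, N, h1, h2, h3, h4, h5⟩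
  refine ⟨p, N, h1, ⟨h2.adj, h2.adm.congr ?_⟩, h3, h4, h5⟩
  rintro x i ⟨k, hk, he⟩
  have : cor x i = p k := congrArg Prod.fst he
  exact (hh x (h x i (this ▸ h5 k hk.le))).le

theorem loc_WW {R : Set V} {Λ : Finset V} (h : ∀ x i, cor x i ∈ R → x ∈ Λ) (I J : Set V) :
    Loc Λ (WW R I J) := fun ω ω' hh hω => by
  obtain ⟨L, hL⟩ := mem_iUnion.1 hω
  exact mem_iUnion.2 ⟨L, loc_WL h I J L ω ω' hh hL⟩

/-- rectangles of vertices -/
def rect (a b c d : ℤ) : Set V := {v | a ≤ v.1 ∧ v.1 ≤ b ∧ c ≤ v.2 ∧ v.2 ≤ d}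

/-- the sites touching a rectangle -/
noncomputable def srect (a b c d : ℤ) : Finset V := Finset.Icc (a - 1, c - 1) (b, d)

theorem mem_srect {a b c d : ℤ} {x : V} :
    x ∈ srect a b c d ↔ a - 1 ≤ x.1 ∧ x.1 ≤ b ∧ c - 1 ≤ x.2 ∧ x.2 ≤ d := by
  simp only [srect, Finset.mem_Icc, Prod.le_def]
  tauto

theorem cor_rect {a b c d : ℤ} {R : Set V} (hR : R ⊆ rect a b c d) (x : V) (i : Fin 4)
    (h : cor x i ∈ R) : x ∈ srect a b c d := by
  have := hR h
  rw [mem_srect]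
  rcases fin4 i with rfl | rfl | rfl | rfl <;> simp only [rect, cor, mem_ofPred_eq] at this <;> omega

/-- reachability along a set of edges -/
def Reach (F : Set (V × V)) : V → V → Prop := Relation.ReflTransGen fun u v => (u, v) ∈ F

theorem Reach.mono {F G : Set (V × V)} (h : F ⊆ G) {a b : V} (hr : Reach F a b) : Reach G a b := by
  induction hr with
  | refl => exact .refl
  | tail _ h' ih => exact ih.tail (h h')

theorem Reach.walk {F : Set (V × V)} {a b : V} (h : Reach F a b) :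
    ∃ (p : ℕ → V) (N : ℕ), p 0 = a ∧ p N = b ∧ ∀ i < N, (p i, p (i + 1)) ∈ F := by
  induction h with
  | refl => exact ⟨fun _ => a, 0, rfl, rfl, fun _ h => absurd h (Nat.not_lt_zero _)⟩
  | @tail b c _ hbc ih =>
    obtain ⟨p, N, h0, hN, hF⟩ := ih
    refine ⟨fun i => if i ≤ N then p i else c, N + 1, by simp [h0], by simp, fun i hi => ?_⟩
    rcases Nat.lt_succ_iff_lt_or_eq.1 hi with hi | rfl
    · simpa [hi.le, Nat.succ_le_of_lt hi] using hF i hi
    · simpa [hN] using hbc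

theorem reach_edges (p : ℕ → V) {N s t : ℕ} (hs : s ≤ t) (ht : t ≤ N) :
    Reach (edges p N) (p s) (p t) := by
  induction t, hs using Nat.le_induction with
  | base => exact .refl
  | succ t _ ih => exact (ih (by omega)).tail ⟨t, by omega, rfl⟩

theorem mem_WW_of_reach {ξ : Cfg} {F : Set (V × V)} (hF : Adm ξ F) (ha : ∀ e ∈ F, Adj e.1 e.2)
    {R I J : Set V} {a b : V} (h : Reach F a b) (h1 : a ∈ I) (h2 : b ∈ J) (h3 : a ∈ R)
    (h4 : ∀ e ∈ F, e.2 ∈ R) : ξ ∈ WW R I J := by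
  obtain ⟨p, N, h0, hN, hp⟩ := h.walk
  refine mem_WW.2 ⟨p, N, ⟨fun i hi => ha _ (hp i hi), hF.mono ?_⟩, h0 ▸ h1, hN ▸ h2, ?_⟩
  · rintro _ ⟨i, hi, rfl⟩
    exact hp i hi
  · rintro (_ | i) hi
    · exact h0 ▸ h3
    · exact h4 _ (hp i hi)

/-- loop erasure -/
theorem WW_subset_WL {R : Set V} {B : Finset V} (hR : R ⊆ B) (I J : Set V) :
    WW R I J ⊆ WL R I J B.card := by
  classical
  intro ξ hξ
  have hex : ∃ N, ∃ p, IsW ξ p N ∧ p 0 ∈ I ∧ p N ∈ J ∧ ∀ i ≤ N, p i ∈ R := by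
    obtain ⟨p, N, h⟩ := mem_WW.1 hξ
    exact ⟨N, p, h⟩
  obtain ⟨p, h1, h2, h3, h4⟩ := Nat.find_spec hex
  refine ⟨p, _, ?_, h1, h2, h3, h4⟩
  by_contra hlt
  set N := Nat.find hex
  obtain ⟨i, hi, j, hj, hij, he⟩ := Finset.exists_ne_map_eq_of_card_lt_of_maps_to
    (s := Finset.range (N + 1)) (t := B) (f := p) (by simp; omega)
    fun i hi => hR (h4 i (by simpa [Nat.lt_succ_iff] using hi))
  wlog hlt' : i < j generalizing i j
  · exact this j hj i hi hij.symm he.symm (by omega)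
  simp only [Finset.mem_range] at hi hj
  have hk : ∀ k, k < N - (j - i) → ∃ l < N, (if k ≤ i then p k else p (k + (j - i))) = p l ∧
      (if k + 1 ≤ i then p (k + 1) else p (k + 1 + (j - i))) = p (l + 1) := by
    intro k hk
    rcases lt_trichotomy k i with h | rfl | h
    · exact ⟨k, by omega, by simp [h.le], by simp [Nat.succ_le_of_lt h]⟩
    · refine ⟨j, by omega, by simp [he], ?_⟩
      rw [if_neg (by omega)]
      congr 1
      omega
    · refine ⟨k + (j - i), by omega, by rw [if_neg (by omega)], ?_⟩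
      rw [if_neg (by omega)]
      congr 1
      omega
  refine Nat.find_min hex (m := N - (j - i)) (by omega)
    ⟨fun k => if k ≤ i then p k else p (k + (j - i)), ⟨fun k hk' => ?_, h1.adm.mono ?_⟩,
      by simpa using h2, ?_, fun k hk' => ?_⟩
  · obtain ⟨l, hl, e1, e2⟩ := hk k hk'
    rw [e1, e2]
    exact h1.adj l hl
  · rintro _ ⟨k, hk', rfl⟩
    obtain ⟨l, hl, e1, e2⟩ := hk k hk'
    exact ⟨l, hl, by dsimp only; rw [e1, e2]⟩
  · dsimp only
    by_cases h : N - (j - i) ≤ i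
    · have : j = N := by omega
      have h' : N - (j - i) = i := by omega
      rw [if_pos h, h', he, this]
      exact h3
    · rw [if_neg h, Nat.sub_add_cancel (by omega)]
      exact h3
  · dsimp only
    split_ifs
    · exact h4 _ (by omega)
    · exact h4 _ (by omega)

/-- first time at or after `s` with a property -/
theorem exists_first {P : ℕ → Prop} {s t : ℕ} (hs : s ≤ t) (ht : P t) :
    ∃ m, s ≤ m ∧ m ≤ t ∧ P m ∧ ∀ k, s ≤ k → k < m → ¬ P k := by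
  classical
  have hex : ∃ m, s ≤ m ∧ P m := ⟨t, hs, ht⟩
  exact ⟨Nat.find hex, (Nat.find_spec hex).1, Nat.find_min' hex ⟨hs, ht⟩, (Nat.find_spec hex).2,
    fun k hk hk' hP => Nat.find_min hex hk' ⟨hk, hP⟩⟩

/-- last time at or before `t` with a property -/
theorem exists_last {P : ℕ → Prop} {s t : ℕ} (hs : s ≤ t) (ht : P s) :
    ∃ m, s ≤ m ∧ m ≤ t ∧ P m ∧ ∀ k, m < k → k ≤ t → ¬ P k := by
  classical
  exact ⟨Nat.findGreatest P t, Nat.le_findGreatest hs ht, Nat.findGreatest_le t,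
    Nat.findGreatest_spec hs ht, fun k hk hk' => Nat.findGreatest_is_greatest hk hk'⟩

/-- discrete intermediate values: first time at which an integer function reaches a level -/
theorem exists_first_level {f : ℕ → ℤ} {s t : ℕ} {c : ℤ} (hs : s ≤ t) (h0 : f s ≤ c) (h1 : c ≤ f t)
    (hf : ∀ k, s ≤ k → k < t → f (k + 1) ≤ f k + 1) :
    ∃ m, s ≤ m ∧ m ≤ t ∧ f m = c ∧ ∀ k, s ≤ k → k < m → f k < c := by
  obtain ⟨m, h2, h3, h4, h5⟩ := exists_first (P := fun k => c ≤ f k) hs h1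
  refine ⟨m, h2, h3, ?_, fun k hk hk' => not_le.1 (h5 k hk hk')⟩
  rcases h2.eq_or_lt with rfl | h2
  · omega
  · obtain ⟨m, rfl⟩ : ∃ l, m = l + 1 := ⟨m - 1, by omega⟩
    have := h5 m (by omega) (by omega)
    have := hf m (by omega) (by omega)
    omega

/-- last time at which an integer function is at a level, before it stays above -/
theorem exists_last_level {f : ℕ → ℤ} {s t : ℕ} {c : ℤ} (hs : s ≤ t) (h0 : f s ≤ c) (h1 : c ≤ f t)
    (hf : ∀ k, s ≤ k → k < t → f (k + 1) ≤ f k + 1) :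
    ∃ m, s ≤ m ∧ m ≤ t ∧ f m = c ∧ ∀ k, m < k → k ≤ t → c < f k := by
  obtain ⟨m, h2, h3, h4, h5⟩ := exists_last (P := fun k => f k ≤ c) hs h0
  refine ⟨m, h2, h3, ?_, fun k hk hk' => not_le.1 (h5 k hk hk')⟩
  rcases h3.eq_or_lt with rfl | h3
  · omega
  · have := h5 (m + 1) (by omega) (by omega)
    have := hf m (by omega) (by omega)
    omega

end Pool.Agent.Lib.MP_02c850_pr
end

-- part Pool.Agent.Lib.MP_02c850_pr.Pot
section

/-! Winding potentials of walks, and walks that cross a box. -/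

namespace Pool.Agent.Lib.MP_02c850_pr

open Set

def ee (u v x : V) : ℤ :=
  if v.1 = u.1 + 1 ∧ x.1 = u.1 ∧ u.2 ≤ x.2 then 1
  else if v.1 = u.1 - 1 ∧ x.1 = v.1 ∧ u.2 ≤ x.2 then -1 else 0

def cc (v x : V) : Fin 4 → ℤ
  | 0 => 0
  | 1 => if v.1 = x.1 + 1 ∧ v.2 ≤ x.2 then 1 else 0
  | 2 => 0
  | 3 => if v.1 = x.1 ∧ v.2 ≤ x.2 then -1 else 0

theorem ee_diff {u v : V} (h : Adj u v) (x : V) (i : Fin 4) :
    ee u v x - ee u v (nbr x i) = (if (u, v) = ed x i then 1 else 0) -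
      (if (u, v) = (ed x i).swap then 1 else 0) + (cc v x i - cc u x i) := by
  obtain ⟨u1, u2⟩ := u
  obtain ⟨v1, v2⟩ := v
  obtain ⟨x1, x2⟩ := x
  simp only [Adj] at h
  have e1 : ∀ x : V, ee (u1, u2) (u1 + 1, u2) x = if x.1 = u1 ∧ u2 ≤ x.2 then 1 else 0 := by
    intro x
    have : ¬ (u1 + 1 = u1 - 1) := by omega
    simp [ee, this]
  have e2 : ∀ x : V, ee (u1, u2) (u1 - 1, u2) x = if x.1 = u1 - 1 ∧ u2 ≤ x.2 then -1 else 0 := by
    intro x
    have : ¬ (u1 - 1 = u1 + 1) := by omega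
    simp [ee, this]
  have e3 : ∀ (x : V) (t : ℤ), ee (u1, u2) (u1, t) x = 0 := by
    intro x t; simp only [ee]; split_ifs <;> omega
  rcases h with ⟨rfl, rfl⟩ | ⟨rfl, rfl⟩ | ⟨rfl, rfl⟩ | ⟨rfl, rfl⟩ <;>
    rcases fin4 i with rfl | rfl | rfl | rfl <;>
    simp only [e1, e2, e3, cc, nbr, ed_zero, ed_one, ed_two, ed_three, Prod.swap, Prod.mk.injEq] <;>
    split_ifs <;> omega

def pot (p : ℕ → V) (N : ℕ) (x : V) : ℤ := ∑ k ∈ Finset.range N, ee (p k) (p (k + 1)) x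

def nE (p : ℕ → V) (N : ℕ) (e : V × V) : ℤ :=
  ∑ k ∈ Finset.range N, if (p k, p (k + 1)) = e then 1 else 0

theorem nE_nonneg (p : ℕ → V) (N : ℕ) (e : V × V) : 0 ≤ nE p N e :=
  Finset.sum_nonneg fun _ _ => by split_ifs <;> simp

theorem nE_eq_zero {p : ℕ → V} {N : ℕ} {e : V × V} (h : e ∉ edges p N) : nE p N e = 0 :=
  Finset.sum_eq_zero fun k hk => if_neg fun he => h ⟨k, Finset.mem_range.1 hk, he.symm⟩

theorem nE_pos {p : ℕ → V} {N : ℕ} {e : V × V} (h : e ∈ edges p N) : 1 ≤ nE p N e := by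
  obtain ⟨k, hk, rfl⟩ := h
  have := Finset.single_le_sum (f := fun j => if (p j, p (j + 1)) = (p k, p (k + 1)) then (1 : ℤ)
    else 0) (fun _ _ => by split_ifs <;> simp) (Finset.mem_range.2 hk)
  simpa [nE] using this

theorem pot_diff {p : ℕ → V} {N : ℕ} (h : ∀ i < N, Adj (p i) (p (i + 1))) (x : V) (i : Fin 4) :
    pot p N x - pot p N (nbr x i) = nE p N (ed x i) - nE p N (ed x i).swap +
      (cc (p N) x i - cc (p 0) x i) := by
  rw [pot, pot, nE, nE, ← Finset.sum_range_sub (fun k => cc (p k) x i), ← Finset.sum_sub_distrib,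
    ← Finset.sum_sub_distrib, ← Finset.sum_add_distrib]
  exact Finset.sum_congr rfl fun k hk => ee_diff (h k (Finset.mem_range.1 hk)) x i

theorem pot_zero {p : ℕ → V} {N : ℕ} (h : ∀ i < N, Adj (p i) (p (i + 1))) {x : V}
    (hx : ∀ k ≤ N, (p k).1 = x.1 → x.2 < (p k).2) : pot p N x = 0 := by
  refine Finset.sum_eq_zero fun k hk => ?_
  have hk := Finset.mem_range.1 hk
  have h1 := hx k hk.le
  have h2 := hx (k + 1) hk
  have h3 := h k hk
  simp only [Adj] at h3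
  unfold ee
  split_ifs <;> omega

theorem pot_zero' {p : ℕ → V} {N : ℕ} (h : ∀ i < N, Adj (p i) (p (i + 1))) {x : V}
    (hx : ∀ k ≤ N, (p k).1 = x.1 + 1 → x.2 < (p k).2) : pot p N x = 0 := by
  refine Finset.sum_eq_zero fun k hk => ?_
  have hk := Finset.mem_range.1 hk
  have h1 := hx k hk.le
  have h2 := hx (k + 1) hk
  have h3 := h k hk
  simp only [Adj] at h3
  unfold ee
  split_ifs <;> omega

theorem pot_full {p : ℕ → V} {N : ℕ} (h : ∀ i < N, Adj (p i) (p (i + 1))) {x : V}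
    (hx : ∀ k ≤ N, (p k).1 = x.1 → (p k).2 ≤ x.2) :
    pot p N x = (if x.1 < (p N).1 then 1 else 0) - if x.1 < (p 0).1 then 1 else 0 := by
  rw [← Finset.sum_range_sub (fun k => if x.1 < (p k).1 then (1 : ℤ) else 0)]
  refine Finset.sum_congr rfl fun k hk => ?_
  have hk := Finset.mem_range.1 hk
  have h1 := hx k hk.le
  have h2 := hx (k + 1) hk
  have h3 := h k hk
  simp only [Adj] at h3
  unfold ee
  split_ifs <;> omega

/-- boundary vertices of the box -/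
def Bd (W H : ℤ) : Set V :=
  {v | (0 ≤ v.1 ∧ v.1 ≤ W ∧ 0 ≤ v.2 ∧ v.2 ≤ H) ∧ (v.1 = 0 ∨ v.1 = W ∨ v.2 = 0 ∨ v.2 = H)}

/-- counterclockwise position of a boundary vertex, from the upper left corner -/
def pos (W H : ℤ) (v : V) : ℤ :=
  if v.1 = 0 then H - v.2 else if v.1 = W then H + W + v.2 else if v.2 = 0 then H + v.1
  else 2 * H + 2 * W - v.1

/-- sites just outside the box, along a side -/
def Out (W H : ℤ) (x : V) : Prop :=
  ((x.1 = -1 ∨ x.1 = W) ∧ 0 ≤ x.2 ∧ x.2 < H) ∨ ((x.2 = -1 ∨ x.2 = H) ∧ 0 ≤ x.1 ∧ x.1 < W)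

def Inn (W H : ℤ) (x : V) : Prop := 0 ≤ x.1 ∧ x.1 < W ∧ 0 ≤ x.2 ∧ x.2 < H

def pos' (W H : ℤ) (x : V) : ℤ :=
  if x.1 = -1 then H - x.2 - 1 else if x.1 = W then H + W + x.2 else if x.2 = -1 then H + x.1
  else 2 * H + 2 * W - x.1 - 1

/-- edges of the box -/
def EB (W H : ℤ) : Set (V × V) := {e | e.1 ∈ rect 0 W 0 H ∧ e.2 ∈ rect 0 W 0 H}

def ph (W : ℤ) (v x : V) : ℤ :=
  if v.1 = 0 then (if x.1 < 0 ∧ v.2 ≤ x.2 then 1 else 0)
  else if v.1 = W then (if W ≤ x.1 ∧ v.2 ≤ x.2 then 0 else 1)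
  else if v.2 = 0 then (if x.1 < v.1 then 1 else 0) else 1

variable {W H : ℤ}

theorem EB_swap {e : V × V} (h : e ∈ EB W H) : e.swap ∈ EB W H := ⟨h.2, h.1⟩

theorem EB_left {x : V} {i : Fin 4} (h : ed x i ∈ EB W H) : Inn W H x ∨ Out W H x := by
  rcases fin4 i with rfl | rfl | rfl | rfl <;>
    simp only [EB, rect, ed_zero, ed_one, ed_two, ed_three, mem_ofPred_eq, Inn, Out] at h ⊢ <;>
    omega

theorem EB_nbr {x : V} {i : Fin 4} (h : ed x i ∈ EB W H) : ed (nbr x i) (i + 2) ∈ EB W H := by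
  rw [ed_nbr]
  exact EB_swap h

theorem EB_right {x : V} {i : Fin 4} (h : ed x i ∈ EB W H) :
    Inn W H (nbr x i) ∨ Out W H (nbr x i) := EB_left (EB_nbr h)

theorem Inn.EB {x : V} (h : Inn W H x) (i : Fin 4) : ed x i ∈ EB W H := by
  rcases fin4 i with rfl | rfl | rfl | rfl <;>
    simp only [MP_02c850_pr.EB, rect, ed_zero, ed_one, ed_two, ed_three, mem_ofPred_eq, Inn] at h ⊢ <;>
    omega

theorem ph_diff {v x : V} (hv : v ∈ Bd W H) {i : Fin 4} (h : ed x i ∈ EB W H) :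
    ph W v x - ph W v (nbr x i) = cc v x i := by
  rcases fin4 i with rfl | rfl | rfl | rfl <;>
    simp only [EB, rect, ed_zero, ed_one, ed_two, ed_three, mem_ofPred_eq, Bd, ph, cc, nbr]
      at h hv ⊢ <;> split_ifs <;> omega

theorem ph_out (hW : 1 ≤ W) (hH : 1 ≤ H) {v x : V} (hv : v ∈ Bd W H) (hx : Out W H x) :
    (if x.2 = H ∧ x.1 < v.1 then 1 else 0) - ph W v x =
      (if pos W H v ≤ pos' W H x then 1 else 0) - 1 := by
  simp only [Bd, Out, mem_ofPred_eq, ph, pos, pos'] at hv hx ⊢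
  split_ifs <;> omega

/-- the side function of a walk that joins two boundary vertices of the box -/
structure IsPot (W H : ℤ) (p : ℕ → V) (N : ℕ) (h : V → ℤ) : Prop where
  diff : ∀ x i, ed x i ∈ EB W H → h x - h (nbr x i) = nE p N (ed x i) - nE p N (ed x i).swap
  out : ∀ x, Out W H x →
    h x = if pos W H (p 0) ≤ pos' W H x ∧ pos' W H x < pos W H (p N) then 0 else 1

theorem exists_pot (hW : 1 ≤ W) (hH : 1 ≤ H) {p : ℕ → V} {N : ℕ}
    (ha : ∀ i < N, Adj (p i) (p (i + 1))) (hB : ∀ i ≤ N, p i ∈ rect 0 W 0 H)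
    (h0 : p 0 ∈ Bd W H) (hN : p N ∈ Bd W H) (hp : pos W H (p 0) ≤ pos W H (p N)) :
    ∃ h, IsPot W H p N h := by
  refine ⟨fun x => pot p N x - ph W (p N) x + ph W (p 0) x + 1, fun x i hx => ?_, fun x hx => ?_⟩
  · have h1 := pot_diff ha x i
    have h2 := ph_diff h0 hx
    have h3 := ph_diff hN hx
    omega
  · have h1 := ph_out hW hH h0 hx
    have h2 := ph_out hW hH hN hx
    have h3 : pot p N x = (if x.2 = H ∧ x.1 < (p N).1 then 1 else 0) -
        if x.2 = H ∧ x.1 < (p 0).1 then 1 else 0 := by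
      by_cases hx2 : x.2 = H
      · rw [pot_full ha fun k hk _ => hx2 ▸ (hB k hk).2.2.2]
        simp [hx2]
      · simp only [hx2, false_and, if_false, sub_self]
        by_cases hx1 : x.1 = W
        · refine pot_zero' ha fun k hk h => ?_
          have := (hB k hk).2.1
          omega
        · refine pot_zero ha fun k hk h => ?_
          have := hB k hk
          simp only [rect, mem_ofPred_eq, Out] at this hx
          omega
    rw [h3]
    split_ifs at h1 h2 ⊢ <;> omega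

variable {p : ℕ → V} {N : ℕ} {h : V → ℤ}

theorem IsPot.mem_of_lt (hp : IsPot W H p N h) {x : V} {i : Fin 4} (hx : ed x i ∈ EB W H)
    (hlt : h (nbr x i) < h x) : ed x i ∈ edges p N := by
  by_contra hn
  have h1 := hp.diff x i hx
  have h2 := nE_eq_zero hn
  have h3 := nE_nonneg p N (ed x i).swap
  omega

theorem IsPot.mem_of_gt (hp : IsPot W H p N h) {x : V} {i : Fin 4} (hx : ed x i ∈ EB W H)
    (hlt : h x < h (nbr x i)) : (ed x i).swap ∈ edges p N := by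
  by_contra hn
  have h1 := hp.diff x i hx
  have h2 := nE_eq_zero hn
  have h3 := nE_nonneg p N (ed x i)
  omega

/-- vertices of a walk -/
def Vs (p : ℕ → V) (N : ℕ) : Set V := {v | ∃ k ≤ N, p k = v}

theorem Vs_of_edges {e : V × V} (he : e ∈ edges p N) : e.1 ∈ Vs p N ∧ e.2 ∈ Vs p N := by
  obtain ⟨k, hk, rfl⟩ := he
  exact ⟨⟨k, hk.le, rfl⟩, ⟨k + 1, hk, rfl⟩⟩

theorem IsPot.eq_of_notMem (hp : IsPot W H p N h) {x : V} {i : Fin 4} (hx : ed x i ∈ EB W H)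
    (hv : (ed x i).1 ∉ Vs p N ∨ (ed x i).2 ∉ Vs p N) : h x = h (nbr x i) := by
  rcases lt_trichotomy (h x) (h (nbr x i)) with h1 | h1 | h1
  · have := Vs_of_edges (hp.mem_of_gt hx h1)
    tauto
  · exact h1
  · have := Vs_of_edges (hp.mem_of_lt hx h1)
    tauto

/-- an inner site touching the vertex `v` -/
def cl (W H : ℤ) (v : V) : V := (min v.1 (W - 1), min v.2 (H - 1))

theorem IsPot.val (hp : IsPot W H p N h) (hW : 1 ≤ W) (hH : 1 ≤ H) {v : V}
    (hv : v ∈ rect 0 W 0 H) (hn : v ∉ Vs p N) {x : V} {i : Fin 4} (hx : cor x i = v)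
    (hD : Inn W H x ∨ Out W H x) : h x = h (cl W H v) := by
  obtain ⟨v1, v2⟩ := v
  simp only [rect, mem_ofPred_eq] at hv
  have e1 : v1 < W → h (v1, v2) = h (v1, v2 - 1) := fun hh =>
    hp.eq_of_notMem (x := (v1, v2)) (i := 0) (by simp [EB, rect]; omega) (.inl hn)
  have e2 : v2 < H → h (v1 - 1, v2) = h (v1, v2) := fun hh => by
    have := hp.eq_of_notMem (x := (v1 - 1, v2)) (i := 1) (by simp [EB, rect]; omega)
      (.inl (by simpa using hn))
    simpa [nbr] using this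
  have e3 : 0 < v1 → h (v1 - 1, v2 - 1) = h (v1 - 1, v2) := fun hh => by
    have := hp.eq_of_notMem (x := (v1 - 1, v2 - 1)) (i := 2) (by simp [EB, rect]; omega)
      (.inl (by simpa using hn))
    simpa [nbr] using this
  have e4 : 0 < v2 → h (v1, v2 - 1) = h (v1 - 1, v2 - 1) := fun hh => by
    have := hp.eq_of_notMem (x := (v1, v2 - 1)) (i := 3) (by simp [EB, rect]; omega)
      (.inl (by simpa using hn))
    simpa [nbr] using this
  have hx' : x = (v1, v2) ∨ x = (v1 - 1, v2) ∨ x = (v1 - 1, v2 - 1) ∨ x = (v1, v2 - 1) := by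
    rcases fin4 i with rfl | rfl | rfl | rfl <;> simp only [cor, Prod.ext_iff] at hx ⊢ <;> omega
  have hc : cl W H (v1, v2) = (if v1 < W then v1 else v1 - 1, if v2 < H then v2 else v2 - 1) := by
    simp only [cl, Prod.ext_iff]
    split_ifs <;> omega
  rw [hc]
  rcases hx' with rfl | rfl | rfl | rfl <;> simp only [Inn, Out] at hD <;> split_ifs <;>
    omega

theorem IsPot.val_adj (hp : IsPot W H p N h) (hW : 1 ≤ W) (hH : 1 ≤ H) {u v : V}
    (hu : u ∈ rect 0 W 0 H) (hv : v ∈ rect 0 W 0 H) (hun : u ∉ Vs p N) (hvn : v ∉ Vs p N)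
    (ha : Adj u v) : h (cl W H u) = h (cl W H v) := by
  obtain ⟨x, i, hx⟩ := ha.exists_ed
  have hD := EB_left (W := W) (H := H) (x := x) (i := i) (hx ▸ ⟨hu, hv⟩)
  rw [← hp.val hW hH hu hun (congrArg Prod.fst hx) hD, hp.val hW hH hv hvn (congrArg Prod.snd hx) hD]

theorem IsPot.val_walk (hp : IsPot W H p N h) (hW : 1 ≤ W) (hH : 1 ≤ H) {q : ℕ → V} {s t : ℕ}
    (hs : s ≤ t) (ha : ∀ i, s ≤ i → i < t → Adj (q i) (q (i + 1)))
    (hq : ∀ i, s ≤ i → i ≤ t → q i ∈ rect 0 W 0 H ∧ q i ∉ Vs p N) :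
    h (cl W H (q s)) = h (cl W H (q t)) := by
  induction t, hs using Nat.le_induction with
  | base => rfl
  | succ t ht ih =>
    rw [ih (fun i h1 h2 => ha i h1 (by omega)) fun i h1 h2 => hq i h1 (by omega)]
    exact hp.val_adj hW hH (hq t ht (by omega)).1 (hq (t + 1) (by omega) le_rfl).1
      (hq t ht (by omega)).2 (hq (t + 1) (by omega) le_rfl).2 (ha t ht (by omega))

theorem exists_out (hW : 1 ≤ W) (hH : 1 ≤ H) {v : V} (hv : v ∈ Bd W H) :
    ∃ x i, cor x i = v ∧ Out W H x ∧ pos' W H x = pos W H v := by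
  obtain ⟨v1, v2⟩ := v
  simp only [Bd, mem_ofPred_eq] at hv
  by_cases h1 : v1 = 0 ∧ 0 < v2
  · exact ⟨(v1 - 1, v2 - 1), 2, by simp [cor], by simp only [Out]; omega,
      by simp only [pos, pos']; split_ifs <;> omega⟩
  by_cases h2 : v2 = 0 ∧ v1 < W
  · exact ⟨(v1, v2 - 1), 3, by simp [cor], by simp only [Out]; omega,
      by simp only [pos, pos']; split_ifs <;> omega⟩
  by_cases h3 : v1 = W ∧ v2 < H
  · exact ⟨(v1, v2), 0, by simp [cor], by simp only [Out]; omega,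
      by simp only [pos, pos']; split_ifs <;> omega⟩
  · exact ⟨(v1 - 1, v2), 1, by simp [cor], by simp only [Out]; omega,
      by simp only [pos, pos']; split_ifs <;> omega⟩

theorem pos_inj (hW : 1 ≤ W) (hH : 1 ≤ H) {u v : V} (hu : u ∈ Bd W H) (hv : v ∈ Bd W H)
    (h : pos W H u = pos W H v) : u = v := by
  simp only [Bd, mem_ofPred_eq, pos, Prod.ext_iff] at hu hv h ⊢
  split_ifs at h <;> omega

theorem IsPot.val_right (hp : IsPot W H p N h) (hW : 1 ≤ W) (hH : 1 ≤ H) (hN : p N ∈ Bd W H)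
    {v : V} (hv : v ∈ Bd W H) (hn : v ∉ Vs p N) (h1 : pos W H (p 0) ≤ pos W H v)
    (h2 : pos W H v ≤ pos W H (p N)) : h (cl W H v) = 0 := by
  obtain ⟨x, i, hx, hO, he⟩ := exists_out hW hH hv
  have h3 : pos W H v ≠ pos W H (p N) := fun h => hn ⟨N, le_rfl, (pos_inj hW hH hv hN h).symm⟩
  rw [← hp.val hW hH hv.1 hn hx (.inr hO), hp.out x hO, if_pos (by omega)]

theorem IsPot.val_left (hp : IsPot W H p N h) (hW : 1 ≤ W) (hH : 1 ≤ H) (h0 : p 0 ∈ Bd W H)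
    {v : V} (hv : v ∈ Bd W H) (hn : v ∉ Vs p N)
    (h1 : pos W H v ≤ pos W H (p 0) ∨ pos W H (p N) ≤ pos W H v) : h (cl W H v) = 1 := by
  obtain ⟨x, i, hx, hO, he⟩ := exists_out hW hH hv
  have h3 : pos W H v ≠ pos W H (p 0) := fun h =>
    hn ⟨0, Nat.zero_le _, (pos_inj hW hH hv h0 h).symm⟩
  rw [← hp.val hW hH hv.1 hn hx (.inr hO), hp.out x hO, if_neg (by omega)]

/-- the upper left quadrant -/
def Yq (x0 y0 : ℤ) : Set V := {v | v.1 ≤ x0 ∧ y0 ≤ v.2}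

theorem IsPot.quad (hp : IsPot W H p N h) (hW : 1 ≤ W) (h0 : p 0 ∈ Bd W H)
    (hN : p N ∈ Bd W H) {x0 y0 : ℤ} (hy : y0 ≤ H) (hY : ∀ k ≤ N, p k ∉ Yq x0 y0) {x : V}
    (hD : Inn W H x ∨ Out W H x) (h1 : x.1 + 1 ≤ x0) (h2 : y0 - 1 ≤ x.2) (h3 : 0 ≤ x.2) :
    h x = 1 := by
  have a1 := hY 0 (Nat.zero_le _)
  have a2 := hY N le_rfl
  have hO : ∀ x, Out W H x → x.1 + 1 ≤ x0 → y0 - 1 ≤ x.2 → 0 ≤ x.2 → h x = 1 := by
    intro x hx h1 h2 h3
    rw [hp.out x hx, if_neg]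
    simp only [Yq, Bd, Out, mem_ofPred_eq, pos, pos'] at a1 a2 h0 hN hx ⊢
    split_ifs <;> omega
  rcases hD with hD | hD
  · obtain ⟨x1, x2⟩ := x
    simp only [Inn] at hD h1 h2 h3
    have key : ∀ n : ℕ, x2 ≤ H - n → h (x1, H - n) = 1 := by
      intro n
      induction n with
      | zero => exact fun _ => hO _ (by simp only [Out]; omega) h1 (by simp; omega) (by simp; omega)
      | succ n ih =>
        intro hn
        have h4 := hp.eq_of_notMem (x := (x1, H - n)) (i := 0) (by simp [EB, rect]; omega)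
          (.inl fun ⟨k, hk, he⟩ => hY k hk (by rw [he]; simp [Yq]; omega))
        rw [ih (by omega)] at h4
        rw [h4]
        simp only [nbr]
        congr 2
        push_cast
        ring
    have := key (H - x2).toNat (by omega)
    rwa [show H - ((H - x2).toNat : ℤ) = x2 by omega] at this
  · exact hO x hD h1 h2 h3

end Pool.Agent.Lib.MP_02c850_pr
end

-- part Pool.Agent.Lib.MP_02c850_pr.Ext
section

/-! Boundaries of sets of sites, and the extremal blocking walk of a box. -/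

namespace Pool.Agent.Lib.MP_02c850_pr

open Set

/-- oriented boundary of a set of sites, with the set on the left -/
def bdry (S : Set V) : Set (V × V) := {e | ∃ x i, e = ed x i ∧ x ∈ S ∧ nbr x i ∉ S}

theorem mem_bdry {S : Set V} {x : V} {i : Fin 4} : ed x i ∈ bdry S ↔ x ∈ S ∧ nbr x i ∉ S := by
  refine ⟨fun ⟨y, j, he, h⟩ => ?_, fun h => ⟨x, i, rfl, h⟩⟩
  obtain ⟨rfl, rfl⟩ := ed_inj he
  exact h

theorem swap_mem_bdry {S : Set V} {x : V} {i : Fin 4} :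
    (ed x i).swap ∈ bdry S ↔ nbr x i ∈ S ∧ x ∉ S := by
  rw [← ed_nbr, mem_bdry, nbr_nbr]

theorem adj_bdry {S : Set V} {e : V × V} (h : e ∈ bdry S) : Adj e.1 e.2 := by
  obtain ⟨x, i, rfl, -⟩ := h
  exact adj_ed x i

def mv (u : V) : Fin 4 → V
  | 0 => (u.1 + 1, u.2)
  | 1 => (u.1, u.2 + 1)
  | 2 => (u.1 - 1, u.2)
  | 3 => (u.1, u.2 - 1)

def lf (u : V) : Fin 4 → V
  | 0 => u
  | 1 => (u.1 - 1, u.2)
  | 2 => (u.1 - 1, u.2 - 1)
  | 3 => (u.1, u.2 - 1)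

theorem ed_lf (u : V) (i : Fin 4) : ed (lf u i) i = (u, mv u i) := by
  rcases fin4 i with rfl | rfl | rfl | rfl <;> simp [lf, mv]

theorem mv_mv (u : V) (i : Fin 4) : mv (mv u i) (i + 2) = u := by
  rcases fin4 i with rfl | rfl | rfl | rfl <;> simp [mv]

theorem lf_mv (u : V) (i : Fin 4) : lf (mv u i) (i + 2) = nbr (lf u i) i := by
  rcases fin4 i with rfl | rfl | rfl | rfl <;> simp [mv, lf, nbr]

theorem flow_sum (U : Finset V) (f : V → Fin 4 → ℤ) (hf : ∀ u i, f (mv u i) (i + 2) = -f u i) :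
    ∑ u ∈ U, ∑ i, f u i = ∑ u ∈ U, ∑ i, if mv u i ∈ U then 0 else f u i := by
  have h1 : ∑ z ∈ (U ×ˢ (Finset.univ : Finset (Fin 4))).filter fun z => mv z.1 z.2 ∈ U,
      f z.1 z.2 = 0 := by
    refine Finset.sum_involution (fun z _ => (mv z.1 z.2, z.2 + 2)) (fun z _ => by simp [hf])
      (fun z _ _ h => ?_) (fun z hz => ?_) fun z _ => ?_
    · exact (by decide : ∀ j : Fin 4, j + 2 ≠ j) _ (congrArg Prod.snd h)
    · simp only [Finset.mem_filter, Finset.mem_product, Finset.mem_univ, and_true, mv_mv] at hz ⊢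
      exact hz.symm
    · exact Prod.ext (mv_mv _ _) ((by decide : ∀ j : Fin 4, j + 2 + 2 = j) _)
  rw [Finset.sum_filter, Finset.sum_product] at h1
  rw [← sub_eq_zero, ← Finset.sum_sub_distrib]
  refine Eq.trans (Finset.sum_congr rfl fun u _ => ?_) h1
  rw [← Finset.sum_sub_distrib]
  refine Finset.sum_congr rfl fun i _ => ?_
  split_ifs <;> simp

open Classical in
noncomputable def ind (S : Set V) (x : V) : ℤ := if x ∈ S then 1 else 0

theorem ind_le {S : Set V} {x : V} {i : Fin 4} (h : ed x i ∉ bdry S) :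
    ind S x - ind S (nbr x i) ≤ 0 := by
  rw [mem_bdry] at h
  unfold ind
  split_ifs <;> first | omega | tauto

variable {W H : ℤ}

/-- the trace of `S` on the outer sites is the one of a walk from `a` to `b` -/
def Pat (W H : ℤ) (S : Set V) (a b : V) : Prop :=
  ∀ x, Out W H x → (x ∈ S ↔ ¬ (pos W H a ≤ pos' W H x ∧ pos' W H x < pos W H b))

open Classical in
theorem div_eq (hW : 1 ≤ W) (hH : 1 ≤ H) {S : Set V} {a b : V} (ha : a ∈ Bd W H)
    (hb : b ∈ Bd W H) (hab : pos W H a ≤ pos W H b) (hS : Pat W H S a b) {u : V}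
    (hu : u ∈ rect 0 W 0 H) :
    ∑ i, (if (u, mv u i) ∈ EB W H then ind S (lf u i) - ind S (nbr (lf u i) i) else 0) =
      (if u = a then 1 else 0) - if u = b then 1 else 0 := by
  have h0 : 0 ≤ pos W H a := by
    simp only [Bd, pos, mem_ofPred_eq] at ha ⊢
    split_ifs <;> omega
  have h1 : pos W H b < 2 * H + 2 * W := by
    simp only [Bd, pos, mem_ofPred_eq] at hb ⊢
    split_ifs <;> omega
  obtain ⟨t, ht⟩ : ∃ t : ℤ → ℤ, ∀ k, t k = if pos W H a ≤ k ∧ k < pos W H b then 0 else 1 :=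
    ⟨_, fun _ => rfl⟩
  have hS' : ∀ x k, Out W H x ∧ pos' W H x = k → ind S x = t k := by
    rintro x _ ⟨hx, rfl⟩
    have := hS x hx
    rw [ht, ind]
    split_ifs <;> tauto
  have hB : ∀ k, u ∈ Bd W H ∧ pos W H u = k →
      ((if u = a then 1 else 0) - if u = b then 1 else 0 : ℤ) = t (k - 1) - t k := by
    rintro _ ⟨hu, rfl⟩
    have ea : u = a ↔ pos W H u = pos W H a := ⟨fun h => h ▸ rfl, pos_inj hW hH hu ha⟩
    have eb : u = b ↔ pos W H u = pos W H b := ⟨fun h => h ▸ rfl, pos_inj hW hH hu hb⟩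
    simp only [ea, eb, ht]
    split_ifs <;> omega
  have hI : u ∉ Bd W H → ((if u = a then 1 else 0) - if u = b then 1 else 0 : ℤ) = 0 := by
    intro hu
    rw [if_neg fun h : u = a => hu (h ▸ ha), if_neg fun h : u = b => hu (h ▸ hb), sub_self]
  have hT : t (0 - 1) = t (2 * H + 2 * W - 1) := by
    simp only [ht]
    split_ifs <;> omega
  obtain ⟨u1, u2⟩ := u
  simp only [rect, mem_ofPred_eq] at hu
  have e0 : ((u1, u2), mv (u1, u2) 0) ∈ EB W H ↔ u1 < W := by simp [EB, rect, mv]; omega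
  have e1 : ((u1, u2), mv (u1, u2) 1) ∈ EB W H ↔ u2 < H := by simp [EB, rect, mv]; omega
  have e2 : ((u1, u2), mv (u1, u2) 2) ∈ EB W H ↔ 0 < u1 := by simp [EB, rect, mv]; omega
  have e3 : ((u1, u2), mv (u1, u2) 3) ∈ EB W H ↔ 0 < u2 := by simp [EB, rect, mv]; omega
  rw [Fin.sum_univ_four]
  simp only [e0, e1, e2, e3, lf, nbr, sub_add_cancel]
  have s0 := hS' (u1, u2)
  have s1 := hS' (u1 - 1, u2)
  have s2 := hS' (u1 - 1, u2 - 1)
  have s3 := hS' (u1, u2 - 1)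
  generalize ind S (u1, u2) = n0 at *
  generalize ind S (u1 - 1, u2) = n1 at *
  generalize ind S (u1 - 1, u2 - 1) = n2 at *
  generalize ind S (u1, u2 - 1) = n3 at *
  simp only [Out, pos', pos, Bd, mem_ofPred_eq] at s0 s1 s2 s3 hB hI
  rcases (show u1 = 0 ∨ u1 = W ∨ (0 < u1 ∧ u1 < W) by omega) with g1 | g1 | g1 <;>
    rcases (show u2 = 0 ∨ u2 = H ∨ (0 < u2 ∧ u2 < H) by omega) with g2 | g2 | g2
  · rw [hB H (by split_ifs <;> omega), s1 (H - 1) (by split_ifs <;> omega),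
      s3 H (by split_ifs <;> omega)]
    split_ifs <;> omega
  · rw [hB 0 (by split_ifs <;> omega), hT, s0 (2 * H + 2 * W - 1) (by split_ifs <;> omega),
      s2 0 (by split_ifs <;> omega)]
    split_ifs <;> omega
  · rw [hB (H - u2) (by split_ifs <;> omega), s1 (H - u2 - 1) (by split_ifs <;> omega),
      s2 (H - u2) (by split_ifs <;> omega)]
    split_ifs <;> omega
  · rw [hB (H + W) (by split_ifs <;> omega), s0 (H + W) (by split_ifs <;> omega),
      s2 (H + W - 1) (by split_ifs <;> omega)]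
    split_ifs <;> omega
  · rw [hB (2 * H + W) (by split_ifs <;> omega), s1 (2 * H + W) (by split_ifs <;> omega),
      s3 (2 * H + W - 1) (by split_ifs <;> omega)]
    split_ifs <;> omega
  · rw [hB (H + W + u2) (by split_ifs <;> omega), s0 (H + W + u2) (by split_ifs <;> omega),
      s3 (H + W + u2 - 1) (by split_ifs <;> omega)]
    split_ifs <;> omega
  · rw [hB (H + u1) (by split_ifs <;> omega), s2 (H + u1 - 1) (by split_ifs <;> omega),
      s3 (H + u1) (by split_ifs <;> omega)]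
    split_ifs <;> omega
  · rw [hB (2 * H + 2 * W - u1) (by split_ifs <;> omega),
      s0 (2 * H + 2 * W - u1 - 1) (by split_ifs <;> omega),
      s1 (2 * H + 2 * W - u1) (by split_ifs <;> omega)]
    split_ifs <;> omega
  · rw [hI (by omega)]
    split_ifs <;> omega

theorem extract (hW : 1 ≤ W) (hH : 1 ≤ H) {S : Set V} {a b : V} (ha : a ∈ Bd W H)
    (hb : b ∈ Bd W H) (hab : pos W H a ≤ pos W H b) (hS : Pat W H S a b) :
    Reach (bdry S ∩ EB W H) a b := by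
  classical
  by_contra hn
  let U := (Finset.Icc ((0 : ℤ), (0 : ℤ)) (W, H)).filter fun v => Reach (bdry S ∩ EB W H) a v
  have hU : ∀ v, v ∈ U ↔ v ∈ rect 0 W 0 H ∧ Reach (bdry S ∩ EB W H) a v := by
    intro v
    simp only [U, Finset.mem_filter, Finset.mem_Icc, Prod.le_def, rect, mem_ofPred_eq]
    tauto
  have h1 := flow_sum U
    (fun u i => if (u, mv u i) ∈ EB W H then ind S (lf u i) - ind S (nbr (lf u i) i) else 0)
    fun u i => by
      rw [mv_mv, lf_mv, nbr_nbr]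
      by_cases h : (u, mv u i) ∈ EB W H
      · rw [if_pos h, if_pos (show (mv u i, u) ∈ EB W H from EB_swap h)]
        ring
      · rw [if_neg h, if_neg fun h' : (mv u i, u) ∈ EB W H => h (EB_swap h'), neg_zero]
  rw [Finset.sum_congr rfl fun u hu => div_eq hW hH ha hb hab hS ((hU u).1 hu).1,
    Finset.sum_sub_distrib, Finset.sum_ite_eq', Finset.sum_ite_eq',
    if_pos ((hU a).2 ⟨ha.1, .refl⟩), if_neg fun h => hn ((hU b).1 h).2] at h1
  have h2 : ∑ u ∈ U, ∑ i, (if mv u i ∈ U then 0 else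
      if (u, mv u i) ∈ EB W H then ind S (lf u i) - ind S (nbr (lf u i) i) else 0) ≤ 0 := by
    refine Finset.sum_nonpos fun u hu => Finset.sum_nonpos fun i _ => ?_
    split_ifs with h3 h4
    · exact le_rfl
    · refine ind_le fun h5 => h3 ((hU _).2 ⟨h4.2, ((hU u).1 hu).2.tail ⟨?_, h4⟩⟩)
      rwa [ed_lf] at h5
    · exact le_rfl
  omega

/-- sets whose boundary in the box is admissible and joins `I` to `J` -/
def Valid (W H : ℤ) (I J : Set V) (ξ : Cfg) (S : Set V) : Prop :=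
  (∃ a ∈ I, ∃ b ∈ J, Pat W H S a b) ∧ Adm ξ (bdry S ∩ EB W H)

/-- the largest valid set -/
def Sst (W H : ℤ) (I J : Set V) (ξ : Cfg) : Set V := ⋃₀ {S | Valid W H I J ξ S}

variable {I J : Set V} {ξ : Cfg}

theorem IsPot.valid {p : ℕ → V} {N : ℕ} {h : V → ℤ} (hp : IsPot W H p N h)
    (ha : Adm ξ (edges p N)) (h0 : p 0 ∈ I) (hN : p N ∈ J) : Valid W H I J ξ {x | 1 ≤ h x} := by
  refine ⟨⟨p 0, h0, p N, hN, fun x hx => ?_⟩, ha.mono ?_⟩
  · rw [mem_ofPred_eq, hp.out x hx]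
    split_ifs with h1 <;> simp [h1]
  · rintro _ ⟨⟨x, i, rfl, h1, h2⟩, h3⟩
    simp only [mem_ofPred_eq] at h1 h2
    exact hp.mem_of_lt h3 (by omega)

theorem pat_sUnion (hI : I ⊆ Bd W H) (hJ : J ⊆ Bd W H) {𝒮 : Set (Set V)} (hne : 𝒮.Nonempty)
    (h : ∀ S ∈ 𝒮, ∃ a ∈ I, ∃ b ∈ J, Pat W H S a b) : ∃ a ∈ I, ∃ b ∈ J, Pat W H (⋃₀ 𝒮) a b := by
  have hfin : (Bd W H).Finite := (Set.finite_Icc ((0 : ℤ), (0 : ℤ)) (W, H)).subset fun v hv => by
    simp only [Bd, mem_ofPred_eq, mem_Icc, Prod.le_def] at hv ⊢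
    omega
  obtain ⟨S₀, hS₀⟩ := hne
  obtain ⟨a₀, ha₀, b₀, hb₀, hp₀⟩ := h S₀ hS₀
  obtain ⟨a, ⟨ha, Sa, hSa, ba, -, hpa⟩, hmax⟩ := Set.exists_max_image
    {a ∈ I | ∃ S ∈ 𝒮, ∃ b ∈ J, Pat W H S a b} (pos W H) (hfin.subset fun a ha => hI ha.1)
    ⟨a₀, ha₀, S₀, hS₀, b₀, hb₀, hp₀⟩
  obtain ⟨b, ⟨hb, Sb, hSb, ab, -, hpb⟩, hmin⟩ := Set.exists_min_image
    {b ∈ J | ∃ S ∈ 𝒮, ∃ a ∈ I, Pat W H S a b} (pos W H) (hfin.subset fun a ha => hJ ha.1)
    ⟨b₀, hb₀, S₀, hS₀, a₀, ha₀, hp₀⟩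
  refine ⟨a, ha, b, hb, fun x hx => ⟨fun ⟨S, hS, hxS⟩ => ?_, fun hn => ?_⟩⟩
  · obtain ⟨a', ha', b', hb', hp⟩ := h S hS
    have h1 := hmax a' ⟨ha', S, hS, b', hb', hp⟩
    have h2 := hmin b' ⟨hb', S, hS, a', ha', hp⟩
    have h3 := (hp x hx).1 hxS
    omega
  · by_cases h1 : pos W H a ≤ pos' W H x
    · exact ⟨Sb, hSb, (hpb x hx).2 (by omega)⟩
    · exact ⟨Sa, hSa, (hpa x hx).2 (by omega)⟩

theorem adm_sUnion {𝒮 : Set (Set V)} {E : Set (V × V)}
    (h : ∀ x ∈ ⋃₀ 𝒮, ∃ S ∈ 𝒮, x ∈ S ∧ ∃ ξ', Adm ξ' (bdry S ∩ E) ∧ ξ' x ≤ ξ x) :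
    Adm ξ (bdry (⋃₀ 𝒮) ∩ E) := by
  intro x
  by_cases hx : x ∈ ⋃₀ 𝒮
  · obtain ⟨S, hS, hxS, ξ', h1, h2⟩ := h x hx
    exact adm_at h1 h2 fun i hi =>
      ⟨mem_bdry.2 ⟨hxS, fun h3 => (mem_bdry.1 hi.1).2 ⟨S, hS, h3⟩⟩, hi.2⟩
  · exact .inl (cnt_eq_zero.2 fun i hi => hx (mem_bdry.1 hi.1).1)

theorem valid_Sst (hI : I ⊆ Bd W H) (hJ : J ⊆ Bd W H) {S : Set V} (hS : Valid W H I J ξ S) :
    Valid W H I J ξ (Sst W H I J ξ) :=
  ⟨pat_sUnion hI hJ ⟨S, hS⟩ fun _ h => h.1,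
    adm_sUnion fun _ ⟨S, hS, hx⟩ => ⟨S, hS, hx, ξ, hS.2, le_rfl⟩⟩

theorem le_setTo (T : Finset V) (ξ : Cfg) : ξ ≤ setTo 3 T ξ := fun x => by
  unfold setTo
  split_ifs
  · exact Fin.le_last _
  · exact le_rfl

theorem Sst_setTo (hI : I ⊆ Bd W H) (hJ : J ⊆ Bd W H) {S : Set V} (hS : Valid W H I J ξ S)
    {T : Finset V} (hT : ∀ x ∈ T, x ∈ Sst W H I J ξ) :
    Sst W H I J (setTo 3 T ξ) = Sst W H I J ξ := by
  refine Subset.antisymm ?_ (sUnion_mono fun S hS => ⟨hS.1, hS.2.up (le_setTo T ξ)⟩)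
  rintro y ⟨S', hS', hy⟩
  have h0 := valid_Sst hI hJ hS
  refine ⟨⋃₀ {S', Sst W H I J ξ}, ⟨pat_sUnion hI hJ (insert_nonempty _ _) ?_, adm_sUnion ?_⟩,
    S', mem_insert _ _, hy⟩
  · rintro _ (rfl | rfl)
    · exact hS'.1
    · exact h0.1
  · intro x hx
    by_cases h1 : x ∈ Sst W H I J ξ
    · exact ⟨_, by simp, h1, ξ, h0.2, le_rfl⟩
    · refine ⟨S', by simp, ?_, _, hS'.2, ?_⟩
      · rcases hx with ⟨_, rfl | rfl, hx⟩
        · exact hx
        · exact absurd hx h1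
      · simp [setTo, mt (hT x) h1]

/-- a walk along the boundary of `S` from `I` to `J` -/
def Gam (W H : ℤ) (I J : Set V) (S : Set V) (d : (ℕ → V) × ℕ) : Prop :=
  d.1 0 ∈ I ∧ d.1 d.2 ∈ J ∧ Pat W H S (d.1 0) (d.1 d.2) ∧ edges d.1 d.2 ⊆ bdry S ∩ EB W H

noncomputable def gam (W H : ℤ) (I J : Set V) (S : Set V) : (ℕ → V) × ℕ :=
  Classical.epsilon (Gam W H I J S)

/-- properties of the extremal walk -/
structure Extr (W H : ℤ) (I J : Set V) (x0 y0 : ℤ) (ξ : Cfg) (S : Set V) (p : ℕ → V) (N : ℕ)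
    (h : V → ℤ) : Prop where
  mem0 : p 0 ∈ I
  memN : p N ∈ J
  isW : IsW ξ p N
  box : ∀ k ≤ N, p k ∈ rect 0 W 0 H
  sub : edges p N ⊆ bdry S
  pot : IsPot W H p N h
  up : ∀ x, 1 ≤ h x → x ∈ S
  left : ∀ x i, ed x i ∈ edges p N → 1 ≤ h x
  avoid : ∀ k ≤ N, p k ∉ Yq (x0 - 1) y0

theorem exists_extr (hW : 1 ≤ W) (hH : 1 ≤ H) (hI : I ⊆ Bd W H) (hJ : J ⊆ Bd W H)
    (hIJ : ∀ a ∈ I, ∀ b ∈ J, pos W H a ≤ pos W H b) {x0 y0 : ℤ} (hy0 : 1 ≤ y0) (hy : y0 ≤ H)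
    (hIY : ∀ a ∈ I, a ∉ Yq x0 y0) (hξ : ξ ∈ WW (rect 0 W 0 H \ Yq x0 y0) I J) :
    Valid W H I J ξ (Sst W H I J ξ) ∧ ∃ h, Extr W H I J x0 y0 ξ (Sst W H I J ξ)
      (gam W H I J (Sst W H I J ξ)).1 (gam W H I J (Sst W H I J ξ)).2 h := by
  obtain ⟨q, M, hq, q0, qM, hqR⟩ := mem_WW.1 hξ
  obtain ⟨g, hg⟩ := exists_pot hW hH hq.adj (fun i hi => (hqR i hi).1) (hI q0) (hJ qM)
    (hIJ _ q0 _ qM)
  have hv := hg.valid hq.adm q0 qM
  have h0 := valid_Sst hI hJ hv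
  refine ⟨h0, ?_⟩
  have hG : Gam W H I J (Sst W H I J ξ) (gam W H I J (Sst W H I J ξ)) := by
    refine Classical.epsilon_spec (p := Gam W H I J (Sst W H I J ξ)) ?_
    obtain ⟨a, ha, b, hb, hp⟩ := h0.1
    obtain ⟨p, N, rfl, rfl, hF⟩ := (extract hW hH (hI ha) (hJ hb) (hIJ a ha b hb) hp).walk
    exact ⟨(p, N), ha, hb, hp, by rintro _ ⟨i, hi, rfl⟩; exact hF i hi⟩
  generalize gam W H I J (Sst W H I J ξ) = d at hG
  obtain ⟨p, N⟩ := d
  obtain ⟨p0, pN, hpat, hF⟩ := hG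
  dsimp only at p0 pN hpat hF ⊢
  have hw : IsW ξ p N := ⟨fun i hi => adj_bdry (hF ⟨i, hi, rfl⟩).1, h0.2.mono hF⟩
  have hbox : ∀ k ≤ N, p k ∈ rect 0 W 0 H := by
    rintro (_ | k) hk
    · exact (hI p0).1
    · exact (hF ⟨k, hk, rfl⟩).2.2
  obtain ⟨h, hh⟩ := exists_pot hW hH hw.adj hbox (hI p0) (hJ pN) (hIJ _ p0 _ pN)
  have hnn : ∀ y, Inn W H y → y ∉ Sst W H I J ξ → 0 ≤ h y := by
    intro y hy hyS
    by_contra hneg
    refine hyS ⟨Sst W H I J ξ ∪ {y | Inn W H y ∧ h y < 0}, ⟨⟨_, p0, _, pN, fun x hx => ?_⟩, ?_⟩,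
      .inr ⟨hy, by omega⟩⟩
    · rw [← hpat x hx]
      refine ⟨fun h1 => h1.elim id fun h2 => ?_, .inl⟩
      have := h2.1
      simp only [Inn, Out] at this hx
      omega
    · intro x
      by_cases hx : x ∈ Sst W H I J ξ
      · exact adm_at h0.2 le_rfl fun i hi =>
          ⟨mem_bdry.2 ⟨hx, fun h3 => (mem_bdry.1 hi.1).2 (.inl h3)⟩, hi.2⟩
      · refine .inl (cnt_eq_zero.2 fun i hi => ?_)
        obtain ⟨h1, h2⟩ := mem_bdry.1 hi.1
        have h3 : h x < 0 := (h1.resolve_left hx).2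
        have h4 : 0 ≤ h (nbr x i) := by
          rcases EB_right hi.2 with h5 | h5
          · by_contra h6
            exact h2 (.inr ⟨h5, by omega⟩)
          · rw [hh.out _ h5]
            split_ifs <;> omega
        exact h2 (.inl (swap_mem_bdry.1 (hF (hh.mem_of_gt hi.2 (by omega))).1).1)
  refine ⟨h, p0, pN, hw, hbox, fun e he => (hF he).1, hh,
    fun x hx => ⟨_, hh.valid hw.adm p0 pN, hx⟩, fun x i hx => ?_, ?_⟩
  · obtain ⟨h1, h2⟩ := hF hx
    obtain ⟨h3, h4⟩ := mem_bdry.1 h1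
    have h5 := hh.diff x i h2
    have h6 := nE_pos hx
    have h7 := nE_eq_zero (p := p) (N := N) (e := (ed x i).swap)
      fun h8 => (swap_mem_bdry.1 (hF h8).1).2 h3
    have h8 : 0 ≤ h (nbr x i) := by
      rcases EB_right h2 with h5 | h5
      · exact hnn _ h5 h4
      · rw [hh.out _ h5]
        split_ifs <;> omega
    omega
  · rintro (_ | k) hk hY
    · exact hIY _ p0 ⟨by have := hY.1; omega, hY.2⟩
    · obtain ⟨⟨x, i, he, h1, h2⟩, h3⟩ := hF ⟨k, hk, rfl⟩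
      rw [he] at h3
      have h4 : p (k + 1) = (ed x i).2 := congrArg Prod.snd he
      rw [h4] at hY
      refine h2 ⟨_, hv, (hg.quad hW (hI q0) (hJ qM) hy (fun k hk => (hqR k hk).2) (EB_right h3)
        ?_ ?_ ?_).ge⟩ <;>
      rcases fin4 i with rfl | rfl | rfl | rfl <;> simp [Yq, nbr] at hY ⊢ <;> omega

/-- sites all of whose corners are at distance at least three from the walk -/
def Near (p : ℕ → V) (N : ℕ) (r : ℤ) (v : V) : Prop := ∃ k ≤ N, d1 (p k) v ≤ r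

def Far (p : ℕ → V) (N : ℕ) : Set V := {x | ∀ i, ¬ Near p N 2 (cor x i)}

/-- a surgery set -/
def Surg (W H : ℤ) (K : ℕ) (C : Set Cfg) (S : Set V) (p : ℕ → V) (N : ℕ) (ξ : Cfg)
    (T : Finset V) : Prop :=
  T ⊆ srect 0 W 0 H ∧ T.card ≤ K ∧ (∀ x ∈ T, x ∈ S ∧ x ∉ Far p N) ∧
    ∀ ξ' : Cfg, (∀ x ∈ Far p N, ξ' x = ξ x) → Adm ξ' (edges p N) → (∀ x ∈ T, ξ' x = 3) → ξ' ∈ C

theorem ext_surgery {w : Fin 4 → ℝ} (hw : Wt w) (hW : 1 ≤ W) (hH : 1 ≤ H) (hI : I ⊆ Bd W H)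
    (hJ : J ⊆ Bd W H) (hIJ : ∀ a ∈ I, ∀ b ∈ J, pos W H a ≤ pos W H b) {x0 y0 : ℤ} (hy0 : 1 ≤ y0)
    (hy : y0 ≤ H) (hIY : ∀ a ∈ I, a ∉ Yq x0 y0) {A C : Set Cfg} (hA : Loc (srect 0 W 0 H) A)
    (uA : IsUpperSet A) (hC : Loc (srect 0 W 0 H) C) (K : ℕ)
    (hd : ∀ ξ ∈ A, ∀ S p N h, Extr W H I J x0 y0 ξ S p N h → ∃ T, Surg W H K C S p N ξ T) :
    w 3 ^ K * (Pr w (WW (rect 0 W 0 H \ Yq x0 y0) I J) * Pr w A) ≤ Pr w C := by
  have hL : Loc (srect 0 W 0 H) (WW (rect 0 W 0 H \ Yq x0 y0) I J) :=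
    loc_WW (cor_rect sdiff_subset) I J
  refine (mul_le_mul_of_nonneg_left (Pr_fkg hw hL hA (upper_WW _ _ _) uA)
    (pow_nonneg (hw.1 3) K)).trans ?_
  refine surgery hw (hL.inter hA) hC (fun ξ => Classical.epsilon (Surg W H K C (Sst W H I J ξ)
    (gam W H I J (Sst W H I J ξ)).1 (gam W H I J (Sst W H I J ξ)).2 ξ)) K fun ξ hξ => ?_
  obtain ⟨hv, h, he⟩ := exists_extr hW hH hI hJ hIJ hy0 hy hIY hξ.1
  obtain ⟨h1, h2, h3, h4⟩ := Classical.epsilon_spec (hd ξ hξ.2 _ _ _ h he)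
  generalize hT : Classical.epsilon (Surg W H K C (Sst W H I J ξ)
    (gam W H I J (Sst W H I J ξ)).1 (gam W H I J (Sst W H I J ξ)).2 ξ) = T at h1 h2 h3 h4 ⊢
  have h5 : ∀ x ∈ Far (gam W H I J (Sst W H I J ξ)).1 (gam W H I J (Sst W H I J ξ)).2,
      setTo 3 T ξ x = ξ x := fun x hx => if_neg fun h6 => (h3 x h6).2 hx
  refine ⟨h1, h2, h4 _ h5 (he.isW.adm.up (le_setTo T ξ)) fun x hx => if_pos hx, ?_⟩
  rw [Sst_setTo hI hJ hv fun x hx => (h3 x hx).1]
  refine Eq.trans ?_ hT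
  congr 1
  funext T'
  refine propext (and_congr_right fun _ => and_congr_right fun _ => and_congr_right fun _ =>
    forall_congr' fun ξ' => imp_congr_left (forall₂_congr fun x hx => ?_))
  rw [h5 x hx]

theorem ext_free {w : Fin 4 → ℝ} (hw : Wt w) (hW : 1 ≤ W) (hH : 1 ≤ H) (hI : I ⊆ Bd W H)
    (hJ : J ⊆ Bd W H) (hIJ : ∀ a ∈ I, ∀ b ∈ J, pos W H a ≤ pos W H b) {A C : Set Cfg}
    (hA : Loc (srect 0 W 0 H) A) (uA : IsUpperSet A)
    (hd : ∀ ξ ∈ A, ∀ S p N h, Extr W H I J (-1) H ξ S p N h → ξ ∈ C) :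
    Pr w (WW (rect 0 W 0 H) I J) * Pr w A ≤ Pr w C := by
  refine (Pr_fkg hw (loc_WW (cor_rect Subset.rfl) I J) hA (upper_WW _ _ _) uA).trans
    (Pr_mono hw fun ξ hξ => ?_)
  obtain ⟨-, h, he⟩ := exists_extr (x0 := -1) (ξ := ξ) hW hH hI hJ hIJ hH le_rfl
    (fun a ha hY => by have := (hI ha).1.1; have := hY.1; omega)
    (WW_mono (R' := rect 0 W 0 H \ Yq (-1) H) (fun v hv => ⟨hv, fun hY => by have := hv.1; have := hY.1; omega⟩)
      (fun _ _ h => h) (fun _ _ h => h) hξ.1)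
  exact hd ξ hξ.2 _ _ _ h he

end Pool.Agent.Lib.MP_02c850_pr
end
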