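import Pool.Agent.Lib.MP_02c850_pr.RSW1
import Pool.Agent.Lib.MP_02c850_pr.Arm

-- part Pool.Agent.Lib.MP_02c850_pr.RSW2
section

/-! The length argument: crossings in the long direction cannot all be rare. -/

namespace Pool.Agent.Lib.MP_02c850_pr

open Set Filter

variable {w : Fin 4 → ℝ}

def Bad (q b u : ℤ) : Set Cfg :=
  ((WW (rect 0 (2 * q) (b - q) (b + q + 2 * u)) {v | v.1 = 0 ∧ v.2 ≤ b + u}
      {v | v.2 = b + q + 2 * u} ∪
    WW (rect 0 (2 * q) (b - q) (b + q + 2 * u)) {v | v.2 = b - q} {v | v.2 = b + q + 2 * u}) ∪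
  (WW (rect 0 (2 * q) (b - q - u) (b + q + u)) {v | v.1 = 0 ∧ b ≤ v.2} {v | v.2 = b - q - u} ∪
    WW (rect 0 (2 * q) (b - q - u) (b + q + u)) {v | v.2 = b + q + u} {v | v.2 = b - q - u})) ∪
  (WW (rect 0 (2 * q) (b - q - 2 * u) (b + q - 3 * u)) {v | v.1 = 0} {v | v.1 = 2 * q} ∪
    WW (rect 0 (2 * q) (b - q + 4 * u) (b + q + 3 * u)) {v | v.1 = 0} {v | v.1 = 2 * q})

theorem Pr_union_le {A B : Set Cfg} {a b : ℝ} (h1 : Pr w A ≤ a) (h2 : Pr w B ≤ b) :
    Pr w (A ∪ B) ≤ a + b := (Pr_union w A B).trans (add_le_add h1 h2)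

theorem Pr_Bad (hw : Wt w) (q b u : ℤ) {δ : ℝ} (h1 : Kt w (2 * q + 2 * u) (2 * q) ≤ δ)
    (h2 : Kb w (2 * q + 2 * u) (2 * q) ≤ δ) (h3 : Cx w (2 * q + 2 * u) (2 * q) ≤ δ)
    (h4 : Cx w (2 * q) (2 * q - u) ≤ δ) : Pr w (Bad q b u) ≤ 6 * δ := by
  refine (Pr_union_le (Pr_union_le
    (Pr_union_le (le_trans (Pr_rot3 hw (q - b) (2 * q) ?_ ?_ ?_).2 h1)
      (le_trans (Pr_rot3 hw (q - b) (2 * q) ?_ ?_ ?_).2 h3))
    (Pr_union_le (le_trans (Pr_rot1 hw (b + q + u) 0 ?_ ?_ ?_).2 h2)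
      (le_trans (Pr_rot1 hw (b + q + u) 0 ?_ ?_ ?_).2 h3)))
    (Pr_union_le (le_trans (Pr_tr hw 0 (q + 2 * u - b) ?_ ?_ ?_).2 h4)
      (le_trans (Pr_tr hw 0 (q - 4 * u - b) ?_ ?_ ?_).2 h4))).trans (by linarith)
  all_goals
    simp only [rect, mem_ofPred_eq]
    intros
    omega

theorem good {ξ : Cfg} {p : ℕ → V} {N τ : ℕ} (hp : IsW ξ p N) (hτ : τ ≤ N) {q b u : ℤ}
    (hu : 0 ≤ u) (hq : 0 ≤ q) (h0 : (p 0).1 = 0) (h1 : (p τ).1 = 2 * q)
    (h2 : ∀ k ≤ τ, 0 ≤ (p k).1 ∧ (p k).1 ≤ 2 * q) (h3 : b ≤ (p 0).2) (h4 : (p 0).2 ≤ b + u)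
    (hξ : ξ ∉ Bad q b u) :
    (∀ k ≤ τ, (p k).2 < (p 0).2 + q + 2 * u ∧ (p 0).2 - q - 2 * u < (p k).2) ∧
      (∃ k ≤ τ, (p 0).2 + q - 4 * u < (p k).2) ∧ ∃ k ≤ τ, (p k).2 < (p 0).2 - q + 4 * u := by
  have up : ∀ k < N, (p (k + 1)).2 ≤ (p k).2 + 1 ∧ -(p (k + 1)).2 ≤ -(p k).2 + 1 := fun k hk => by
    have := hp.adj k hk
    unfold Adj at this
    omega
  have G : ∀ k ≤ τ, (p k).2 < (p 0).2 + q + 2 * u ∧ (p 0).2 - q - 2 * u < (p k).2 := by
    refine fun k hk => ⟨?_, ?_⟩ <;> by_contra hh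
    · obtain ⟨m, -, h5, h6, h7⟩ := exists_first_level (f := fun i => (p i).2) (c := b + q + 2 * u)
        (Nat.zero_le k) (by omega) (by omega) fun i _ hi => (up i (by omega)).1
      have h8 : ∀ i ≤ m, (p i).2 ≤ b + q + 2 * u := fun i hi => by
        have := h7 i (Nat.zero_le i)
        rcases hi.eq_or_lt with rfl | hi <;> omega
      by_cases h9 : ∀ i ≤ m, b - q ≤ (p i).2
      · refine hξ (.inl (.inl (.inl (hp.mem_WW (Nat.zero_le m) (by omega) ⟨h0, h4⟩ h6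
          fun i _ hi => ?_))))
        exact ⟨(h2 i (by omega)).1, (h2 i (by omega)).2, h9 i hi, h8 i hi⟩
      · push Not at h9
        obtain ⟨i, hi, h9⟩ := h9
        obtain ⟨l, h10, h11, h12, h13⟩ := exists_last_level (f := fun i => (p i).2) (c := b - q)
          hi h9.le (by omega) fun i _ hi => (up i (by omega)).1
        refine hξ (.inl (.inl (.inr (hp.mem_WW h11 (by omega) h12 h6 fun j hj hj' => ?_))))
        refine ⟨(h2 j (by omega)).1, (h2 j (by omega)).2, ?_, h8 j hj'⟩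
        have := h13 j
        rcases hj.eq_or_lt with rfl | hj <;> omega
    · obtain ⟨m, -, h5, h6, h7⟩ := exists_first_level (f := fun i => -(p i).2) (c := q + u - b)
        (Nat.zero_le k) (by omega) (by omega) fun i _ hi => (up i (by omega)).2
      have h8 : ∀ i ≤ m, b - q - u ≤ (p i).2 := fun i hi => by
        have := h7 i (Nat.zero_le i)
        rcases hi.eq_or_lt with rfl | hi <;> omega
      have h6' : (p m).2 = b - q - u := by omega
      by_cases h9 : ∀ i ≤ m, (p i).2 ≤ b + q + u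
      · refine hξ (.inl (.inr (.inl (hp.mem_WW (Nat.zero_le m) (by omega) ⟨h0, h3⟩ h6'
          fun i _ hi => ?_))))
        exact ⟨(h2 i (by omega)).1, (h2 i (by omega)).2, h8 i hi, h9 i hi⟩
      · push Not at h9
        obtain ⟨i, hi, h9⟩ := h9
        obtain ⟨l, h10, h11, h12, h13⟩ := exists_last_level (f := fun i => -(p i).2)
          (c := -(b + q + u)) hi (by omega) (by omega) fun i _ hi => (up i (by omega)).2
        refine hξ (.inl (.inr (.inr (hp.mem_WW h11 (by omega) (show (p l).2 = b + q + u by omega)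
          h6' fun j hj hj' => ?_))))
        refine ⟨(h2 j (by omega)).1, (h2 j (by omega)).2, h8 j hj', ?_⟩
        have := h13 j
        rcases hj.eq_or_lt with rfl | hj <;> omega
  refine ⟨G, ?_, ?_⟩ <;> by_contra hh <;> push Not at hh
  · refine hξ (.inr (.inl (hp.mem_WW (Nat.zero_le τ) hτ h0 h1 fun i _ hi => ?_)))
    have := G i hi
    have := hh i hi
    exact ⟨(h2 i hi).1, (h2 i hi).2, by omega, by omega⟩
  · refine hξ (.inr (.inr (hp.mem_WW (Nat.zero_le τ) hτ h0 h1 fun i _ hi => ?_)))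
    have := G i hi
    have := hh i hi
    exact ⟨(h2 i hi).1, (h2 i hi).2, by omega, by omega⟩

theorem pigeon {τ : ℕ → ℕ} {J y : ℕ} (hJ : 1 ≤ J) (h : τ (2 * J) ≤ y) :
    ∃ j, J ≤ j ∧ j < 2 * J ∧ τ (j + 1) - τ j ≤ y / J := by
  by_contra hh
  push Not at hh
  have key : ∀ i ≤ J, i * (y / J + 1) ≤ τ (J + i) := by
    intro i hi
    induction i with
    | zero => simp
    | succ i ih =>
      have h1 := ih (by omega)
      have h2 := hh (J + i) (by omega) (by omega)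
      rw [add_mul, ← add_assoc]
      generalize y / J = z at *
      omega
  have h1 := key J le_rfl
  have h2 := Nat.lt_mul_div_succ y (show 0 < J by omega)
  rw [← two_mul] at h1
  omega

theorem Ex_le (hw : Wt w) {J : ℕ} {u n : ℤ} (hJ : 1 ≤ J) (hu : 1 ≤ u) (hn : 10 * n = 24 * (J * u))
    {δ : ℝ} (hδ : ∀ j : ℕ, 1 ≤ j → j ≤ 2 * J → ∀ b, Pr w (Bad (6 * (j * u)) b u) ≤ δ) (y : ℕ) :
    Pr w (Ex (10 * n) (4 * (10 * n)) y) ≤
      2 * J * (2 * (96 * J) + 1) * δ + 81 ^ 2 * arm w n (y / J) := by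
  have hJu : 1 ≤ (J : ℤ) * u := one_le_mul_of_one_le_of_one_le (by omega) hu
  obtain ⟨G, hG, hG'⟩ := exists_cover hw (n := n) (by omega) 40
  have h1 := hG G Finset.Subset.rfl (y / J)
  have h2 := Pr_biUnion_le w
    (Finset.Icc 1 (2 * J) ×ˢ Finset.Icc (-(96 * J : ℕ) : ℤ) (96 * J : ℕ))
    (fun z => Bad (6 * (z.1 * u)) (z.2 * u) u) (c := δ) fun z hz => by
      simp only [Finset.mem_product, Finset.mem_Icc] at hz
      exact hδ _ hz.1.1 hz.1.2 _
  rw [Finset.card_product, Nat.card_Icc, Int.card_Icc, Nat.add_sub_cancel,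
    show ((96 * J : ℕ) + 1 - -(96 * J : ℕ) : ℤ).toNat = 2 * (96 * J) + 1 by omega] at h2
  refine (Pr_mono hw ?_).trans ((Pr_union_le h2 h1).trans (le_of_eq (by push_cast; ring)))
  rintro ξ ⟨p, N, hL, hp, h3, h4, h5⟩
  refine or_iff_not_imp_left.2 fun hξ => ?_
  simp only [rect, mem_ofPred_eq] at h3 h4 h5
  obtain ⟨i, h6, h7, h8, h9⟩ := exists_cell (A := (96 * J : ℕ)) (t := (p 0).2) hu
    (by have := h5 0 (Nat.zero_le _); push_cast; linarith)
    (by have := h5 0 (Nat.zero_le _); push_cast; linarith)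
  have hτ : ∀ j : ℕ, ∃ m, j ≤ 2 * J → m ≤ N ∧ (p m).1 = 2 * (6 * (j * u)) ∧
      ∀ k < m, (p k).1 < 2 * (6 * (j * u)) := by
    intro j
    by_cases hj : j ≤ 2 * J
    · have e1 : (0 : ℤ) ≤ j * u := by positivity
      have e2 : (j : ℤ) * u ≤ 2 * J * u := by gcongr; exact_mod_cast hj
      obtain ⟨m, -, e3, e4, e5⟩ := exists_first_level (f := fun i => (p i).1)
        (c := 2 * (6 * (j * u))) (Nat.zero_le N) (by omega) (by linarith)
        fun k _ hk => by have := hp.adj k hk; unfold Adj at this; omega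
      exact ⟨m, fun _ => ⟨e3, e4, fun k hk => e5 k (Nat.zero_le k) hk⟩⟩
    · exact ⟨0, fun h => absurd h hj⟩
  choose τ hτ using hτ
  have hg : ∀ j : ℕ, 1 ≤ j → j ≤ 2 * J → _ := fun j hj hj' =>
    good hp (hτ j hj').1 (b := i * u) (u := u) (by omega) (by positivity) h3 (hτ j hj').2.1
      (fun k hk => ⟨(h5 k (hk.trans (hτ j hj').1)).1, by
        have := hτ j hj'
        have := this.2.2 k
        rcases hk.eq_or_lt with rfl | hk <;> omega⟩) h8 h9.le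
      fun h => hξ (mem_iUnion₂.2 ⟨(j, i), by
        simp only [Finset.mem_product, Finset.mem_Icc]
        exact ⟨⟨hj, hj'⟩, h6, h7⟩, h⟩)
  obtain ⟨j, hj, hj', hy⟩ := pigeon (τ := τ) hJ ((hτ _ le_rfl).1.trans hL)
  have g1 := (hg j (by omega) (by omega)).1
  obtain ⟨-, ⟨k, hk, g2⟩, l, hl, g3⟩ := hg (j + 1) (by omega) (by omega)
  have g4 := (hτ (j + 1) (by omega)).1
  have e1 : (J : ℤ) * u ≤ j * u := by gcongr
  rw [Nat.cast_succ, add_mul, one_mul] at g2 g3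
  have g5 : τ j < k := by
    by_contra hh
    have := g1 k (by omega)
    omega
  have g6 : τ j < l := by
    by_contra hh
    have := g1 l (by omega)
    omega
  have fin : ∀ s t, τ j < s → s ≤ t → t ≤ τ (j + 1) →
      (3 * n ≤ (p s).2 - (p t).2 ∨ 3 * n ≤ (p t).2 - (p s).2) → ξ ∈ ⋃ c ∈ G, Arm c n (y / J) := by
    intro s t e2 e3 e4 e5
    have e6 := h5 s (by omega)
    obtain ⟨c, hc, e7⟩ := hG' (p s) (by simp only [nm]; omega)
    refine mem_iUnion₂.2 ⟨c, hc, hp.arm e3 (by omega) (by omega) (by omega) e7 ?_⟩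
    simp only [mem_box, nm] at e7 ⊢
    omega
  rcases le_total k l with h | h
  · exact fin k l g5 h hl (by omega)
  · exact fin l k g6 h hk (by omega)

theorem rsw_length (hw : Wt w) (h3 : 0 < w 3)
    (h0 : ∀ A B : ℕ, 1 ≤ B → B < A → ∀ c > 0, ∃ u0 : ℕ, ∀ u ≥ u0, Cx w (A * u) (B * u) < c)
    {c : ℝ} (hc : 0 < c) (h1 : ∀ m : ℕ, 1 ≤ m → c ≤ Pr w (ArmW m)) : False := by
  obtain ⟨J, hJ⟩ : ∃ J : ℕ, J = 80000 := ⟨_, rfl⟩
  obtain ⟨η, hη, hη1, hη2⟩ : ∃ η : ℝ, 0 < η ∧ η ≤ c ∧ 4 * (81 ^ 2 * (61 ^ 2) ^ 2) * η ≤ 1 / 2 :=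
    ⟨min c (1 / (8 * (81 ^ 2 * (61 ^ 2) ^ 2))), by positivity, min_le_left _ _,
      (mul_le_mul_of_nonneg_left (min_le_right _ _) (by positivity)).trans (by norm_num)⟩
  obtain ⟨δ, hδ, hδ1⟩ : ∃ δ : ℝ, 0 < δ ∧ 4 * (2 * J * (2 * (96 * J) + 1) * (6 * δ)) < η / 2 := by
    refine ⟨η / (4 * (4 * (2 * J * (2 * (96 * J) + 1) * 6))), by subst hJ; positivity, ?_⟩
    subst hJ
    push_cast
    linarith
  have hB : ∀ j : ℕ, 1 ≤ j → ∀ᶠ u : ℕ in atTop, ∀ b, Pr w (Bad (6 * (j * u)) b u) ≤ 6 * δ := by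
    intro j hj
    have c3 : 0 < w 3 ^ 12 := by positivity
    have c4 : w 3 ^ 12 ≤ 1 := pow_le_one₀ h3.le (hw.le_one 3)
    obtain ⟨u0, e0⟩ := h0 (12 * j + 2) (12 * j) (by omega) (by omega)
      (min δ (w 3 ^ 12 * δ ^ 2)) (by positivity)
    obtain ⟨i, rfl⟩ : ∃ i, j = i + 1 := ⟨j - 1, by omega⟩
    obtain ⟨u1, e1⟩ := h0 (12 * (i + 1)) (12 * i + 11) (by omega) (by omega) δ hδ
    filter_upwards [eventually_ge_atTop u0, eventually_ge_atTop u1, eventually_ge_atTop 1]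
      with u e2 e3 e4 b
    have e5 := e0 u e2
    have e6 := e1 u e3
    have e7 : (1 : ℤ) ≤ (i + 1 : ℕ) * u := one_le_mul_of_one_le_of_one_le (by omega) (by omega)
    rw [show ((12 * (i + 1) + 2 : ℕ) * u : ℤ) = 2 * (6 * ((i + 1 : ℕ) * u)) + 2 * u by
      push_cast; ring, show ((12 * (i + 1) : ℕ) * u : ℤ) = 2 * (6 * ((i + 1 : ℕ) * u)) by
      push_cast; ring] at e5
    rw [show ((12 * i + 11 : ℕ) * u : ℤ) = 2 * (6 * ((i + 1 : ℕ) * u)) - u by
      push_cast; ring, show ((12 * (i + 1) : ℕ) * u : ℤ) = 2 * (6 * ((i + 1 : ℕ) * u)) by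
      push_cast; ring] at e6
    rw [lt_min_iff] at e5
    refine Pr_Bad hw _ _ _ (abs_le_of_sq_le_sq' ?_ hδ.le).2 (abs_le_of_sq_le_sq' ?_ hδ.le).2
      e5.1.le e6.le
    · refine ((Kt_sq hw (by omega) (by omega)).trans e5.2.le).trans ?_
      nlinarith [sq_nonneg δ]
    · exact le_of_mul_le_mul_left ((Kb_sq hw (by omega) (by omega)).trans e5.2.le) c3
  obtain ⟨u0, hu0⟩ := eventually_atTop.1 ((Finset.Icc 1 (2 * J)).eventually_all.2
    fun j hj => hB j (Finset.mem_Icc.1 hj).1)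
  have step : ∀ v : ℕ, u0 + 1 ≤ v → ∀ x, (∀ y < x, arm w (24 * (J * v)) y < η) →
      ∀ y < J * x, arm w (24 * (J * (200 * v : ℕ))) y < η := by
    intro v hv x hx y hy
    have e0 : (1 : ℤ) ≤ J * v := one_le_mul_of_one_le_of_one_le (by omega) (by omega)
    have e1 := Ex_le hw (J := J) (u := (200 * v : ℕ)) (n := 20 * (24 * (J * v))) (by omega)
      (by omega) (by push_cast; ring)
      (fun j hj hj' => hu0 (200 * v) (by omega) j (Finset.mem_Icc.2 ⟨hj, hj'⟩)) y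
    have e2 := arm_le_Ex hw (n := 10 * (20 * (24 * (J * v)))) (by omega) y
    have e3 := boost hw (n := 24 * (J * v)) (by omega) (y / J)
    have e4 := hx (y / J) (Nat.div_lt_of_lt_mul hy)
    have e5 := arm_nonneg w (24 * (J * v)) (y / J)
    rw [show (24 * (J * (200 * v : ℕ)) : ℤ) = 10 * (20 * (24 * (J * v))) by push_cast; ring]
    have e6 : (61 ^ 2 * arm w (24 * (J * v)) (y / J)) ^ 2 ≤ (61 ^ 2 * η) ^ 2 := by gcongr
    nlinarith
  have iter : ∀ k : ℕ, ∀ y < J ^ k, arm w (24 * (J * (200 ^ k * (u0 + 1) : ℕ))) y < η := by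
    intro k
    induction k with
    | zero =>
      intro y hy
      obtain rfl : y = 0 := by simpa using hy
      rw [arm_zero]
      · exact hη
      · have : (1 : ℤ) ≤ J * (200 ^ 0 * (u0 + 1) : ℕ) :=
          one_le_mul_of_one_le_of_one_le (by omega) (by omega)
        omega
    | succ k ih =>
      rw [pow_succ' J, pow_succ' 200, mul_assoc]
      exact step _ (Nat.le_mul_of_pos_left _ (by positivity)) _ ih
  obtain ⟨k, hk⟩ : ∃ k, k = (5 * (24 * (J * (u0 + 1)))) ^ 2 := ⟨_, rfl⟩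
  obtain ⟨m, hm⟩ : ∃ m, m = 24 * (J * (200 ^ k * (u0 + 1))) := ⟨_, rfl⟩
  have hm1 : 1 ≤ m := by
    rw [hm, hJ]
    exact Nat.one_le_iff_ne_zero.2 (by positivity)
  have e1 := iter k ((4 * m + 1) ^ 2) (by
    calc (4 * m + 1) ^ 2 ≤ (5 * m) ^ 2 := by gcongr; omega
      _ = k * (200 ^ 2) ^ k := by
        rw [hm, ← pow_mul, mul_comm 2 k, pow_mul]
        nth_rw 2 [hk]
        ring
      _ < 2 ^ k * (200 ^ 2) ^ k := by gcongr; exact Nat.lt_two_pow_self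
      _ = J ^ k := by rw [← mul_pow, hJ]; norm_num)
  have e2 := (h1 m hm1).trans (ArmW_le hw m)
  rw [show (24 * (J * (200 ^ k * (u0 + 1) : ℕ)) : ℤ) = m by rw [hm]; push_cast; ring] at e1
  linarith

theorem circuits (hw : Wt w) (h3 : 0 < w 3) {c : ℝ} (hc : 0 < c)
    (h1 : ∀ m : ℕ, 1 ≤ m → c ≤ Pr w (ArmW m)) :
    ∃ c' > 0, ∀ n : ℕ, ∃ R : ℕ, c' ≤ Pr w (Circ n R) := by
  by_contra hh
  refine rsw_length hw h3 (fun A B hB hA d hd => ?_) hc h1
  by_contra h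
  push Not at h
  exact hh (rsw_circ hw h3 hB hA hd h)

end Pool.Agent.Lib.MP_02c850_pr
end

-- part Pool.Agent.Lib.MP_02c850_pr.Stab
section

/-! Stable sets of the dynamics. -/

namespace Pool.Agent.Lib.MP_02c850_pr

open Set Filter

variable {w : Fin 4 → ℝ}

theorem zeros_eq (ξ : Cfg) (x : V) :
    zeros ξ x = (Finset.univ.filter fun i => ξ (nbr x i) = 0).card := by
  have h1 : nbrs x = Finset.univ.image (nbr x) := by
    ext y
    simp only [nbrs, Finset.mem_insert, Finset.mem_singleton, Finset.mem_image, Finset.mem_univ,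
      true_and]
    constructor
    · rintro (rfl | rfl | rfl | rfl)
      exacts [⟨1, rfl⟩, ⟨3, rfl⟩, ⟨2, rfl⟩, ⟨0, rfl⟩]
    · rintro ⟨i, rfl⟩
      rcases fin4 i with rfl | rfl | rfl | rfl <;> simp [nbr]
  have h2 : Function.Injective (nbr x) := fun i j h => by
    rcases fin4 i with rfl | rfl | rfl | rfl <;> rcases fin4 j with rfl | rfl | rfl | rfl <;>
      simp only [nbr, Prod.ext_iff] at h <;> first | rfl | omega
  rw [zeros, h1, Finset.filter_image, Finset.card_image_of_injective _ h2]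

theorem iter_eq (ξ : Cfg) (x : V) (t : ℕ) : step^[t] ξ x = 0 ∨ step^[t] ξ x = ξ x := by
  induction t with
  | zero => exact .inr rfl
  | succ t ih =>
    rw [Function.iterate_succ_apply', step]
    split_ifs
    · exact .inl rfl
    · exact ih

theorem iter_zero {ξ : Cfg} {x : V} {s t : ℕ} (hs : s ≤ t) (h : step^[s] ξ x = 0) :
    step^[t] ξ x = 0 := by
  induction t, hs using Nat.le_induction with
  | base => exact h
  | succ t _ ih =>
    rw [Function.iterate_succ_apply', step, if_pos (by simp [ih])]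

/-- sites that never reach the state `0` -/
def Sinf (ξ : Cfg) : Set V := {x | ∀ t, step^[t] ξ x ≠ 0}

theorem mem_Sinf {ξ : Cfg} (h : ξ ∉ finalZero) : (0, 0) ∈ Sinf ξ := fun t ht =>
  h (eventually_atTop.2 ⟨t, fun _ hs => iter_zero hs ht⟩)

theorem Sinf_stable {ξ : Cfg} {x : V} (hx : x ∈ Sinf ξ) : cnt (bdry (Sinf ξ)) x < ξ x := by
  classical
  have h1 : ∀ i, ∃ t, nbr x i ∉ Sinf ξ → step^[t] ξ (nbr x i) = 0 := fun i => by
    by_cases h : nbr x i ∈ Sinf ξ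
    · exact ⟨0, fun h' => absurd h h'⟩
    · obtain ⟨t, ht⟩ := not_forall.1 h
      exact ⟨t, fun _ => not_not.1 ht⟩
  choose t ht using h1
  have h2 : cnt (bdry (Sinf ξ)) x ≤ zeros (step^[∑ i, t i] ξ) x := by
    rw [zeros_eq]
    refine Finset.card_le_card fun i hi => ?_
    simp only [Finset.mem_filter, Finset.mem_univ, true_and, mem_bdry] at hi ⊢
    exact iter_zero (Finset.single_le_sum (fun _ _ => Nat.zero_le _) (Finset.mem_univ i))
      (ht i hi.2)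
  have h3 := hx (∑ i, t i + 1)
  rw [Function.iterate_succ_apply', step] at h3
  split_ifs at h3 with h4
  · exact absurd rfl h3
  · rw [(iter_eq ξ x _).resolve_left h3] at h4
    omega

theorem adm_Sinf (ξ : Cfg) : Adm ξ (bdry (Sinf ξ)) := fun x => by
  by_cases hx : x ∈ Sinf ξ
  · exact .inr (Sinf_stable hx)
  · exact .inl (cnt_eq_zero.2 fun i hi => hx (mem_bdry.1 hi).1)

/-- the origin lies in a stable set inside the square of radius `R` -/
def Stab (R : ℤ) : Set Cfg :=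
  {ξ | ∃ S : Set V, (0, 0) ∈ S ∧ S ⊆ rect (-R) R (-R) R ∧ ∀ x ∈ S, cnt (bdry S) x < ξ x}

theorem Stab_subset (R : ℤ) : Stab R ⊆ finalZeroᶜ := by
  rintro ξ ⟨S, h0, -, hS⟩ hξ
  have key : ∀ t, ∀ x ∈ S, step^[t] ξ x = ξ x := by
    intro t
    induction t with
    | zero => exact fun _ _ => rfl
    | succ t ih =>
      intro x hx
      have h1 : zeros (step^[t] ξ) x ≤ cnt (bdry S) x := by
        classical
        rw [zeros_eq]
        refine Finset.card_le_card fun i hi => ?_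
        simp only [Finset.mem_filter, Finset.mem_univ, true_and, mem_bdry] at hi ⊢
        refine ⟨hx, fun h => ?_⟩
        have := hS _ h
        rw [← ih _ h, hi] at this
        exact absurd this (Nat.not_lt_zero _)
      have h2 := hS x hx
      rw [Function.iterate_succ_apply', step, ih x hx, if_neg (by omega)]
  obtain ⟨t, ht⟩ := Eventually.exists hξ
  have := hS _ h0
  rw [← key t _ h0, ht] at this
  exact absurd this (Nat.not_lt_zero _)

noncomputable def sq' (R : ℤ) : Finset V := Finset.Icc (-R, -R) (R, R)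

theorem mem_sq' {R : ℤ} {x : V} : x ∈ sq' R ↔ x ∈ rect (-R) R (-R) R := by
  simp only [sq', rect, Finset.mem_Icc, Prod.le_def, mem_ofPred_eq]
  tauto

theorem loc_Stab (R : ℤ) : Loc (sq' R) (Stab R) := by
  rintro ω ω' hh ⟨S, h0, h1, h2⟩
  exact ⟨S, h0, h1, fun x hx => hh x (mem_sq'.2 (h1 hx)) ▸ h2 x hx⟩

theorem loc_Circ (n R : ℤ) : Loc (sq' R \ sq' (n - 1)) (Circ n R) := by
  rintro ω ω' hh ⟨S, h0, h1, h2⟩
  refine ⟨S, h0, h1, h2.congr fun x i hx => (hh x ?_).le⟩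
  rw [mem_bdry] at hx
  refine Finset.mem_sdiff.2 ⟨mem_sq'.2 (h1 hx.1), fun h => hx.2 (h0 _ ?_)⟩
  rw [mem_sq'] at h
  rcases fin4 i with rfl | rfl | rfl | rfl <;> simp only [rect, nbr, mem_ofPred_eq] at h ⊢ <;> omega

theorem Circ_mono {n R n' R' : ℤ} (hn : n' ≤ n) (hR : R ≤ R') : Circ n R ⊆ Circ n' R' := by
  rintro ξ ⟨S, h0, h1, h2⟩
  refine ⟨S, fun x hx => h0 x ?_, fun x hx => ?_, h2⟩
  · simp only [rect, mem_ofPred_eq] at hx ⊢
    omega
  · have := h1 hx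
    simp only [rect, mem_ofPred_eq] at this ⊢
    omega

theorem Circ_likely (hw : Wt w) {c : ℝ} (h : ∀ n : ℕ, ∃ R : ℕ, c ≤ Pr w (Circ n R)) (k : ℕ) :
    ∃ R : ℕ, Pr w (Circ 0 R)ᶜ ≤ (1 - c) ^ k := by
  induction k with
  | zero => exact ⟨0, by simpa using Pr_le_one hw _⟩
  | succ k ih =>
    obtain ⟨R, hR⟩ := ih
    obtain ⟨R', hR'⟩ := h (R + 1)
    have h1 := (loc_Circ (R + 1 : ℕ) R').compl
    rw [show ((R + 1 : ℕ) - 1 : ℤ) = R by omega] at h1
    have h2 := Pr_indep hw ((loc_Circ 0 R).compl.mono Finset.sdiff_subset) h1 Finset.disjoint_sdiff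
    refine ⟨max R R', (Pr_mono hw (subset_inter (compl_subset_compl.2 (Circ_mono le_rfl
      (show (R : ℤ) ≤ _ by omega))) (compl_subset_compl.2 (Circ_mono
      (show _ ≤ ((R + 1 : ℕ) : ℤ) by omega) (show (R' : ℤ) ≤ _ by omega))))).trans ?_⟩
    rw [h2, Pr_compl hw (loc_Circ (R + 1 : ℕ) R').meas, pow_succ]
    exact mul_le_mul hR (by linarith) (sub_nonneg.2 (Pr_le_one hw _)) ((Pr_nonneg _ _).trans hR)

theorem Stab_likely (hw : Wt w) (h0 : w 0 = 0) (h3 : 0 < w 3) {c : ℝ} (hc : 0 < c)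
    (h1 : ∀ m : ℕ, 1 ≤ m → c ≤ Pr w (ArmW m)) {η : ℝ} (hη : 0 < η) :
    ∃ R : ℕ, 1 - η < Pr w (Stab R) := by
  obtain ⟨c', hc', h⟩ := circuits hw h3 hc h1
  obtain ⟨k, hk⟩ := exists_pow_lt_of_lt_one hη (show 1 - c' < 1 by linarith)
  obtain ⟨R, hR⟩ := Circ_likely hw h k
  refine ⟨R, ?_⟩
  have h2 := Pr_biUnion_le w (sq' R) (fun x => {ω | ∀ y ∈ ({x} : Finset V), ω y = 0}) (c := 0)
    fun x _ => by rw [Pr_const hw, h0]; simp
  have h5 := Pr_compl hw (loc_Stab R).meas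
  have h6 : Pr w (Stab R)ᶜ ≤ (1 - c') ^ k + (sq' R).card * 0 := by
    refine (Pr_mono hw fun ξ hξ => ?_).trans (Pr_union_le hR h2)
    by_contra hh
    simp only [mem_union, mem_compl_iff, not_or, not_not, mem_iUnion, mem_ofPred_eq,
      Finset.mem_singleton, forall_eq, not_exists] at hh
    obtain ⟨⟨S, h7, h8, h9⟩, h10⟩ := hh
    refine hξ ⟨S, h7 _ (by simp [rect]), h8, fun x hx => ?_⟩
    have h11 : (ξ x : ℕ) ≠ 0 := fun h' => h10 x (mem_sq'.2 (h8 hx)) (Fin.ext h')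
    rcases h9 x with h12 | h12 <;> omega
  linarith

end Pool.Agent.Lib.MP_02c850_pr
end

-- part Pool.Agent.Lib.MP_02c850_pr.Sub
section

/-! When arms are rare, a site that never reaches `0` lies in a small stable set. -/

namespace Pool.Agent.Lib.MP_02c850_pr

open Set Filter

variable {w : Fin 4 → ℝ} {S : Set V} {U : Finset V}

def Closed (S : Set V) (U : Finset V) : Prop := ∀ u ∈ U, ∀ v, (u, v) ∈ bdry S → v ∈ U

theorem Closed.flow (hU : Closed S U) {u : V} (hu : u ∈ U) (i : Fin 4) (hi : mv u i ∉ U) :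
    ind S (lf u i) = ind S (nbr (lf u i) i) := by
  have h1 := flow_sum U (fun u i => ind S (lf u i) - ind S (nbr (lf u i) i))
    fun u i => by rw [lf_mv, nbr_nbr]; ring
  rw [Finset.sum_eq_zero fun u _ => by simp [Fin.sum_univ_four, lf, nbr]; ring] at h1
  have h3 : ∀ u ∈ U, ∀ i ∈ Finset.univ,
      (if mv u i ∈ U then 0 else ind S (lf u i) - ind S (nbr (lf u i) i)) ≤ 0 := by
    intro u hu i _
    split_ifs with h
    · exact le_rfl
    · exact ind_le fun h' => h (hU u hu _ (ed_lf u i ▸ h'))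
  have h4 := (Finset.sum_eq_zero_iff_of_nonpos (h3 u hu)).1 ((Finset.sum_eq_zero_iff_of_nonpos
    fun u hu => Finset.sum_nonpos (h3 u hu)).1 h1.symm u hu) i (Finset.mem_univ i)
  rw [if_neg hi] at h4
  omega

/-- winding number of the part of the boundary of `S` through `U` -/
noncomputable def hgt (S : Set V) (U : Finset V) (x : V) : ℤ :=
  ∑ u ∈ U, if u.1 = x.1 ∧ u.2 ≤ x.2 then ind S u - ind S (u.1, u.2 - 1) else 0

theorem hgt_zero {x : V} (h : ∀ u ∈ U, u.1 = x.1 → x.2 < u.2) : hgt S U x = 0 :=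
  Finset.sum_eq_zero fun u hu => if_neg fun h' => by have := h u hu h'.1; omega

theorem hgt_vert (a y : ℤ) : hgt S U (a, y + 1) - hgt S U (a, y) =
    if (a, y + 1) ∈ U then ind S (a, y + 1) - ind S (a, y) else 0 := by
  rw [hgt, hgt, ← Finset.sum_sub_distrib,
    ← Finset.sum_ite_eq' U (a, y + 1) fun _ => ind S (a, y + 1) - ind S (a, y)]
  refine Finset.sum_congr rfl fun u _ => ?_
  by_cases h : u = (a, y + 1)
  · subst h
    simp
  · rw [if_neg h]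
    simp only [Prod.ext_iff] at h ⊢
    split_ifs <;> omega

theorem Closed.horiz (hU : Closed S U) (a y : ℤ) : hgt S U (a + 1, y) - hgt S U (a, y) =
    if (a + 1, y) ∈ U then ind S (a + 1, y) - ind S (a, y) else 0 := by
  obtain ⟨B, hB⟩ := (U.image Prod.snd).bddBelow
  have hB' : ∀ u ∈ U, B ≤ u.2 := fun u hu => hB (Finset.mem_image_of_mem _ hu)
  have h0 : ∀ y < B, hgt S U (a + 1, y) - hgt S U (a, y) =
      if (a + 1, y) ∈ U then ind S (a + 1, y) - ind S (a, y) else 0 := fun y hy => by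
    rw [hgt_zero fun u hu _ => hy.trans_le (hB' u hu), hgt_zero fun u hu _ => hy.trans_le (hB' u hu),
      if_neg fun h => (hy.trans_le (hB' _ h)).false, sub_self]
  rcases lt_or_ge y (B - 1) with h | h
  · exact h0 y (by omega)
  induction y, h using Int.leInduction with
  | base => exact h0 _ (by omega)
  | succ y _ ih =>
    have e1 := hgt_vert (S := S) (U := U) (a + 1) y
    have e2 := hgt_vert (S := S) (U := U) a y
    have e3 := fun h => hU.flow (u := (a + 1, y + 1)) h 2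
    have e4 := fun h => hU.flow (u := (a + 1, y + 1)) h 3
    have e5 := fun h => hU.flow (u := (a, y + 1)) h 0
    have e6 := fun h => hU.flow (u := (a + 1, y)) h 1
    simp only [mv, lf, nbr, add_sub_cancel_right] at e3 e4 e5 e6
    by_cases c1 : (a + 1, y + 1) ∈ U <;> by_cases c2 : (a, y + 1) ∈ U <;>
      by_cases c3 : (a + 1, y) ∈ U <;>
      simp only [c1, c2, c3, if_true, if_false, not_true, not_false_eq_true, forall_true_left,
        IsEmpty.forall_iff] at e1 e2 e3 e4 e5 e6 ih ⊢ <;> omega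

theorem Closed.nbr_eq (hU : Closed S U) {x : V} {i : Fin 4} (hx : x ∈ S) (hi : nbr x i ∈ S) :
    hgt S U (nbr x i) = hgt S U x := by
  obtain ⟨a, y⟩ := x
  have e1 := hgt_vert (S := S) (U := U) a (y - 1)
  have e2 := hU.horiz a y
  have e3 := hgt_vert (S := S) (U := U) a y
  have e4 := hU.horiz (a - 1) y
  rw [sub_add_cancel] at e1 e4
  rcases fin4 i with rfl | rfl | rfl | rfl <;> simp only [nbr] at hi ⊢ <;>
    simp only [ind, hx, hi, if_true, sub_self, ite_self] at e1 e2 e3 e4 <;> omega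

theorem Closed.supp (hU : Closed S U) {B : ℤ} (hB : ∀ u ∈ U, nm (0, 0) u ≤ B) {x : V}
    (hx : x ∉ rect (-B) B (-B) B) : hgt S U x = 0 := by
  obtain ⟨a, y⟩ := x
  simp only [nm] at hB
  by_cases h : y ≤ B
  · refine hgt_zero fun u hu h' => ?_
    have := hB u hu
    simp only [rect, mem_ofPred_eq] at hx h' ⊢
    omega
  have h0 : ∀ a < -B, hgt S U (a, y) = 0 := fun a ha => hgt_zero fun u hu h' => by
    have := hB u hu
    omega
  clear hx
  rcases lt_or_ge a (-B - 1) with h' | h'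
  · exact h0 a (by omega)
  induction a, h' using Int.leInduction with
  | base => exact h0 _ (by omega)
  | succ a _ ih =>
    have e1 := hU.horiz a y
    rw [if_neg fun h' => by have := hB _ h'; omega] at e1
    omega

theorem Closed.row (hU : Closed S U) (i : ℕ) (h : ∀ t : ℤ, 1 ≤ t → t ≤ i → (t, 0) ∈ U) :
    hgt S U (i, 0) - hgt S U (0, 0) = ind S (i, 0) - ind S (0, 0) := by
  induction i with
  | zero => simp
  | succ i ih =>
    have e1 := ih fun t h1 h2 => h t h1 (by omega)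
    have e2 := hU.horiz i 0
    rw [if_pos (h _ (by omega) (by omega))] at e2
    push_cast
    omega

theorem Closed.stab {ξ : Cfg} (hU : Closed (Sinf ξ) U) {B : ℤ} (hB : ∀ u ∈ U, nm (0, 0) u ≤ B)
    (h0 : (0, 0) ∈ Sinf ξ) (h1 : 1 ≤ hgt (Sinf ξ) U (0, 0)) : ξ ∈ Stab B := by
  refine ⟨{x | x ∈ Sinf ξ ∧ 1 ≤ hgt (Sinf ξ) U x}, ⟨h0, h1⟩, fun x hx => ?_, fun x hx =>
    (cnt_le fun i hi => ?_).trans_lt (Sinf_stable hx.1)⟩
  · by_contra h
    have := hx.2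
    rw [hU.supp hB h] at this
    omega
  · rw [mem_bdry] at hi ⊢
    exact ⟨hx.1, fun h => hi.2 ⟨h, (hU.nbr_eq hx.1 h).symm ▸ hx.2⟩⟩

theorem exists_closed (A : Set V) {B : ℤ}
    (h : ∀ a ∈ A, ∀ v, Reach (bdry S) a v → nm (0, 0) v ≤ B) :
    ∃ U : Finset V, Closed S U ∧ ∀ v, v ∈ U ↔ ∃ a ∈ A, Reach (bdry S) a v := by
  classical
  have h1 : ∀ v, v ∈ (sq' B).filter (fun v => ∃ a ∈ A, Reach (bdry S) a v) ↔
      ∃ a ∈ A, Reach (bdry S) a v := fun v => by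
    refine Finset.mem_filter.trans ⟨fun h' => h'.2, fun h' => ⟨?_, h'⟩⟩
    obtain ⟨a, ha, h'⟩ := h'
    have := h a ha v h'
    simp only [mem_sq', rect, mem_ofPred_eq, nm] at this ⊢
    omega
  refine ⟨_, fun u hu v hv => ?_, h1⟩
  obtain ⟨a, ha, h'⟩ := (h1 u).1 hu
  exact (h1 v).2 ⟨a, ha, h'.tail hv⟩

theorem reach_walk {ξ : Cfg} {a v : V} (h : Reach (bdry (Sinf ξ)) a v) :
    ∃ p N, IsW ξ p N ∧ p 0 = a ∧ p N = v := by
  obtain ⟨p, N, h0, hN, hp⟩ := h.walk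
  refine ⟨p, N, ⟨fun i hi => adj_bdry (hp i hi), (adm_Sinf ξ).mono ?_⟩, h0, hN⟩
  rintro _ ⟨i, hi, rfl⟩
  exact hp i hi

/-- no blocking walk that starts near `z` moves far, at the scale `n` -/
def Calm (ξ : Cfg) (z : V) (n : ℤ) : Prop :=
  ∀ p N s t, IsW ξ p N → s ≤ t → t ≤ N → nm z (p s) ≤ 63 * n → nm (p s) (p t) < 3 * n

theorem deep {ξ : Cfg} {z : ℤ} {n : ℕ → ℤ} {k : ℕ} (hn : ∀ j, n (j + 1) = 20 * n j)
    (hn' : ∀ j : ℕ, (j : ℤ) < n j) (h : ∀ j ≥ k, Calm ξ (z, 0) (n j)) {t y : ℤ}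
    (hr : Reach (bdry (Sinf ξ)) (t, 0) (z, y)) : -(3 * n k) < y := by
  by_contra hy
  obtain ⟨p, N, hp, h0, hN⟩ := reach_walk hr
  obtain ⟨j, h1, h2, h3, h4⟩ := exists_last (P := fun j => y ≤ -(3 * n j))
    (Nat.le_add_right k y.natAbs) (not_lt.1 hy)
  have h5 : -(3 * n (j + 1)) < y := by
    rcases h2.eq_or_lt with rfl | h2
    · have := hn' (k + y.natAbs)
      omega
    · exact not_le.1 (h4 (j + 1) (by omega) h2)
  have h6 := hn' j
  obtain ⟨s, -, h7, h8, -⟩ := exists_first_level (f := fun i => -nm (z, y) (p i)) (c := -(3 * n j))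
    (Nat.zero_le N) (by simp only [h0, nm]; omega) (by simp only [hN, nm]; omega)
    fun i _ hi => by have := (hp.adj i hi).symm.nm_le (z, y); omega
  have h9 := h j h1 p N s N hp h7 le_rfl
  rw [hn] at h5
  simp only [hN, nm] at h8 h9
  omega

theorem core {ξ : Cfg} {n : ℕ → ℤ} {k l i : ℕ} (hn : ∀ j, n (j + 1) = 20 * n j)
    (hn' : ∀ j : ℕ, (j : ℤ) < n j) (hξ : ξ ∉ finalZero) (h0 : ∀ j ≥ k, Calm ξ (0, 0) (n j))
    (hs : ∀ y, -(3 * n l) ≤ y → y ≤ 0 → ξ (i, y) = 0) (hi : ∀ j ≥ l, Calm ξ (i, 0) (n j)) :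
    ξ ∈ Stab (6 * n k) := by
  have hS := mem_Sinf hξ
  have near : ∀ j ≥ k, ∀ a v, nm (0, 0) a ≤ 3 * n j → Reach (bdry (Sinf ξ)) a v →
      nm (0, 0) v ≤ 6 * n j := by
    intro j hj a v ha hr
    obtain ⟨p, N, hp, rfl, rfl⟩ := reach_walk hr
    have := hn' j
    have := h0 j hj p N 0 N hp (Nat.zero_le N) le_rfl (by omega)
    simp only [nm] at this ha ⊢
    omega
  obtain ⟨U, hU, hU'⟩ := exists_closed (S := Sinf ξ) {a | 1 ≤ a.1 ∧ a.1 ≤ i ∧ a.2 = 0}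
    (B := 6 * n (k + i)) fun a ha v => near _ (by omega) a v (by
      have := hn' (k + i)
      simp only [nm, mem_ofPred_eq] at ha ⊢
      omega)
  have hD : ∀ {z : ℤ} {k : ℕ}, (∀ j ≥ k, Calm ξ (z, 0) (n j)) → ∀ u ∈ U, u.1 = z →
      -(3 * n k) < u.2 := by
    rintro z k h ⟨_, y⟩ hu rfl
    obtain ⟨⟨t, _⟩, ⟨-, -, rfl⟩, hr⟩ := (hU' _).1 hu
    exact deep hn hn' h hr
  have hz : ∀ y, -(3 * n l) ≤ y → y ≤ 0 → ind (Sinf ξ) (i, y) = 0 := fun y h1 h2 =>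
    if_neg fun h => h 0 (hs y h1 h2)
  have h1 := hU.row i fun t h1 h2 => (hU' _).2 ⟨_, ⟨h1, h2, rfl⟩, .refl⟩
  have h2 : hgt (Sinf ξ) U (i, 0) = 0 := by
    refine Finset.sum_eq_zero fun u hu => ?_
    split_ifs with h
    · have := hD hi u hu h.1
      rw [show u = ((i : ℤ), u.2) from Prod.ext h.1 rfl, hz _ this.le h.2, hz _ (by omega) (by omega),
        sub_self]
    · rfl
  have h3 := hn' l
  rw [h2, hz 0 (by omega) le_rfl, ind, if_pos hS] at h1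
  obtain ⟨U₀, hU₀, hU₀'⟩ := exists_closed (S := Sinf ξ) {a | a ∈ U ∧ a.1 = 0 ∧ a.2 ≤ 0}
    (B := 6 * n k) fun a ha v => near _ le_rfl a v (by
      have := hD h0 a ha.1 ha.2.1
      have := ha.2
      simp only [nm]
      omega)
  refine hU₀.stab (fun u hu => ?_) hS (le_of_eq ?_)
  · obtain ⟨a, ha, hr⟩ := (hU₀' u).1 hu
    refine near _ le_rfl a u ?_ hr
    have := hD h0 a ha.1 ha.2.1
    have := ha.2
    simp only [nm]
    omega
  · rw [show 1 = hgt (Sinf ξ) U (0, 0) by omega, hgt, hgt, ← Finset.sum_filter, ← Finset.sum_filter]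
    refine Finset.sum_congr (Finset.ext fun u => ?_) fun _ _ => rfl
    simp only [Finset.mem_filter]
    refine ⟨fun h => ⟨(hU₀' u).2 ⟨u, h, .refl⟩, h.2⟩, fun h => ⟨?_, h.2⟩⟩
    obtain ⟨a, ha, hr⟩ := (hU₀' u).1 h.1
    obtain ⟨b, hb, hr'⟩ := (hU' a).1 ha.1
    exact (hU' u).2 ⟨b, hb, hr'.trans hr⟩

end Pool.Agent.Lib.MP_02c850_pr
end

-- part Pool.Agent.Lib.MP_02c850_pr.Sub2
section

/-! The approximation by a local event when arms are rare. -/

namespace Pool.Agent.Lib.MP_02c850_pr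

open Set Filter

variable {w : Fin 4 → ℝ}

theorem exists_big (hw : Wt w) {n : ℤ} (hn : 1 ≤ n) (z : V) : ∃ (E : Set Cfg) (Λ : Finset V),
    Loc Λ E ∧ IsUpperSet E ∧ Pr w E ≤ 127 ^ 2 * Pr w (ArmW n) ∧ ∀ ξ ∉ E, Calm ξ z n := by
  classical
  obtain ⟨G, hG, hG'⟩ : ∃ G : Finset V, G.card ≤ (2 * 63 + 1) ^ 2 ∧
      ∀ v ∈ box (0, 0) ((63 : ℕ) * n), ∃ c ∈ G, v ∈ box c n :=
    ⟨_, card_grid n 63, fun _ => exists_grid hn⟩
  refine ⟨⋃ c ∈ G, WW (box (z + c) (2 * n)) (box (z + c) n) (box (z + c) (2 * n - 1))ᶜ,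
    G.biUnion fun c => srect ((z + c).1 - 2 * n) ((z + c).1 + 2 * n) ((z + c).2 - 2 * n)
      ((z + c).2 + 2 * n), loc_biUnion fun c hc => (loc_WW (cor_rect Subset.rfl) _ _).mono
      (Finset.subset_biUnion_of_mem (fun c => srect ((z + c).1 - 2 * n) ((z + c).1 + 2 * n)
        ((z + c).2 - 2 * n) ((z + c).2 + 2 * n)) hc),
    isUpperSet_iUnion₂ fun _ _ => upper_WW _ _ _, ?_, ?_⟩
  · refine (Pr_biUnion_le w G _ (c := Pr w (ArmW n)) fun c _ => ?_).trans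
      (mul_le_mul_of_nonneg_right (by exact_mod_cast hG) (Pr_nonneg _ _))
    refine (Pr_tr hw (-(z + c).1) (-(z + c).2) ?_ ?_ ?_).2 <;>
      simp only [mem_box, mem_compl_iff] <;> intros <;> omega
  · intro ξ hξ p N s t hp hs ht h
    by_contra hh
    obtain ⟨c, hc, h1⟩ := hG' (p s - z) (by
      simp only [mem_box, nm, Prod.fst_sub, Prod.snd_sub] at h ⊢
      omega)
    refine hξ (mem_iUnion₂.2 ⟨c, hc, mem_iUnion.2 ⟨t - s, hp.arm hs ht le_rfl (by omega) ?_ ?_⟩⟩)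
    all_goals
      simp only [mem_box, nm, Prod.fst_sub, Prod.snd_sub, Prod.fst_add, Prod.snd_add] at h1 hh ⊢
      omega

theorem Pr_seed (hw : Wt w) {Λ : Finset V} {E : Set Cfg} (h : Loc Λ E) (hE : IsUpperSet E)
    (T : Finset V) : Pr w ({ω | ∀ x ∈ T, ω x = 0} ∩ E) ≤ w 0 ^ T.card * Pr w E := by
  have h1 : setTo 0 T ⁻¹' E ⊆ E := fun ω hω => hE (fun x => by
    unfold setTo
    split_ifs
    · exact Fin.zero_le _
    · exact le_rfl) hω
  refine le_trans ?_ (mul_le_mul_of_nonneg_left (Pr_mono hw h1) (pow_nonneg (hw.1 0) _))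
  rw [← Pr_const hw, ← Pr_indep hw (loc_const T 0) (h.setTo 0 T) Finset.disjoint_sdiff]
  refine Pr_mono hw fun ω hω => ⟨hω.1, ?_⟩
  have : setTo 0 T ω = ω := funext fun x => by
    unfold setTo
    split_ifs with hx
    · exact (hω.1 x hx).symm
    · rfl
  rw [mem_preimage, this]
  exact hω.2

theorem arm_decay (hw : Wt w) {m : ℕ} (hm : 1 ≤ m) (ha : (61 ^ 2) ^ 2 * Pr w (ArmW m) ≤ 1 / 2)
    (k : ℕ) : (61 ^ 2) ^ 2 * Pr w (ArmW (20 ^ k * m : ℕ)) ≤ (1 / 2) ^ (k + 1) := by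
  induction k with
  | zero => simpa using ha
  | succ k ih =>
    have h1 := boostW hw (n := 20 ^ k * m) (Nat.mul_pos (by positivity) hm)
    have h2 := Pr_nonneg w (ArmW (20 ^ k * m : ℕ))
    have h3 : (1 / 2 : ℝ) ^ (k + 1) ≤ (1 / 2) ^ 1 :=
      pow_le_pow_of_le_one (by norm_num) (by norm_num) (by omega)
    rw [pow_succ' 20, mul_assoc, pow_succ _ (k + 1)]
    calc _ ≤ ((61 ^ 2) ^ 2 * Pr w (ArmW (20 ^ k * m : ℕ))) *
          ((61 ^ 2) ^ 2 * Pr w (ArmW (20 ^ k * m : ℕ))) := by nlinarith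
      _ ≤ _ := mul_le_mul ih (by linarith) (by positivity) (by positivity)

theorem seed_tail (hw : Wt w) {n : ℕ → ℤ} (hn : ∀ j, 1 ≤ n j)
    (ha : ∀ j, Pr w (ArmW (n j)) ≤ (1 / 2) ^ j) (T : Finset V) (z : V) (k : ℕ) :
    ∃ F : Set Cfg, Pr w F ≤ w 0 ^ T.card * (127 ^ 2 * 2 * (1 / 2) ^ k) ∧
      ∀ ξ ∉ F, (∀ x ∈ T, ξ x = 0) → ∀ j ≥ k, Calm ξ z (n j) := by
  choose E Λ h1 h2 h3 h4 using fun j => exists_big hw (hn j) z
  have hs := hasSum_geometric_two.mul_left (w 0 ^ T.card * (127 ^ 2 * (1 / 2) ^ k))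
  refine ⟨⋃ j, {ω | ∀ x ∈ T, ω x = 0} ∩ E (k + j), (Pr_iUnion hw hs.summable fun j => ?_).trans
    (le_of_eq (by rw [hs.tsum_eq]; ring)), fun ξ hξ h j hj => h4 j ξ fun h' => hξ ?_⟩
  · refine (Pr_seed hw (h1 _) (h2 _) T).trans ?_
    have := hw.1 0
    have h5 := ha (k + j)
    rw [mul_assoc, mul_assoc, ← pow_add]
    gcongr
    exact (h3 _).trans (by gcongr)
  · exact mem_iUnion.2 ⟨j - k, h, by rwa [Nat.add_sub_cancel' hj]⟩

theorem sub_bound (hw : Wt w) (h0 : 0 < w 0) {m : ℕ} (hm : 1 ≤ m)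
    (ha : (61 ^ 2) ^ 2 * Pr w (ArmW m) ≤ 1 / 2) (k : ℕ) :
    Pr w finalZeroᶜ ≤ Pr w (Stab (6 * (20 ^ k * m : ℕ))) + 127 ^ 2 * 2 * (1 / 2) ^ k := by
  obtain ⟨n, hn⟩ : ∃ n : ℕ → ℤ, ∀ j, n j = (20 ^ j * m : ℕ) := ⟨_, fun _ => rfl⟩
  have h1 : ∀ j, n (j + 1) = 20 * n j := fun j => by rw [hn, hn]; push_cast; ring
  have h2 : ∀ j : ℕ, (j : ℤ) < n j := fun j => by
    rw [hn]
    exact_mod_cast (Nat.lt_pow_self (by norm_num)).trans_le (Nat.le_mul_of_pos_right _ hm)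
  have h3 : ∀ j, Pr w (ArmW (n j)) ≤ (1 / 2) ^ j := fun j => by
    have e1 := arm_decay hw hm ha j
    have e2 := Pr_nonneg w (ArmW (n j))
    have e3 : (0 : ℝ) ≤ (1 / 2) ^ j := by positivity
    rw [← hn, pow_succ _ j] at e1
    linarith
  have h4 := seed_tail hw (fun j => by have := h2 j; omega) h3
  obtain ⟨F₀, h5, h6⟩ := h4 ∅ (0, 0) k
  rw [Finset.card_empty, pow_zero, one_mul] at h5
  rw [← hn]
  refine le_of_forall_pos_le_add fun η hη => ?_
  obtain ⟨l, hl⟩ := exists_pow_lt_of_lt_one (show 0 < η / 2 / ((2 / η + 1) * (127 ^ 2 * 2)) by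
    positivity) (show (1 / 2 : ℝ) < 1 by norm_num)
  rw [lt_div_iff₀ (by positivity)] at hl
  let T : ℕ → Finset V := fun i => Finset.Icc (i, -(3 * n l)) (i, 0)
  have hT : ∀ i x, x ∈ T i ↔ x.1 = i ∧ -(3 * n l) ≤ x.2 ∧ x.2 ≤ 0 := fun i x => by
    simp only [T, Finset.mem_Icc, Prod.le_def]
    omega
  obtain ⟨d, hd, hd0, hd1⟩ : ∃ d : ℝ, (∀ i, w 0 ^ (T i).card = d) ∧ 0 < d ∧ d ≤ 1 :=
    ⟨w 0 ^ (T 0).card, fun i => by simp [T, Finset.card_Icc_prod], by positivity,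
      pow_le_one₀ h0.le (hw.le_one 0)⟩
  choose F h7 h8 using fun i : ℕ => h4 (T i) (i, 0) l
  obtain ⟨N, hN, hN'⟩ : ∃ N : ℕ, 2 / η ≤ N * d ∧ N * d ≤ 2 / η + 1 := by
    refine ⟨⌈2 / η / d⌉₊, (div_le_iff₀ hd0).1 (Nat.le_ceil _), ?_⟩
    have := (Nat.ceil_lt_add_one (show 0 ≤ 2 / η / d by positivity)).le
    calc _ ≤ (2 / η / d + 1) * d := by gcongr
      _ = 2 / η + d := by field_simp
      _ ≤ _ := by linarith
  have h9 := Pr_biUnion_le w (Finset.range N) F fun i _ => (h7 i).trans_eq (by rw [hd i])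
  have h10 := Pr_biInter hw (Finset.range N) (fun i _ => (loc_const (T i) 0).compl)
    fun i _ j _ hij => Finset.disjoint_left.2 fun x hx hx' => by
      rw [hT] at hx hx'
      omega
  rw [Finset.prod_congr rfl fun i _ => by rw [Pr_compl hw (loc_const _ _).meas, Pr_const hw, hd],
    Finset.prod_const, Finset.card_range] at h10
  rw [Finset.card_range] at h9
  have h11 : (1 - d) ^ N ≤ η / 2 := by
    have e1 := one_add_mul_le_pow (a := d) (by linarith) N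
    have e2 : 0 ≤ (1 - d) ^ N := pow_nonneg (by linarith) _
    have e3 : (1 - d) ^ N * (1 + d) ^ N ≤ 1 := by
      rw [← mul_pow]
      exact pow_le_one₀ (by nlinarith) (by nlinarith)
    have e4 : (1 - d) ^ N * (2 / η) ≤ 1 := le_trans (by gcongr; linarith) e3
    rw [← mul_div_assoc, div_le_iff₀ hη] at e4
    linarith
  have h12 : N * (d * (127 ^ 2 * 2 * (1 / 2) ^ l)) ≤ η / 2 := by
    rw [← mul_assoc]
    exact (mul_le_mul_of_nonneg_right hN' (by positivity)).trans (le_trans (le_of_eq (by ring)) hl.le)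
  refine (Pr_mono hw fun ξ hξ => ?_).trans ((Pr_union_le (Pr_union_le
    (le_refl (Pr w (Stab (6 * n k)))) h5) (Pr_union_le (h9.trans h12) (h10.trans_le h11))).trans
    (by linarith))
  by_contra hh
  simp only [mem_union, not_or, mem_iUnion, mem_iInter, not_exists, not_forall, mem_compl_iff,
    not_not] at hh
  obtain ⟨⟨e1, e2⟩, e3, i, hi, e4⟩ := hh
  exact e1 (core h1 h2 hξ (h6 ξ e2 (by simp)) (fun y hy hy' => e4 _ ((hT i _).2 ⟨rfl, hy, hy'⟩))
    (h8 i ξ (e3 i hi) e4))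

end Pool.Agent.Lib.MP_02c850_pr
end

-- part Pool.Agent.Lib.MP_02c850_pr.Main
section

/-! Locally uniform approximation of the final density by local events. -/

namespace Pool.Agent.Lib.MP_02c850_pr

open Set Filter Topology

theorem final_le {w : Fin 4 → ℝ} (hw : Wt w) (R : ℤ) : Pr w finalZero ≤ 1 - Pr w (Stab R) := by
  rw [← Pr_compl hw (loc_Stab R).meas]
  exact Pr_mono hw (subset_compl_comm.1 (Stab_subset R))

theorem approx {X : Type} [TopologicalSpace X] {W : X → Fin 4 → ℝ} (hW : Continuous W) {z₀ : X}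
    (h0 : W z₀ 0 = 0) (h3 : 0 < W z₀ 3) (hw : ∀ᶠ z in 𝓝 z₀, 0 ≤ W z 0 → Wt (W z)) {η : ℝ}
    (hη : 0 < η) : ∃ c, ∀ᶠ z in 𝓝 z₀, 0 < W z 0 → |Pr (W z) finalZero - c| ≤ η := by
  have hw₀ := hw.self_of_nhds h0.ge
  by_cases h : ∃ m : ℕ, 1 ≤ m ∧ (61 ^ 2) ^ 2 * Pr (W z₀) (ArmW m) < 1 / 2
  · obtain ⟨m, hm, h⟩ := h
    obtain ⟨k, hk⟩ := exists_pow_lt_of_lt_one (show 0 < η / 2 / (127 ^ 2 * 2) by positivity)
      (show (1 / 2 : ℝ) < 1 by norm_num)
    rw [lt_div_iff₀' (by positivity)] at hk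
    obtain ⟨G, hG, hG'⟩ := (loc_ArmW m).continuous
    obtain ⟨H, hH, hH'⟩ := (loc_Stab (6 * (20 ^ k * m : ℕ))).continuous
    rw [hG' _ hw₀] at h
    have e1 : ∀ᶠ z in 𝓝 z₀, (61 ^ 2) ^ 2 * G (W z) < 1 / 2 :=
      ContinuousAt.eventually_lt (by fun_prop) continuousAt_const h
    have e2 : ∀ᶠ z in 𝓝 z₀, |H (W z) - H (W z₀)| < η / 2 :=
      ContinuousAt.eventually_lt (by fun_prop) continuousAt_const (by simpa using hη)
    refine ⟨1 - H (W z₀), ?_⟩
    filter_upwards [hw, e1, e2] with z e3 e4 e5 e6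
    have e7 := e3 e6.le
    have e8 := sub_bound e7 e6 hm (by rw [hG' _ e7]; exact e4.le) k
    have e9 := final_le e7 (6 * (20 ^ k * m : ℕ))
    have e10 := Pr_compl_ge e7 finalZeroᶜ
    rw [compl_compl] at e10
    rw [hH' _ e7] at e8 e9
    rw [abs_lt] at e5
    rw [abs_le]
    constructor <;> linarith
  · push Not at h
    obtain ⟨R, hR⟩ := Stab_likely hw₀ h0 h3 (c := 1 / 2 / (61 ^ 2) ^ 2) (by positivity)
      (fun m hm => (div_le_iff₀' (by positivity)).2 (h m hm)) hη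
    obtain ⟨H, hH, hH'⟩ := (loc_Stab R).continuous
    rw [hH' _ hw₀] at hR
    have e1 : ∀ᶠ z in 𝓝 z₀, 1 - η < H (W z) :=
      ContinuousAt.eventually_lt continuousAt_const (by fun_prop) hR
    refine ⟨0, ?_⟩
    filter_upwards [hw, e1] with z e3 e4 e6
    have e7 := e3 e6.le
    have e9 := final_le e7 R
    rw [hH' _ e7] at e9
    rw [sub_zero, abs_of_nonneg (Pr_nonneg _ _)]
    linarith

theorem approx_final (ℓ : ℕ) {a : ℝ} (ha : 0 < a) {η : ℝ} (hη : 0 < η) :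
    ∃ c, ∀ᶠ z : ℝ × ℝ in 𝓝 (a, 0), 0 < z.2 → |finalProb ℓ z.1 z.2 - c| ≤ η := by
  have hW : Continuous fun z : ℝ × ℝ => mass (z.1 ^ ℓ / (ℓ.factorial : ℝ)) z.2 := by
    refine continuous_pi fun i => ?_
    rcases fin4 i with rfl | rfl | rfl | rfl <;> simp only [mass, Matrix.cons_val] <;> fun_prop
  refine approx hW rfl (Real.exp_pos _) ?_ hη
  have hu : 0 < a ^ ℓ / (ℓ.factorial : ℝ) := by positivity
  have e1 : ∀ᶠ z : ℝ × ℝ in 𝓝 (a, 0), 0 < mass (z.1 ^ ℓ / (ℓ.factorial : ℝ)) z.2 2 := by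
    refine ContinuousAt.eventually_lt continuousAt_const ((continuous_apply 2).comp hW).continuousAt ?_
    have := Real.exp_lt_exp.2 (show -2 * (a ^ ℓ / (ℓ.factorial : ℝ)) < -(a ^ ℓ / ℓ.factorial) by
      linarith)
    simp only [mass, Matrix.cons_val]
    linarith
  filter_upwards [e1] with z e2 e3
  refine ⟨fun i => ?_, ?_⟩
  · rcases fin4 i with rfl | rfl | rfl | rfl
    exacts [e3, sq_nonneg _, e2.le, (Real.exp_pos _).le]
  · rw [Fin.sum_univ_four]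
    simp only [mass, Matrix.cons_val]
    rw [show -2 * (z.1 ^ ℓ / (ℓ.factorial : ℝ)) =
      -(z.1 ^ ℓ / ℓ.factorial) + -(z.1 ^ ℓ / ℓ.factorial) by ring, Real.exp_add]
    ring

theorem limit_continuous {f : ℝ → ℝ → ℝ} (h : ∀ a > 0, ∀ η > 0,
    ∃ c, ∀ᶠ z : ℝ × ℝ in 𝓝 (a, 0), 0 < z.2 → |f z.1 z.2 - c| ≤ η) :
    ∃ φ : ℝ → ℝ, ∀ a > 0, Tendsto (f a) (𝓝[>] 0) (𝓝 (φ a)) ∧ ContinuousAt φ a := by
  have h1 : ∀ a > 0, ∀ η > 0, ∃ c, ∀ᶠ b in 𝓝 a, ∀ᶠ ε in 𝓝[>] 0, |f b ε - c| ≤ η := by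
    intro a ha η hη
    obtain ⟨c, hc⟩ := h a ha η hη
    exact ⟨c, hc.curry_nhds.mono fun b hb => eventually_nhdsWithin_iff.2 hb⟩
  have h2 : ∀ a, ∃ x, 0 < a → Tendsto (f a) (𝓝[>] 0) (𝓝 x) := by
    intro a
    by_cases ha : 0 < a
    · obtain ⟨x, hx⟩ := (cauchy_map_iff_exists_tendsto (l := 𝓝[>] (0 : ℝ)) (f := f a)).1
        (Metric.cauchy_iff.2 ⟨inferInstance, fun η hη => by
          obtain ⟨c, hc⟩ := h1 a ha (η / 3) (by positivity)
          refine ⟨{x | |x - c| ≤ η / 3}, hc.self_of_nhds, fun x hx y hy => ?_⟩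
          simp only [mem_ofPred_eq, abs_le, Real.dist_eq, abs_lt] at hx hy ⊢
          constructor <;> linarith⟩)
      exact ⟨x, fun _ => hx⟩
    · exact ⟨0, fun h => absurd h ha⟩
  choose φ hφ using h2
  refine ⟨φ, fun a ha => ⟨hφ a ha, Metric.continuousAt_iff'.2 fun η hη => ?_⟩⟩
  obtain ⟨c, hc⟩ := h1 a ha (η / 3) (by positivity)
  have h3 : ∀ᶠ b in 𝓝 a, |φ b - c| ≤ η / 3 := by
    filter_upwards [hc, lt_mem_nhds ha] with b hb hb'
    exact le_of_tendsto ((hφ b hb').sub_const c).abs hb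
  have h4 := h3.self_of_nhds
  filter_upwards [h3] with b hb
  simp only [abs_le, Real.dist_eq, abs_lt] at hb h4 ⊢
  constructor <;> linarith

end Pool.Agent.Lib.MP_02c850_pr
end
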