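import Pool.Agent.Lib.MP_02c850_pr.Ext
import Pool.Agent.Lib.MP_02c850_pr.Arm

-- part Pool.Agent.Lib.MP_02c850_pr.Site
section

/-! Short connecting paths that only turn right, and the local count at the surgery sites. -/

namespace Pool.Agent.Lib.MP_02c850_pr

open Set

def st (u w : V) : V :=
  if u.1 ≤ w.1 ∧ u.2 < w.2 then (u.1, u.2 + 1) else if u.1 < w.1 ∧ w.2 ≤ u.2 then (u.1 + 1, u.2)
  else if w.1 ≤ u.1 ∧ w.2 < u.2 then (u.1, u.2 - 1) else (u.1 - 1, u.2)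

def nxt (u w : V) : V :=
  if u.1 ≤ w.1 ∧ u.2 < w.2 then (u.1 - 1, u.2 + 1) else if u.1 < w.1 ∧ w.2 ≤ u.2 then
  (u.1 + 1, u.2 + 1) else if w.1 ≤ u.1 ∧ w.2 < u.2 then (u.1 + 1, u.2 - 1) else (u.1 - 1, u.2 - 1)

def lft (u w : V) : V :=
  if u.1 ≤ w.1 ∧ u.2 < w.2 then (u.1 - 1, u.2) else if u.1 < w.1 ∧ w.2 ≤ u.2 then (u.1, u.2 + 1)
  else if w.1 ≤ u.1 ∧ w.2 < u.2 then (u.1 + 1, u.2) else (u.1, u.2 - 1)

def sig (v w : V) : ℕ → V
  | 0 => v
  | j + 1 => st (sig v w j) w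

theorem st_cases (u w : V) :
    (u.1 ≤ w.1 ∧ u.2 < w.2 ∧ st u w = (u.1, u.2 + 1) ∧ nxt u w = (u.1 - 1, u.2 + 1) ∧
      lft u w = (u.1 - 1, u.2)) ∨
    (u.1 < w.1 ∧ w.2 ≤ u.2 ∧ st u w = (u.1 + 1, u.2) ∧ nxt u w = (u.1 + 1, u.2 + 1) ∧
      lft u w = (u.1, u.2 + 1)) ∨
    (w.1 ≤ u.1 ∧ w.2 < u.2 ∧ st u w = (u.1, u.2 - 1) ∧ nxt u w = (u.1 + 1, u.2 - 1) ∧
      lft u w = (u.1 + 1, u.2)) ∨
    (((w.1 < u.1 ∧ u.2 ≤ w.2) ∨ (u.1 = w.1 ∧ u.2 = w.2)) ∧ st u w = (u.1 - 1, u.2) ∧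
      nxt u w = (u.1 - 1, u.2 - 1) ∧ lft u w = (u.1, u.2 - 1)) := by
  unfold st nxt lft
  split_ifs with h1 h2 h3
  · exact .inl ⟨h1.1, h1.2, rfl, rfl, rfl⟩
  · exact .inr (.inl ⟨h2.1, h2.2, rfl, rfl, rfl⟩)
  · exact .inr (.inr (.inl ⟨h3.1, h3.2, rfl, rfl, rfl⟩))
  · exact .inr (.inr (.inr ⟨by omega, rfl, rfl, rfl⟩))

theorem st_adj (u w : V) : Adj u (st u w) := by
  rcases st_cases u w with h | h | h | h <;> simp [Adj, h]

theorem d1_self (u : V) : d1 u u = 0 := by simp [d1]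

theorem d1_nonneg (u v : V) : 0 ≤ d1 u v := by unfold d1; omega

theorem d1_comm (u v : V) : d1 u v = d1 v u := by unfold d1; omega

theorem d1_tri (u v w : V) : d1 u w ≤ d1 u v + d1 v w := by unfold d1; omega

theorem eq_of_d1 {u v : V} (h : d1 u v = 0) : u = v := by
  unfold d1 at h
  ext <;> omega

theorem Adj.d1 {u v : V} (h : Adj u v) : d1 u v = 1 := by
  unfold MP_02c850_pr.d1
  unfold Adj at h
  omega

theorem st_d1 {u w : V} (h : 0 < d1 u w) : d1 (st u w) w + 1 = d1 u w := by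
  rcases st_cases u w with ⟨g1, g2, g, -⟩ | ⟨g1, g2, g, -⟩ | ⟨g1, g2, g, -⟩ | ⟨g1, g, -⟩ <;>
    simp only [g, d1] at h ⊢ <;> omega

theorem nxt_d1 {u w : V} (h : 0 < d1 u w) : d1 (nxt u w) w = d1 u w := by
  rcases st_cases u w with ⟨g1, g2, -, g, -⟩ | ⟨g1, g2, -, g, -⟩ | ⟨g1, g2, -, g, -⟩ |
    ⟨g1, -, g, -⟩ <;> simp only [g, d1] at h ⊢ <;> omega

theorem st_rect {u w : V} (h : 0 < d1 u w) {a b c d : ℤ} (hu : u ∈ rect a b c d)
    (hw : w ∈ rect a b c d) : st u w ∈ rect a b c d := by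
  rcases st_cases u w with ⟨g1, g2, g, -⟩ | ⟨g1, g2, g, -⟩ | ⟨g1, g2, g, -⟩ | ⟨g1, g, -⟩ <;>
    simp only [g, d1, rect, mem_ofPred_eq] at h hu hw ⊢ <;> omega

theorem sig_d1 {v w : V} {j : ℕ} (hj : (j : ℤ) ≤ d1 v w) : d1 (sig v w j) w = d1 v w - j := by
  induction j with
  | zero => simp [sig]
  | succ j ih =>
    have := ih (by omega)
    have := st_d1 (u := sig v w j) (w := w) (by omega)
    simp only [sig]
    omega

theorem sig_d1' (v w : V) (j : ℕ) : d1 v (sig v w j) ≤ j := by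
  induction j with
  | zero => simp [sig, d1_self]
  | succ j ih =>
    have := (st_adj (sig v w j) w).d1
    have := d1_tri v (sig v w j) (st (sig v w j) w)
    simp only [sig]
    omega

theorem sig_end {v w : V} {r : ℕ} (h : d1 v w = r) : sig v w r = w :=
  eq_of_d1 (by rw [sig_d1 h.ge]; omega)

theorem sig_rect {v w : V} {j : ℕ} (hj : (j : ℤ) ≤ d1 v w) {a b c d : ℤ} (hv : v ∈ rect a b c d)
    (hw : w ∈ rect a b c d) : sig v w j ∈ rect a b c d := by
  induction j with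
  | zero => exact hv
  | succ j ih => exact st_rect (by rw [sig_d1 (by omega)]; omega) (ih (by omega)) hw

theorem sig_adj (v w : V) (j : ℕ) : Adj (sig v w j) (sig v w (j + 1)) := st_adj _ _

theorem st_cases' (u w : V) :
    (u.1 ≤ w.1 ∧ u.2 < w.2 ∧ (st u w).1 = u.1 ∧ (st u w).2 = u.2 + 1) ∨
    (u.1 < w.1 ∧ w.2 ≤ u.2 ∧ (st u w).1 = u.1 + 1 ∧ (st u w).2 = u.2) ∨
    (w.1 ≤ u.1 ∧ w.2 < u.2 ∧ (st u w).1 = u.1 ∧ (st u w).2 = u.2 - 1) ∨
    (((w.1 < u.1 ∧ u.2 ≤ w.2) ∨ (u.1 = w.1 ∧ u.2 = w.2)) ∧ (st u w).1 = u.1 - 1 ∧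
      (st u w).2 = u.2) := by
  rcases st_cases u w with ⟨g1, g2, g, -⟩ | ⟨g1, g2, g, -⟩ | ⟨g1, g2, g, -⟩ | ⟨g1, g, -⟩ <;>
    rw [g]
  · exact .inl ⟨g1, g2, rfl, rfl⟩
  · exact .inr (.inl ⟨g1, g2, rfl, rfl⟩)
  · exact .inr (.inr (.inl ⟨g1, g2, rfl, rfl⟩))
  · exact .inr (.inr (.inr ⟨g1, rfl, rfl⟩))

theorem no_left {x u w : V} {i : Fin 4} (h : ed x i = (u, st u w)) (_ : 0 < d1 u w)
    (h2 : 0 < d1 (st u w) w) : ed x (i + 1) ≠ (st u w, st (st u w) w) := by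
  intro h3
  have h4 := st_cases' (st u w) w
  have h5 := st_cases' u w
  generalize st (st u w) w = z at h3 h4
  generalize st u w = y at h h2 h3 h4 h5
  unfold d1 at h2
  rcases fin4 i with rfl | rfl | rfl | rfl <;>
    simp only [Fin.reduceAdd, ed_zero, ed_one, ed_two, ed_three, Prod.ext_iff] at h h3 <;> omega

theorem no_anti {x u u' w : V} {i : Fin 4} (h : ed x i = (u, st u w)) (_ : 0 < d1 u w)
    (_ : 0 < d1 u' w) : ed x (i + 2) ≠ (u', st u' w) := by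
  intro h3
  have h4 := st_cases' u' w
  have h5 := st_cases' u w
  generalize st u' w = z at h3 h4
  generalize st u w = y at h h5
  rcases fin4 i with rfl | rfl | rfl | rfl <;>
    simp only [Fin.reduceAdd, ed_zero, ed_one, ed_two, ed_three, Prod.ext_iff] at h h3 <;> omega

theorem cor_nxt {x u w : V} {i : Fin 4} (h : ed x i = (u, st u w)) :
    cor x (i + 2) = nxt u w ∧ cor x (i + 3) = lft u w := by
  rcases st_cases u w with g | g | g | g <;> rcases fin4 i with rfl | rfl | rfl | rfl <;>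
    simp [g, cor, Prod.ext_iff] at h ⊢ <;> omega

theorem cor_ne (x : V) (i : Fin 4) : cor x (i + 2) ≠ cor x i := by
  rcases fin4 i with rfl | rfl | rfl | rfl <;> simp [cor, Prod.ext_iff]

theorem f11 (i : Fin 4) : i + 1 + 1 = i + 2 := by revert i; decide
theorem f21 (i : Fin 4) : i + 2 + 1 = i + 3 := by revert i; decide
theorem f31 (i : Fin 4) : i + 3 + 1 = i := by revert i; decide
theorem f12 (i : Fin 4) : i + 1 + 2 = i + 3 := by revert i; decide

variable {p : ℕ → V} {N : ℕ}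

theorem Near.of_d1 {r r' : ℤ} {u v : V} (h : Near p N r u) (h' : r + d1 u v ≤ r') :
    Near p N r' v := by
  obtain ⟨k, hk, h⟩ := h
  exact ⟨k, hk, by have := d1_tri (p k) u v; omega⟩

theorem near_of_mem {v : V} (h : v ∈ Vs p N) : Near p N 0 v := by
  obtain ⟨k, hk, rfl⟩ := h
  exact ⟨k, hk, (d1_self _).le⟩

theorem site_out {F A : Set (V × V)} {v w : V} {r : ℕ} (hr : r ≤ 3) (hvw : d1 v w = r)
    (hv : v ∈ Vs p N) (hmin : ∀ u ∈ Vs p N, r ≤ d1 u w) {x : V} {i : Fin 4} {j : ℕ} (hj : j < r)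
    (hx : ed x i = (sig v w j, sig v w (j + 1)))
    (hF : ∀ k, ed x k ∈ F → ed x k ∈ A ∨ ed x k ∈ edges (sig v w) r ∨
      (r = 3 ∧ ((ed x k).1 = w ∨ ¬ Near p N 3 (ed x k).1) ∧
        ((ed x k).2 = w ∨ ¬ Near p N 3 (ed x k).2)))
    (hA : ∀ e ∈ A, e.1 ∈ Vs p N ∧ e.2 ∈ Vs p N ∧ e.1 ≠ nxt v w) : cnt F x ≤ 2 := by
  have c0 : cor x i = sig v w j := congrArg Prod.fst hx
  have c1 : cor x (i + 1) = sig v w (j + 1) := congrArg Prod.snd hx
  have hd : ∀ k ≤ r, d1 (sig v w k) w = r - k := fun k hk => by rw [sig_d1 (by omega), hvw]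
  have d0 := hd j hj.le
  have d1' := hd (j + 1) hj
  have n0 : Near p N j (cor x i) := (near_of_mem hv).of_d1 (by have := sig_d1' v w j; rw [c0]; omega)
  have a01 := (adj_cor x i).d1
  have a12 := (adj_cor x (i + 1)).d1
  have a30 := (adj_cor x (i + 3)).d1
  rw [f11] at a12
  rw [f31] at a30
  have n1 : Near p N 3 (cor x (i + 1)) := n0.of_d1 (by omega)
  have n3 : Near p N 3 (cor x (i + 3)) := n0.of_d1 (by rw [d1_comm]; omega)
  have h2 : ed x (i + 2) ∉ F := by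
    intro h
    rcases hF _ h with h | ⟨k, hk, h⟩ | ⟨_, _, h⟩
    · obtain ⟨h1, -, h3⟩ := hA _ h
      have h4 := hmin _ h1
      have h5 := d1_tri (cor x (i + 2)) (cor x (i + 1)) w
      rw [d1_comm (cor x (i + 2)) (cor x (i + 1)), c1] at h5
      have h6 : (ed x (i + 2)).1 = cor x (i + 2) := rfl
      rw [c1] at a12
      obtain rfl : j = 0 := by rw [h6] at h4; omega
      exact h3 (cor_nxt hx).1
    · exact no_anti hx (by omega) (by rw [hd k hk.le]; omega) h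
    · have h6 : (ed x (i + 2)).2 = cor x (i + 3) := by rw [← f21]; rfl
      rw [h6] at h
      have h7 := h.resolve_right (not_not.2 n3)
      have h8 : cor x (i + 1) = w := by
        rw [h7, c0, d1_comm] at a30
        rw [c1]
        exact eq_of_d1 (by omega)
      exact cor_ne x (i + 1) (by rw [f12, h7, h8])
  have h1 : ed x (i + 1) ∈ F → j = 2 := by
    intro h
    rcases hF _ h with h | ⟨k, hk, h⟩ | ⟨h0, h, _⟩
    · have h4 := hmin _ (hA _ h).1
      rw [show (ed x (i + 1)).1 = sig v w (j + 1) from c1] at h4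
      omega
    · have h4 : sig v w (j + 1) = sig v w k := c1.symm.trans (congrArg Prod.fst h)
      have h5 := hd k hk.le
      rw [← h4] at h5
      obtain rfl : k = j + 1 := by omega
      exact absurd h (no_left hx (by omega) (by change 0 < d1 (sig v w (j + 1)) w; omega))
    · have h7 : cor x (i + 1) = w := h.resolve_right (not_not.2 n1)
      rw [← c1, h7, d1_self] at d1'
      omega
  have h3 : ed x (i + 3) ∈ F → j = 0 := by
    intro h
    have h6 : (ed x (i + 3)).2 = sig v w j := by rw [← c0]; exact congrArg (cor x) (f31 i)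
    rcases hF _ h with h | ⟨k, hk, h⟩ | ⟨_, _, h⟩
    · have h4 := hmin _ (hA _ h).2.1
      rw [h6] at h4
      omega
    · have h4 : sig v w j = sig v w (k + 1) := h6.symm.trans (congrArg Prod.snd h)
      have h5 := hd (k + 1) hk
      rw [← h4] at h5
      obtain rfl : j = k + 1 := by omega
      have h8 := hd k hk.le
      exact absurd ((congrArg (ed x) (f31 i)).trans hx)
        (no_left h (by omega) (by change 0 < d1 (sig v w (k + 1)) w; omega))
    · rw [h6] at h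
      rcases h with h | h
      · rw [h, d1_self] at d0
        omega
      · exact absurd (n0.of_d1 (by rw [c0, d1_self]; omega)) h
  by_cases h4 : ed x (i + 1) ∈ F
  · exact cnt_le_two ((by decide : ∀ i : Fin 4, i + 2 ≠ i + 3) i) h2
      fun h5 => by have := h1 h4; have := h3 h5; omega
  · exact cnt_le_two ((by decide : ∀ i : Fin 4, i + 2 ≠ i + 1) i) h2 h4

theorem site_in {F A : Set (V × V)} {v w : V} (hvw : d1 w v = 3)
    (hv : v ∈ Vs p N) (hmin : ∀ u ∈ Vs p N, 3 ≤ d1 w u) {x : V} {i : Fin 4} {j : ℕ} (hj : j < 3)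
    (hx : ed x i = (sig w v j, sig w v (j + 1)))
    (hF : ∀ k, ed x k ∈ F → ed x k ∈ A ∨ ed x k ∈ edges (sig w v) 3 ∨
      (((ed x k).1 = w ∨ ¬ Near p N 3 (ed x k).1) ∧ ((ed x k).2 = w ∨ ¬ Near p N 3 (ed x k).2)))
    (hA : ∀ e ∈ A, e.1 ∈ Vs p N ∧ e.2 ∈ Vs p N ∧ e.2 ≠ lft (sig w v 2) v) : cnt F x ≤ 2 := by
  have c0 : cor x i = sig w v j := congrArg Prod.fst hx
  have c1 : cor x (i + 1) = sig w v (j + 1) := congrArg Prod.snd hx
  have hd : ∀ k ≤ 3, d1 (sig w v k) v = 3 - k := fun k hk => by rw [sig_d1 (by omega), hvw]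
  have hd' : ∀ k ≤ 3, d1 w (sig w v k) = k := fun k hk => by
    have := hd k hk
    have := sig_d1' w v k
    have := d1_tri w (sig w v k) v
    omega
  have d0 := hd j hj.le
  have d1' := hd (j + 1) hj
  have e0 := hd' j hj.le
  have e1 := hd' (j + 1) hj
  have n1 : Near p N (2 - j) (cor x (i + 1)) :=
    (near_of_mem hv).of_d1 (by rw [c1, d1_comm]; omega)
  have a01 := (adj_cor x i).d1
  have a12 := (adj_cor x (i + 1)).d1
  have a30 := (adj_cor x (i + 3)).d1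
  rw [f11] at a12
  rw [f31] at a30
  have n0 : Near p N 3 (cor x i) := n1.of_d1 (by rw [d1_comm]; omega)
  have n2 : Near p N 3 (cor x (i + 2)) := n1.of_d1 (by omega)
  have h2 : ed x (i + 2) ∉ F := by
    intro h
    have h6 : (ed x (i + 2)).2 = cor x (i + 3) := by rw [← f21]; rfl
    rcases hF _ h with h | ⟨k, hk, h⟩ | ⟨h, _⟩
    · obtain ⟨-, h1, h3⟩ := hA _ h
      have h4 := hmin _ h1
      have h5 := d1_tri w (cor x i) (cor x (i + 3))
      rw [d1_comm (cor x i) (cor x (i + 3)), a30, c0] at h5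
      obtain rfl : j = 2 := by rw [h6] at h4; omega
      exact h3 (h6.trans (cor_nxt hx).2)
    · exact no_anti hx (by omega) (by rw [hd k hk.le]; omega) h
    · have h7 : cor x (i + 2) = w := h.resolve_right (not_not.2 n2)
      have h8 : cor x i = w := by
        rw [h7, c1, d1_comm] at a12
        rw [c0]
        exact (eq_of_d1 (by omega)).symm
      exact cor_ne x i (by rw [h7, h8])
  have h1 : ed x (i + 1) ∈ F → j = 2 := by
    intro h
    have h6 : (ed x (i + 1)).1 = sig w v (j + 1) := c1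
    rcases hF _ h with h | ⟨k, hk, h⟩ | ⟨h, _⟩
    · have h4 := hmin _ (hA _ h).1
      rw [h6] at h4
      omega
    · have h4 : sig w v (j + 1) = sig w v k := c1.symm.trans (congrArg Prod.fst h)
      have h5 := hd k hk.le
      rw [← h4] at h5
      obtain rfl : k = j + 1 := by omega
      exact absurd h (no_left hx (by omega) (by change 0 < d1 (sig w v (j + 1)) v; omega))
    · rw [h6] at h
      rcases h with h | h
      · rw [h, d1_self] at e1
        omega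
      · exact absurd (n1.of_d1 (by rw [c1, d1_self]; omega)) h
  have h3 : ed x (i + 3) ∈ F → j = 0 := by
    intro h
    have h6 : (ed x (i + 3)).2 = sig w v j := by rw [← c0]; exact congrArg (cor x) (f31 i)
    rcases hF _ h with h | ⟨k, hk, h⟩ | ⟨_, h⟩
    · have h4 := hmin _ (hA _ h).2.1
      rw [h6] at h4
      omega
    · have h4 : sig w v j = sig w v (k + 1) := h6.symm.trans (congrArg Prod.snd h)
      have h5 := hd (k + 1) hk
      rw [← h4] at h5
      obtain rfl : j = k + 1 := by omega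
      have h8 := hd k hk.le
      exact absurd ((congrArg (ed x) (f31 i)).trans hx)
        (no_left h (by omega) (by change 0 < d1 (sig w v (k + 1)) v; omega))
    · rw [h6, ← c0] at h
      have h7 := h.resolve_right (not_not.2 n0)
      rw [← c0, h7, d1_self] at e0
      omega
  by_cases h4 : ed x (i + 1) ∈ F
  · exact cnt_le_two ((by decide : ∀ i : Fin 4, i + 2 ≠ i + 3) i) h2
      fun h5 => by have := h1 h4; have := h3 h5; omega
  · exact cnt_le_two ((by decide : ∀ i : Fin 4, i + 2 ≠ i + 1) i) h2 h4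

/-- a site that is not far and carries an edge of the outer walk carries at most two edges -/
theorem site_mid {F : Set (V × V)} {x : V} (hx : x ∉ Far p N)
    (hF : ∀ k, ed x k ∈ F → ¬ Near p N 2 (ed x k).1 ∧ ¬ Near p N 2 (ed x k).2) : cnt F x ≤ 2 := by
  obtain ⟨i, hi⟩ := not_forall.1 hx
  refine cnt_le_two ((by decide : ∀ i : Fin 4, i ≠ i + 3) i) (fun h => hi (hF _ h).1) fun h => hi ?_
  have := (hF _ h).2
  rwa [show (ed x (i + 3)).2 = cor x i from congrArg (cor x) (f31 i)] at this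

theorem d1_cor (x : V) (i j : Fin 4) : d1 (cor x i) (cor x j) ≤ 2 := by
  rcases fin4 i with rfl | rfl | rfl | rfl <;> rcases fin4 j with rfl | rfl | rfl | rfl <;>
    simp only [cor, d1] <;> omega

/-- an edge of such a site with a far end has its other end at distance three -/
theorem near_three {x : V} (hx : x ∉ Far p N) (k : Fin 4) :
    Near p N 3 (ed x k).1 ∨ Near p N 3 (ed x k).2 := by
  obtain ⟨i, hi⟩ := not_forall.1 hx
  have hi := not_not.1 hi
  have : d1 (cor x i) (cor x k) ≤ 1 ∨ d1 (cor x i) (cor x (k + 1)) ≤ 1 := by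
    rcases fin4 i with rfl | rfl | rfl | rfl <;> rcases fin4 k with rfl | rfl | rfl | rfl <;>
      simp [cor, d1]
  rcases this with h | h
  · exact .inl (hi.of_d1 (by change _ + d1 _ (cor x k) ≤ _; omega))
  · exact .inr (hi.of_d1 (by change _ + d1 _ (cor x (k + 1)) ≤ _; omega))

def sph : List V :=
  [(3, 0), (2, 1), (1, 2), (0, 3), (-1, 2), (-2, 1), (-3, 0), (-2, -1), (-1, -2), (0, -3), (1, -2),
    (2, -1)]

theorem mem_sph {u : V} : u ∈ sph ↔ d1 u 0 = 3 := by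
  refine ⟨fun h => (by decide : ∀ a ∈ sph, d1 a 0 = 3) u h, fun h => ?_⟩
  obtain ⟨a, b⟩ := u
  simp only [d1, Prod.fst_zero, Prod.snd_zero] at h
  have h1 : -3 ≤ a := by omega
  have h2 : a ≤ 3 := by omega
  have h3 : -3 ≤ b := by omega
  have h4 : b ≤ 3 := by omega
  interval_cases a <;> interval_cases b <;> first | decide | exact absurd h (by decide)

theorem cyc {f : V → V} (h1 : ∀ a ∈ sph, f a ∈ sph)
    (h2 : ∀ a ∈ sph, ∀ b ∈ sph, ∃ n < 12, f^[n] a = b) {Q : V → Prop} {a b : V} (ha : a ∈ sph)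
    (hb : b ∈ sph) (qa : Q a) (qb : ¬ Q b) : ∃ c ∈ sph, Q c ∧ ¬ Q (f c) := by
  by_contra hn
  push Not at hn
  have : ∀ n, f^[n] a ∈ sph ∧ Q (f^[n] a) := by
    intro n
    induction n with
    | zero => exact ⟨ha, qa⟩
    | succ n ih =>
      rw [Function.iterate_succ_apply']
      exact ⟨h1 _ ih.1, hn _ ih.1 ih.2⟩
  obtain ⟨n, -, rfl⟩ := h2 a ha b hb
  exact qb (this n).2

theorem st_add (z u w : V) : st (z + u) (z + w) = z + st u w ∧ nxt (z + u) (z + w) = z + nxt u w ∧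
    lft (z + u) (z + w) = z + lft u w := by
  unfold st nxt lft
  simp only [Prod.fst_add, Prod.snd_add, add_le_add_iff_left, add_lt_add_iff_left]
  split_ifs <;> simp [Prod.ext_iff] <;> omega

theorem d1_add (z u : V) : d1 (z + u) z = d1 u 0 := by simp [d1]

theorem sphere_out {Q : V → Prop} {w a b : V} (ha : d1 a w = 3) (hb : d1 b w = 3) (qa : Q a)
    (qb : ¬ Q b) : ∃ v, d1 v w = 3 ∧ Q v ∧ ¬ Q (nxt v w) := by
  obtain ⟨c, hc, h1, h2⟩ := cyc (f := fun u => nxt u 0) (by decide) (by decide)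
    (Q := fun u => Q (w + u)) (a := a - w) (b := b - w)
    (mem_sph.2 (by rw [← d1_add w, add_sub_cancel, ha]))
    (mem_sph.2 (by rw [← d1_add w, add_sub_cancel, hb])) (by simpa) (by simpa)
  refine ⟨w + c, by rw [d1_add, mem_sph.1 hc], h1, ?_⟩
  have := (st_add w c 0).2.1
  rw [add_zero] at this
  rwa [this]

theorem sphere_in {Q : V → Prop} {w a b : V} (ha : d1 a w = 3) (hb : d1 b w = 3) (qa : Q a)
    (qb : ¬ Q b) : ∃ v, d1 v w = 3 ∧ Q v ∧ ¬ Q (lft (sig w v 2) v) := by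
  obtain ⟨c, hc, h1, h2⟩ := cyc (f := fun u => lft (sig 0 u 2) u) (by decide) (by decide)
    (Q := fun u => Q (w + u)) (a := a - w) (b := b - w)
    (mem_sph.2 (by rw [← d1_add w, add_sub_cancel, ha]))
    (mem_sph.2 (by rw [← d1_add w, add_sub_cancel, hb])) (by simpa) (by simpa)
  refine ⟨w + c, by rw [d1_add, mem_sph.1 hc], h1, ?_⟩
  have h3 : sig w (w + c) 2 = w + sig 0 c 2 := by
    simp only [sig]
    rw [← (st_add w _ c).1, ← (st_add w _ c).1, add_zero]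
  rwa [h3, (st_add w _ c).2.2]

end Pool.Agent.Lib.MP_02c850_pr
end

-- part Pool.Agent.Lib.MP_02c850_pr.Glue
section

/-! Gluing two crossing blocking walks in a box. -/

namespace Pool.Agent.Lib.MP_02c850_pr

open Set

variable {W H : ℤ} {I J : Set V} {w : Fin 4 → ℝ}

/-- the edges used between two times -/
def seg (q : ℕ → V) (s t : ℕ) : Set (V × V) := {e | ∃ i, s ≤ i ∧ i < t ∧ e = (q i, q (i + 1))}

theorem seg_subset {q : ℕ → V} {s t M : ℕ} (h : t ≤ M) : seg q s t ⊆ edges q M :=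
  fun _ ⟨i, _, hi, he⟩ => ⟨i, by omega, he⟩

theorem reach_seg (q : ℕ → V) {s t : ℕ} (hs : s ≤ t) : Reach (seg q s t) (q s) (q t) := by
  induction t, hs using Nat.le_induction with
  | base => exact .refl
  | succ t ht ih =>
    have h : seg q s t ⊆ seg q s (t + 1) := fun _ ⟨i, h1, h2, h3⟩ => ⟨i, h1, by omega, h3⟩
    exact (ih.mono h).tail ⟨t, ht, by omega, rfl⟩

theorem edges_mono {p : ℕ → V} {N M : ℕ} (h : N ≤ M) : edges p N ⊆ edges p M :=
  fun _ ⟨i, hi, he⟩ => ⟨i, by omega, he⟩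

theorem IsPot.touch {p : ℕ → V} {N : ℕ} {h : V → ℤ} (hp : IsPot W H p N h) (hW : 1 ≤ W)
    (hH : 1 ≤ H) {q : ℕ → V} {s t : ℕ} (hs : s ≤ t)
    (ha : ∀ i, s ≤ i → i < t → Adj (q i) (q (i + 1))) (hq : ∀ i, s ≤ i → i ≤ t → q i ∈ rect 0 W 0 H)
    (hne : q s ∉ Vs p N → q t ∉ Vs p N → h (cl W H (q s)) ≠ h (cl W H (q t))) :
    ∃ i, s ≤ i ∧ i ≤ t ∧ q i ∈ Vs p N := by
  by_contra hn
  push Not at hn
  exact hne (hn s le_rfl hs) (hn t hs le_rfl)
    (hp.val_walk hW hH hs ha fun i h1 h2 => ⟨hq i h1 h2, hn i h1 h2⟩)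

theorem glueC (hw : Wt w) (hW : 1 ≤ W) (hH : 1 ≤ H) (hI : I ⊆ Bd W H) (hJ : J ⊆ Bd W H)
    (hIJ : ∀ a ∈ I, ∀ b ∈ J, pos W H a ≤ pos W H b) {P P' R₂ : Set V} (hP : P ⊆ Bd W H)
    (hP' : P' ⊆ Bd W H)
    (hl : ∀ v ∈ P, ∀ a ∈ I, ∀ b ∈ J, pos W H v ≤ pos W H a ∨ pos W H b ≤ pos W H v)
    (hr : ∀ v ∈ P', ∀ a ∈ I, ∀ b ∈ J, pos W H a ≤ pos W H v ∧ pos W H v ≤ pos W H b)
    (hR : R₂ ⊆ rect 0 W 0 H) :
    Pr w (WW (rect 0 W 0 H) I J) * Pr w (WW R₂ P P') ≤ Pr w (WW (rect 0 W 0 H) I P') := by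
  refine ext_free hw hW hH hI hJ hIJ (loc_WW (cor_rect hR) _ _) (upper_WW _ _ _)
    fun ξ hξ S p N h he => ?_
  obtain ⟨q, M, hq, q0, qM, hqR⟩ := mem_WW.1 hξ
  have hM : q M ∉ Vs p N → h (cl W H (q M)) = 0 := fun hn =>
    he.pot.val_right hW hH (hJ he.memN) (hP' qM) hn (hr _ qM _ he.mem0 _ he.memN).1
      (hr _ qM _ he.mem0 _ he.memN).2
  obtain ⟨s, -, hs, hsV⟩ := he.pot.touch hW hH (Nat.zero_le M) (fun i _ hi => hq.adj i hi)
    (fun i _ hi => hR (hqR i hi)) fun h1 h2 => by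
      rw [hM h2, he.pot.val_left hW hH (hI he.mem0) (hP q0) h1 (hl _ q0 _ he.mem0 _ he.memN)]
      omega
  obtain ⟨t, -, ht, ⟨k, hk, hkt⟩, hlast⟩ := exists_last (P := fun i => q i ∈ Vs p N) hs hsV
  refine mem_WW_of_reach (F := edges p N ∪ seg q t M) (fun x => ?_) ?_ (a := p 0) (b := q M) ?_
    he.mem0 qM (he.box 0 (Nat.zero_le _)) ?_
  · by_cases hx : ∃ i, ed x i ∈ seg q t M
    · obtain ⟨i, j, h1, h2, hj⟩ := hx
      have h3 : h x = 0 := by
        rw [he.pot.val hW hH (hR (hqR (j + 1) h2)) (hlast _ (by omega) h2) (congrArg Prod.snd hj)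
          (EB_left (x := x) (i := i) (hj ▸ ⟨hR (hqR j h2.le), hR (hqR (j + 1) h2)⟩)),
          he.pot.val_walk hW hH (q := q) (s := j + 1) (t := M) h2 (fun i _ hi => hq.adj i hi)
            fun i h4 h5 => ⟨hR (hqR i h5), hlast i (by omega) h5⟩]
        exact hM (hlast M (by omega) le_rfl)
      refine adm_at hq.adm le_rfl fun i hi => seg_subset le_rfl (hi.resolve_left fun h4 => ?_)
      have := he.left x i h4
      omega
    · exact adm_at he.isW.adm le_rfl fun i hi => hi.resolve_right fun h4 => hx ⟨i, h4⟩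
  · rintro _ (⟨i, hi, rfl⟩ | ⟨i, _, hi, rfl⟩)
    · exact he.isW.adj i hi
    · exact hq.adj i hi
  · refine ((reach_edges p (Nat.zero_le k) hk).mono subset_union_left).trans ?_
    rw [hkt]
    exact (reach_seg q ht).mono subset_union_right
  · rintro _ (⟨i, hi, rfl⟩ | ⟨i, _, hi, rfl⟩)
    · exact he.box _ hi
    · exact hR (hqR _ hi)

/-- the sites touching a vertex -/
def tch (u : V) : Finset V := Finset.univ.image (lf u)

theorem mem_tch {u x : V} : x ∈ tch u ↔ ∃ i, cor x i = u := by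
  simp only [tch, Finset.mem_image, Finset.mem_univ, true_and]
  refine exists_congr fun i => ?_
  rcases fin4 i with rfl | rfl | rfl | rfl <;> simp only [lf, cor, Prod.ext_iff] <;> omega

theorem card_tch (u : V) : (tch u).card ≤ 4 := Finset.card_image_le.trans (by simp)

theorem mem_srect_of (hW : 1 ≤ W) (hH : 1 ≤ H) {x : V} (h : Inn W H x ∨ Out W H x) :
    x ∈ srect 0 W 0 H := by
  rw [mem_srect]
  simp only [Inn, Out] at h
  omega

theorem glueA (hw : Wt w) (hW : 1 ≤ W) (hH : 1 ≤ H) (hI : I ⊆ Bd W H) (hJ : J ⊆ Bd W H)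
    (hIJ : ∀ a ∈ I, ∀ b ∈ J, pos W H a ≤ pos W H b) {x0 y0 : ℤ} (hy0 : 1 ≤ y0) (hy : y0 ≤ H)
    (hIY : ∀ a ∈ I, a ∉ Yq x0 y0) {P P' R₂ R : Set V} (hP : P ⊆ Bd W H) (hP' : P' ⊆ Bd W H)
    (hr : ∀ v ∈ P, ∀ a ∈ I, ∀ b ∈ J, pos W H a ≤ pos W H v ∧ pos W H v ≤ pos W H b)
    (hl : ∀ v ∈ P', ∀ a ∈ I, ∀ b ∈ J, pos W H v ≤ pos W H a ∨ pos W H b ≤ pos W H v)
    (hR₂ : R₂ ⊆ rect 0 W 0 H) (hR : R ⊆ rect 0 W 0 H)
    (hR' : ∀ v ∈ rect 0 W 0 H, (v ∉ Yq (x0 - 1) y0 ∨ ∃ u ∈ R₂, d1 v u ≤ 3) → v ∈ R) :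
    w 3 ^ 12 * (Pr w (WW (rect 0 W 0 H \ Yq x0 y0) I J) * Pr w (WW R₂ P P')) ≤
      Pr w (WW R I P') := by
  classical
  refine ext_surgery hw hW hH hI hJ hIJ hy0 hy hIY (loc_WW (cor_rect hR₂) _ _) (upper_WW _ _ _)
    (loc_WW (cor_rect hR) _ _) 12 fun ξ hξ S p N h he => ?_
  obtain ⟨q, M, hq, q0, qM, hqR⟩ := mem_WW.1 hξ
  have hM : q M ∉ Vs p N → h (cl W H (q M)) = 1 := fun hn =>
    he.pot.val_left hW hH (hI he.mem0) (hP' qM) hn (hl _ qM _ he.mem0 _ he.memN)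
  obtain ⟨s, -, hs, hsV⟩ := he.pot.touch hW hH (Nat.zero_le M) (fun i _ hi => hq.adj i hi)
    (fun i _ hi => hR₂ (hqR i hi)) fun h1 h2 => by
      rw [hM h2, he.pot.val_right hW hH (hJ he.memN) (hP q0) h1 (hr _ q0 _ he.mem0 _ he.memN).1
        (hr _ q0 _ he.mem0 _ he.memN).2]
      omega
  obtain ⟨t, -, ht, hnear, hlast⟩ := exists_last (P := fun i => Near p N 3 (q i)) hs
    ((near_of_mem hsV).of_d1 (by rw [d1_self]; omega))
  have hex : ∃ r : ℕ, Near p N r (q t) := ⟨3, hnear⟩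
  obtain ⟨r, hr3, hrN, hmin⟩ : ∃ r : ℕ, r ≤ 3 ∧ Near p N r (q t) ∧
      ∀ u ∈ Vs p N, (r : ℤ) ≤ d1 u (q t) := by
    refine ⟨Nat.find hex, Nat.find_min' hex hnear, Nat.find_spec hex, ?_⟩
    rintro _ ⟨k, hk, rfl⟩
    have h1 := d1_nonneg (p k) (q t)
    have h2 := Nat.find_min' hex (m := (d1 (p k) (q t)).toNat) ⟨k, hk, by omega⟩
    omega
  obtain ⟨k0, hk0, hk0'⟩ := hrN
  obtain ⟨k, -, hk, hkd, hfirst⟩ := exists_first (P := fun k => d1 (p k) (q t) ≤ r)
    (Nat.zero_le k0) hk0'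
  have hkN : k ≤ N := hk.trans hk0
  have hv : p k ∈ Vs p N := ⟨k, hkN, rfl⟩
  have hvw : d1 (p k) (q t) = r := le_antisymm hkd (hmin _ hv)
  have hr3' : t < M → r = 3 := fun htM => by
    by_contra hne
    exact hlast (t + 1) (by omega) htM (Near.of_d1 (r := r) ⟨k, hkN, hkd⟩
      (by have := (hq.adj t htM).d1; omega))
  have hnV : ∀ {u}, ¬ Near p N 3 u → u ∉ Vs p N := fun h1 h2 =>
    h1 ((near_of_mem h2).of_d1 (by rw [d1_self]; omega))
  have hσR : ∀ j ≤ r, sig (p k) (q t) j ∈ rect 0 W 0 H := fun j hj =>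
    sig_rect (by omega) (he.box k hkN) (hR₂ (hqR t ht))
  have hσd : ∀ j ≤ r, d1 (sig (p k) (q t) j) (q t) = r - j := fun j hj => by
    rw [sig_d1 (by omega), hvw]
  have hσV : ∀ j, 1 ≤ j → j ≤ r → sig (p k) (q t) j ∉ Vs p N := fun j h1 h2 h3 => by
    have := hmin _ h3
    have := hσd j h2
    omega
  have hval : ∀ j, 1 ≤ j → j ≤ r → h (cl W H (sig (p k) (q t) j)) = 1 := by
    intro j h1 h2
    have h3 : q t ∉ Vs p N := sig_end hvw ▸ hσV r (by omega) le_rfl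
    have h4 : ∀ i, t ≤ i → i ≤ M → q i ∉ Vs p N := fun i h5 h6 => by
      rcases h5.eq_or_lt with rfl | h5
      · exact h3
      · exact hnV (hlast i h5 h6)
    rw [he.pot.val_walk hW hH h2 (fun i _ _ => sig_adj _ _ i)
      fun i h5 h6 => ⟨hσR i h6, hσV i (by omega) h6⟩, sig_end hvw,
      he.pot.val_walk hW hH ht (fun i _ hi => hq.adj i hi)
        fun i h5 h6 => ⟨hR₂ (hqR i h6), h4 i h5 h6⟩]
    exact hM (h4 M ht le_rfl)
  let T := ((Finset.range r).biUnion fun j => tch (sig (p k) (q t) (j + 1))).filter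
    fun x => (Inn W H x ∨ Out W H x) ∧ x ∉ Far p N
  have hT : ∀ x, x ∈ T ↔ (∃ j < r, ∃ i, cor x i = sig (p k) (q t) (j + 1)) ∧
      (Inn W H x ∨ Out W H x) ∧ x ∉ Far p N := by
    intro x
    simp only [T, Finset.mem_filter, Finset.mem_biUnion, Finset.mem_range, mem_tch]
  refine ⟨T, fun x hx => mem_srect_of hW hH ((hT x).1 hx).2.1, ?_, fun x hx => ?_,
    fun ξ' hfar hadm h3 => ?_⟩
  · refine (Finset.card_filter_le _ _).trans ((Finset.card_biUnion_le_card_mul _ _ 4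
      fun j _ => card_tch _).trans ?_)
    rw [Finset.card_range]
    omega
  · obtain ⟨⟨j, hj, i, hi⟩, h1, h2⟩ := (hT x).1 hx
    refine ⟨he.up x ?_, h2⟩
    rw [he.pot.val hW hH (hσR _ hj) (hσV _ (by omega) hj) hi h1, hval _ (by omega) hj]
  have hC : ∀ e ∈ seg q t M, r = 3 ∧ (e.1 = q t ∨ ¬ Near p N 3 e.1) ∧ ¬ Near p N 3 e.2 := by
    rintro _ ⟨i, h1, h2, rfl⟩
    refine ⟨hr3' (by omega), ?_, hlast _ (by omega) h2⟩
    rcases h1.eq_or_lt with rfl | h1
    · exact .inl rfl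
    · exact .inr (hlast _ h1 h2.le)
  refine mem_WW_of_reach (F := edges p k ∪ edges (sig (p k) (q t)) r ∪ seg q t M) (fun x => ?_) ?_
    (a := p 0) (b := q M) ?_ he.mem0 qM
    (hR' _ (he.box 0 (Nat.zero_le _)) (.inl (he.avoid 0 (Nat.zero_le _)))) ?_
  · by_cases hB : ∃ i, ed x i ∈ edges (sig (p k) (q t)) r
    · obtain ⟨i, j, hj, hx⟩ := hB
      have hxT : x ∈ T := (hT x).2 ⟨⟨j, hj, i + 1, congrArg Prod.snd hx⟩,
        EB_left (x := x) (i := i) (hx ▸ ⟨hσR j hj.le, hσR _ hj⟩), fun hf => hf i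
          ((near_of_mem hv).of_d1 (by
            have := sig_d1' (p k) (q t) j
            rw [show cor x i = sig (p k) (q t) j from congrArg Prod.fst hx]
            omega))⟩
      have := site_out (F := edges p k ∪ edges (sig (p k) (q t)) r ∪ seg q t M) (A := edges p k)
        hr3 hvw hv hmin hj hx
        (fun l hl => by
          rcases hl with (hl | hl) | hl
          · exact .inl hl
          · exact .inr (.inl hl)
          · exact .inr (.inr ⟨(hC _ hl).1, (hC _ hl).2.1, .inr (hC _ hl).2.2⟩))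
        (by
          rintro _ ⟨l, hl, rfl⟩
          refine ⟨⟨l, by omega, rfl⟩, ⟨l + 1, by omega, rfl⟩, fun h4 => hfirst l (Nat.zero_le _) hl ?_⟩
          rw [show p l = nxt (p k) (q t) from h4, nxt_d1 (by omega), hvw])
      right
      rw [h3 x hxT]
      exact Nat.lt_succ_of_le this
    by_cases hCx : ∃ i, ed x i ∈ seg q t M
    · obtain ⟨i, hi⟩ := hCx
      have hF : ∀ l, ed x l ∈ edges p k ∪ edges (sig (p k) (q t)) r ∪ seg q t M →
          ed x l ∈ seg q t M := by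
        rintro l ((hl | hl) | hl)
        · exact absurd ((near_of_mem (Vs_of_edges (edges_mono hkN hl)).1).of_d1
            (by have := d1_cor x l (i + 1); change _ + d1 (cor x l) (cor x (i + 1)) ≤ _; omega))
            (hC _ hi).2.2
        · exact absurd ⟨l, hl⟩ hB
        · exact hl
      by_cases hf : x ∈ Far p N
      · exact adm_at hq.adm (hfar x hf).ge fun l hl => seg_subset le_rfl (hF l hl)
      · obtain ⟨h4, h5, h6⟩ := hC _ hi
        have h7 : (ed x i).1 = q t :=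
          h5.resolve_right (not_not.2 ((near_three hf i).resolve_right h6))
        have hxT : x ∈ T := by
          obtain ⟨l, _, hl, hx⟩ := hi
          refine (hT x).2 ⟨⟨2, by omega, i, ?_⟩,
            EB_left (x := x) (i := i) (hx ▸ ⟨hR₂ (hqR l hl.le), hR₂ (hqR _ hl)⟩), hf⟩
          rw [show 2 + 1 = r by omega, sig_end hvw]
          exact h7
        have hn2 : ∀ {u}, u = q t ∨ ¬ Near p N 3 u → ¬ Near p N 2 u := by
          rintro u (rfl | hu) hn
          · obtain ⟨l, hl, hd⟩ := hn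
            have := hmin _ ⟨l, hl, rfl⟩
            omega
          · exact hu (hn.of_d1 (by rw [d1_self]; omega))
        have := site_mid (F := edges p k ∪ edges (sig (p k) (q t)) r ∪ seg q t M) hf
          fun l hl => ⟨hn2 (hC _ (hF l hl)).2.1, hn2 (.inr (hC _ (hF l hl)).2.2)⟩
        right
        rw [h3 x hxT]
        exact Nat.lt_succ_of_le this
    · refine adm_at hadm le_rfl ?_
      rintro l ((hl | hl) | hl)
      · exact edges_mono hkN hl
      · exact absurd ⟨l, hl⟩ hB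
      · exact absurd ⟨l, hl⟩ hCx
  · rintro _ ((⟨i, hi, rfl⟩ | ⟨i, hi, rfl⟩) | ⟨i, _, hi, rfl⟩)
    · exact he.isW.adj i (by omega)
    · exact sig_adj _ _ i
    · exact hq.adj i hi
  · refine ((reach_edges p (Nat.zero_le k) le_rfl).mono
      (subset_union_left.trans subset_union_left)).trans (.trans (b := q t) ?_
        ((reach_seg q ht).mono subset_union_right))
    have := (reach_edges (sig (p k) (q t)) (Nat.zero_le r) le_rfl).mono
      (G := edges p k ∪ edges (sig (p k) (q t)) r ∪ seg q t M)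
      (subset_union_right.trans subset_union_left)
    rwa [sig_end hvw] at this
  · rintro _ ((⟨i, hi, rfl⟩ | ⟨i, hi, rfl⟩) | ⟨i, _, hi, rfl⟩)
    · exact hR' _ (he.box _ (by omega)) (.inl (he.avoid _ (by omega)))
    · exact hR' _ (hσR _ hi) (.inr ⟨_, hqR t ht, by have := hσd (i + 1) hi; dsimp only; omega⟩)
    · exact hR' _ (hR₂ (hqR _ hi)) (.inr ⟨_, hqR _ hi, by rw [d1_self]; omega⟩)

end Pool.Agent.Lib.MP_02c850_pr
end

-- part Pool.Agent.Lib.MP_02c850_pr.Close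
section

/-! Closing two L-shaped blocking walks into a protecting circuit. -/

namespace Pool.Agent.Lib.MP_02c850_pr

open Set

variable {w : Fin 4 → ℝ}

/-- a finite set with admissible boundary inside the box that contains the central square -/
def Circ0 (G r : ℤ) : Set Cfg :=
  {ξ | ∃ S : Set V, (∀ x ∈ S, Inn G G x) ∧
    (∀ x : V, r ≤ x.1 → x.1 ≤ G - r → r ≤ x.2 → x.2 ≤ G - r → x ∈ S) ∧ Adm ξ (bdry S)}

theorem loc_Circ0 (G r : ℤ) : Loc (srect 0 G 0 G) (Circ0 G r) := by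
  rintro ω ω' hh ⟨S, h1, h2, h3⟩
  refine ⟨S, h1, h2, h3.congr fun x i hx => (hh x ?_).le⟩
  have := h1 x (mem_bdry.1 hx).1
  rw [mem_srect]
  simp only [Inn] at this
  omega

theorem pot_out {G : ℤ} {p : ℕ → V} {N : ℕ} (h : ∀ i < N, Adj (p i) (p (i + 1)))
    (hB : ∀ i ≤ N, p i ∈ rect 0 G 0 G) {x : V} (hx : ¬ Inn G G x) :
    pot p N x = (if G ≤ x.2 ∧ x.1 < (p N).1 then 1 else 0) -
      if G ≤ x.2 ∧ x.1 < (p 0).1 then 1 else 0 := by
  by_cases hx2 : G ≤ x.2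
  · rw [pot_full h fun k hk _ => (hB k hk).2.2.2.trans hx2]
    simp [hx2]
  · simp only [hx2, false_and, if_false, sub_self]
    by_cases hx1 : G ≤ x.1
    · refine pot_zero' h fun k hk h => ?_
      have := (hB k hk).2.1
      omega
    · refine pot_zero h fun k hk h => ?_
      have := hB k hk
      simp only [rect, mem_ofPred_eq, Inn] at this hx
      omega

theorem cor_fst (x : V) (i : Fin 4) : x.1 ≤ (cor x i).1 ∧ (cor x i).1 ≤ x.1 + 1 := by
  rcases fin4 i with rfl | rfl | rfl | rfl <;> simp [cor]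

theorem d1_fst (u v : V) : u.1 - v.1 ≤ d1 u v ∧ v.1 - u.1 ≤ d1 u v ∧ u.2 - v.2 ≤ d1 u v ∧
    v.2 - u.2 ≤ d1 u v := by
  unfold d1
  omega

theorem exists_sphere {q : ℕ → V} {s t : ℕ} (hs : s ≤ t) {z : V}
    (ha : ∀ i, s ≤ i → i < t → Adj (q i) (q (i + 1)))
    (h : (d1 (q s) z ≤ 3 ∧ 3 ≤ d1 (q t) z) ∨ (d1 (q t) z ≤ 3 ∧ 3 ≤ d1 (q s) z)) :
    ∃ i, s ≤ i ∧ i ≤ t ∧ d1 (q i) z = 3 := by
  rcases h with h | h
  · obtain ⟨m, h1, h2, h3, -⟩ := exists_first_level (f := fun i => d1 (q i) z) hs h.1 h.2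
      fun k h1 h2 => by
        have := (ha k h1 h2).symm.d1
        have := d1_tri (q (k + 1)) (q k) z
        omega
    exact ⟨m, h1, h2, h3⟩
  · obtain ⟨m, h1, h2, h3, -⟩ := exists_first_level (f := fun i => -d1 (q i) z) (c := -3) hs
      (by omega) (by omega) fun k h1 h2 => by
        have := (ha k h1 h2).d1
        have := d1_tri (q k) (q (k + 1)) z
        omega
    exact ⟨m, h1, h2, by omega⟩

/-- the part of the second walk between its last visit near the upper right corner and its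
first visit near the lower left corner -/
theorem close_middle {G r : ℤ} (hr : 1 ≤ r) (hG : 2 * r + 20 ≤ G) {I J : Set V}
    (hI : I ⊆ Bd G G) (hJ : J ⊆ Bd G G) (hI' : ∀ a ∈ I, a.1 = 0) (hJ' : ∀ b ∈ J, b.2 = G ∧ 0 < b.1)
    {ξ : Cfg} {S : Set V} {p : ℕ → V} {N : ℕ} {h : V → ℤ}
    (he : Extr G G I J (G - r) r ξ S p N h) {q : ℕ → V} {M : ℕ} (hq : IsW ξ q M)
    (q0 : (q 0).1 = G) (qM : (q M).2 = 0 ∧ (q M).1 < r)
    (hqR : ∀ i ≤ M, q i ∈ rect 0 G 0 G ∧ ((q i).1 < r ∨ G - r < (q i).2)) :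
    ∃ t t', t + 1 < t' ∧ t' ≤ M ∧ Near p N 3 (q t) ∧ Near p N 3 (q t') ∧
      (∀ i, t < i → i < t' → ¬ Near p N 3 (q i)) ∧ G - r - 4 ≤ (q t).1 ∧ (q t').1 < r ∧
      (∀ i, t ≤ i → i ≤ t' → q i ∉ Vs p N ∧ h (cl G G (q i)) = 1) := by
  have hW : 1 ≤ G := by omega
  have hnear : ∀ i ≤ M, Near p N 3 (q i) → r ≤ (q i).1 → G - r - 4 ≤ (q i).1 := by
    rintro i hi ⟨k, hk, hd⟩ h1
    have h2 := he.avoid k hk
    have h3 := (hqR i hi).2
    have h4 := d1_fst (p k) (q i)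
    simp only [Yq, mem_ofPred_eq] at h2
    omega
  have hnV : ∀ {u}, ¬ Near p N 3 u → u ∉ Vs p N := fun h1 h2 =>
    h1 ((near_of_mem h2).of_d1 (by rw [d1_self]; omega))
  have hdeep : ∀ i ≤ M, (q i).1 = r → h (cl G G (q i)) = 1 := by
    intro i hi h1
    have h3 := hqR i hi
    simp only [rect, mem_ofPred_eq] at h3
    refine he.pot.quad hW (hI he.mem0) (hJ he.memN) (by omega) he.avoid (.inl ?_) ?_ ?_ ?_ <;>
      simp only [cl, Inn] <;> omega
  have hstep : ∀ k < M, -(q (k + 1)).1 ≤ -(q k).1 + 1 := fun k hk => by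
    have := hq.adj k hk
    unfold Adj at this
    omega
  have hright : ∀ v ∈ Bd G G, (v.1 = G ∨ v.2 = 0) → v ∉ Vs p N → h (cl G G v) = 0 := by
    intro v hv h1 h2
    have h3 := hI he.mem0
    have h4 := hJ he.memN
    have h5 := hI' _ he.mem0
    have h6 := hJ' _ he.memN
    refine he.pot.val_right hW hW h4 hv h2 ?_ ?_ <;>
      simp only [Bd, mem_ofPred_eq, pos] at h3 h4 hv ⊢ <;> split_ifs <;> omega
  obtain ⟨m, -, hm, hm1, hm2⟩ := exists_first_level (f := fun i => -(q i).1) (c := -r)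
    (Nat.zero_le M) (by omega) (by omega) fun k _ hk => hstep k hk
  obtain ⟨s, -, hs, hsV⟩ := he.pot.touch hW hW (Nat.zero_le m) (fun i _ hi => hq.adj i (by omega))
    (fun i _ hi => (hqR i (by omega)).1) fun h1 _ => by
      rw [hdeep m hm (by omega), hright _ ⟨(hqR 0 (Nat.zero_le _)).1, .inr (.inl q0)⟩ (.inl q0) h1]
      omega
  obtain ⟨t, -, ht, ⟨ht1, ht2⟩, hlast⟩ := exists_last (P := fun i => Near p N 3 (q i) ∧ r ≤ (q i).1)
    (hs.trans hm) ⟨(near_of_mem hsV).of_d1 (by rw [d1_self]; omega), by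
      rcases hs.eq_or_lt with rfl | hs
      · omega
      · have := hm2 s (Nat.zero_le _) hs
        omega⟩
  have ht3 := hnear t ht ht1 ht2
  obtain ⟨m', hm', hm'M, hm1', hm2'⟩ := exists_first_level (f := fun i => -(q i).1) (c := -r)
    ht (by omega) (by omega) fun k _ hk => hstep k hk
  have hm3 : ∀ i, t < i → i ≤ m' → ¬ Near p N 3 (q i) := fun i h1 h2 h3 =>
    hlast i h1 (by omega) ⟨h3, by
      rcases h2.eq_or_lt with rfl | h2
      · omega
      · have := hm2' i h1.le h2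
        omega⟩
  have htm : t < m' := by
    rcases hm'.eq_or_lt with rfl | h1
    · omega
    · exact h1
  obtain ⟨s', hs', hs'M, hsV'⟩ := he.pot.touch hW hW hm'M (fun i _ hi => hq.adj i hi)
    (fun i _ hi => (hqR i hi).1) fun _ h1 => by
      rw [hdeep m' hm'M (by omega),
        hright _ ⟨(hqR M le_rfl).1, .inr (.inr (.inl qM.1))⟩ (.inr qM.1) h1]
      omega
  obtain ⟨t', h1, h2, h3, h4⟩ := exists_first (P := fun i => Near p N 3 (q i))
    (show t + 1 ≤ s' by omega) ((near_of_mem hsV').of_d1 (by rw [d1_self]; omega))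
  have h5 : m' < t' := by
    by_contra h5
    exact hm3 t' h1 (by omega) h3
  have h6 : ∀ i, t ≤ i → i ≤ t' → q i ∉ Vs p N := by
    intro i h7 h8 h9
    rcases h7.eq_or_lt with rfl | h7
    · exact h4 (t + 1) le_rfl (by omega) ((near_of_mem h9).of_d1
        (by have := (hq.adj t (by omega)).d1; omega))
    rcases h8.eq_or_lt with rfl | h8
    · obtain ⟨j, rfl⟩ : ∃ j, i = j + 1 := ⟨i - 1, by omega⟩
      exact h4 j (by omega) (by omega) ((near_of_mem h9).of_d1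
        (by have := (hq.adj j (by omega)).symm.d1; omega))
    · exact hnV (h4 i h7 h8) h9
  refine ⟨t, t', by omega, by omega, ht1, h3, fun i h7 h8 => h4 i h7 h8, ht3, ?_,
    fun i h7 h8 => ⟨h6 i h7 h8, ?_⟩⟩
  · by_contra h7
    exact hlast t' (by omega) (by omega) ⟨h3, by omega⟩
  · rw [← hdeep m' hm'M (by omega)]
    rcases le_total i m' with h9 | h9
    · exact he.pot.val_walk hW hW h9 (fun j _ hj => hq.adj j (by omega))
        fun j h10 h11 => ⟨(hqR j (by omega)).1, h6 j (by omega) (by omega)⟩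
    · exact (he.pot.val_walk hW hW h9 (fun j _ hj => hq.adj j (by omega))
        fun j h10 h11 => ⟨(hqR j (by omega)).1, h6 j (by omega) (by omega)⟩).symm

theorem close (hw : Wt w) {G r : ℤ} (hr : 1 ≤ r) (hG : 2 * r + 20 ≤ G) :
    w 3 ^ 24 * (Pr w (WW (rect 0 G 0 G \ Yq (G - r) r) {v | v ∈ rect 0 G 0 G ∧ v.1 = 0 ∧ v.2 < r}
      {v | v ∈ rect 0 G 0 G ∧ v.2 = G ∧ 0 < v.1}) *
      Pr w (WW {v | v ∈ rect 0 G 0 G ∧ (v.1 < r ∨ G - r < v.2)} {v | v.1 = G}
        {v | v.2 = 0 ∧ v.1 < r})) ≤ Pr w (Circ0 G (r + 8)) := by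
  classical
  have hW : 1 ≤ G := by omega
  have hI : {v | v ∈ rect 0 G 0 G ∧ v.1 = 0 ∧ v.2 < r} ⊆ Bd G G := fun v hv => ⟨hv.1, .inl hv.2.1⟩
  have hJ : {v | v ∈ rect 0 G 0 G ∧ v.2 = G ∧ 0 < v.1} ⊆ Bd G G :=
    fun v hv => ⟨hv.1, .inr (.inr (.inr hv.2.1))⟩
  refine ext_surgery hw hW hW hI hJ (fun a ha b hb => ?_) hr (by omega)
    (fun a ha hY => by have := ha.2.2; have := hY.2; omega)
    (loc_WW (cor_rect fun v hv => hv.1) _ _) (upper_WW _ _ _) (loc_Circ0 _ _) 24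
    fun ξ hξ S p N h he => ?_
  · simp only [rect, mem_ofPred_eq, pos] at ha hb ⊢
    split_ifs <;> omega
  obtain ⟨q, M, hq, q0, qM, hqR⟩ := mem_WW.1 hξ
  obtain ⟨t, t', htt, ht', n1, n2, hmid, ht1, ht2, hval⟩ := close_middle hr hG hI hJ
    (fun a ha => ha.2.1) (fun b hb => hb.2) he hq q0 qM hqR
  have hmin : ∀ u ∈ Vs p N, 3 ≤ d1 u (q t) := fun u hu => by
    by_contra h1
    exact hmid (t + 1) (by omega) htt ((near_of_mem hu).of_d1 (by
      have := (hq.adj t (by omega)).d1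
      have := d1_tri u (q t) (q (t + 1))
      omega))
  have hmin' : ∀ u ∈ Vs p N, 3 ≤ d1 (q t') u := fun u hu => by
    by_contra h1
    obtain ⟨j, rfl⟩ : ∃ j, t' = j + 1 := ⟨t' - 1, by omega⟩
    exact hmid j (by omega) (by omega) ((near_of_mem hu).of_d1 (by
      have := (hq.adj j (by omega)).symm.d1
      have := d1_tri u (q (j + 1)) (q j)
      rw [d1_comm] at h1
      omega))
  have hfar0 := d1_fst (q t) (q t')
  obtain ⟨v, hvw, ⟨k, hk, rfl⟩, hnx⟩ : ∃ v, d1 v (q t) = 3 ∧ v ∈ Vs p N ∧ nxt v (q t) ∉ Vs p N := by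
    obtain ⟨k, hk, hd⟩ := n1
    obtain ⟨i, h1, h2, h3⟩ := exists_sphere (q := q) (s := t) (t := t') (z := q t) (by omega)
      (fun i _ hi => hq.adj i (by omega)) (.inl ⟨by rw [d1_self]; omega, by rw [d1_comm]; omega⟩)
    exact sphere_out (Q := fun u => u ∈ Vs p N) (le_antisymm hd (hmin _ ⟨k, hk, rfl⟩)) h3
      ⟨k, hk, rfl⟩ (hval i h1 h2).1
  obtain ⟨v', hvw', ⟨k', hk', rfl⟩, hnx'⟩ : ∃ v, d1 v (q t') = 3 ∧ v ∈ Vs p N ∧
      lft (sig (q t') v 2) v ∉ Vs p N := by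
    obtain ⟨k, hk, hd⟩ := n2
    obtain ⟨i, h1, h2, h3⟩ := exists_sphere (q := q) (s := t) (t := t') (z := q t') (by omega)
      (fun i _ hi => hq.adj i (by omega)) (.inr ⟨by rw [d1_self]; omega, by omega⟩)
    exact sphere_in (Q := fun u => u ∈ Vs p N)
      (le_antisymm hd (by rw [d1_comm]; exact hmin' _ ⟨k, hk, rfl⟩)) h3 ⟨k, hk, rfl⟩
      (hval i h1 h2).1
  rw [d1_comm] at hvw'
  have hv : p k ∈ Vs p N := ⟨k, hk, rfl⟩
  have hv' : p k' ∈ Vs p N := ⟨k', hk', rfl⟩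
  have e1 : sig (p k) (q t) 3 = q t := sig_end hvw
  have e2 : sig (q t') (p k') 3 = p k' := sig_end hvw'
  have hσR : ∀ j ≤ 3, sig (p k) (q t) j ∈ rect 0 G 0 G := fun j hj =>
    sig_rect (by omega) (he.box k hk) (hqR t (by omega)).1
  have hσR' : ∀ j ≤ 3, sig (q t') (p k') j ∈ rect 0 G 0 G := fun j hj =>
    sig_rect (by omega) (hqR t' ht').1 (he.box k' hk')
  have hσd : ∀ j ≤ 3, d1 (sig (p k) (q t) j) (q t) = 3 - j := fun j hj => by
    rw [sig_d1 (by omega), hvw]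
  have hσd' : ∀ j ≤ 3, d1 (sig (q t') (p k') j) (p k') = 3 - j := fun j hj => by
    rw [sig_d1 (by omega), hvw']
  have hσV : ∀ j, 1 ≤ j → j ≤ 3 → sig (p k) (q t) j ∉ Vs p N := fun j h1 h2 h3 => by
    have := hmin _ h3
    have := hσd j h2
    omega
  have hσV' : ∀ j < 3, sig (q t') (p k') j ∉ Vs p N := fun j h1 h3 => by
    have := hmin' _ h3
    have := sig_d1' (q t') (p k') j
    omega
  have hσx : ∀ j ≤ 3, G - r - 7 ≤ (sig (p k) (q t) j).1 := fun j hj => by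
    have := hσd j hj
    have := d1_fst (sig (p k) (q t) j) (q t)
    omega
  have hσx' : ∀ j ≤ 3, (sig (q t') (p k') j).1 ≤ r + 2 := fun j hj => by
    have := sig_d1' (q t') (p k') j
    have := d1_fst (q t') (sig (q t') (p k') j)
    omega
  let T := (((Finset.range 3).biUnion fun j => tch (sig (p k) (q t) (j + 1))) ∪
    (Finset.range 3).biUnion fun j => tch (sig (q t') (p k') j)).filter
    fun x => (Inn G G x ∨ Out G G x) ∧ x ∉ Far p N
  have hT : ∀ x, x ∈ T ↔ ((∃ j < 3, ∃ i, cor x i = sig (p k) (q t) (j + 1)) ∨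
      ∃ j < 3, ∃ i, cor x i = sig (q t') (p k') j) ∧ (Inn G G x ∨ Out G G x) ∧ x ∉ Far p N := by
    intro x
    simp only [T, Finset.mem_filter, Finset.mem_union, Finset.mem_biUnion, Finset.mem_range,
      mem_tch]
  refine ⟨T, fun x hx => mem_srect_of hW hW ((hT x).1 hx).2.1, ?_, fun x hx => ?_,
    fun ξ' hfar hadm h3 => ?_⟩
  · refine (Finset.card_filter_le _ _).trans ((Finset.card_union_le _ _).trans ?_)
    exact add_le_add (b := 12) (d := 12)
      (Finset.card_biUnion_le_card_mul _ _ 4 fun j _ => card_tch _)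
      (Finset.card_biUnion_le_card_mul _ _ 4 fun j _ => card_tch _)
  · obtain ⟨⟨j, hj, i, hi⟩ | ⟨j, hj, i, hi⟩, h1, h2⟩ := (hT x).1 hx
    · refine ⟨he.up x ?_, h2⟩
      rw [he.pot.val hW hW (hσR _ hj) (hσV _ (by omega) hj) hi h1,
        he.pot.val_walk hW hW (q := sig (p k) (q t)) (s := j + 1) (t := 3) hj
          (fun i _ _ => sig_adj _ _ i) fun i h5 h6 => ⟨hσR i h6, hσV i (by omega) h6⟩, e1,
        (hval t le_rfl (by omega)).2]
    · refine ⟨he.up x ?_, h2⟩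
      rw [he.pot.val hW hW (hσR' _ hj.le) (hσV' _ hj) hi h1,
        ← he.pot.val_walk hW hW (q := sig (q t') (p k')) (Nat.zero_le j)
          (fun i _ _ => sig_adj _ _ i) fun i h5 h6 => ⟨hσR' i (by omega), hσV' i (by omega)⟩]
      exact (hval t' (by omega) le_rfl).2.ge
  have hC : ∀ e ∈ seg q t t', e ∈ EB G G ∧ (e.1 = q t ∨ ¬ Near p N 3 e.1) ∧
      (e.2 = q t' ∨ ¬ Near p N 3 e.2) ∧ (¬ Near p N 3 e.1 ∨ ¬ Near p N 3 e.2) := by
    rintro _ ⟨i, h1, h2, rfl⟩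
    refine ⟨⟨(hqR i (by omega)).1, (hqR _ (by omega)).1⟩, ?_, ?_, ?_⟩
    · rcases h1.eq_or_lt with rfl | h1
      · exact .inl rfl
      · exact .inr (hmid _ h1 h2)
    · rcases (Nat.succ_le_of_lt h2).eq_or_lt with rfl | h2
      · exact .inl rfl
      · exact .inr (hmid _ (by omega) h2)
    · rcases h1.eq_or_lt with rfl | h1
      · exact .inr (hmid _ (by omega) htt)
      · exact .inl (hmid _ h1 h2)
  have hadmF : Adm ξ' (edges p N ∪ edges (sig (p k) (q t)) 3 ∪ seg q t t' ∪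
      edges (sig (q t') (p k')) 3) := by
    intro x
    by_cases hB : ∃ i, ed x i ∈ edges (sig (p k) (q t)) 3
    · obtain ⟨i, j, hj, hx⟩ := hB
      have c0 : cor x i = sig (p k) (q t) j := congrArg Prod.fst hx
      have hxT : x ∈ T := (hT x).2 ⟨.inl ⟨j, hj, i + 1, congrArg Prod.snd hx⟩,
        EB_left (x := x) (i := i) (hx ▸ ⟨hσR j hj.le, hσR _ hj⟩), fun hf => hf i
          ((near_of_mem hv).of_d1 (by
            have := sig_d1' (p k) (q t) j
            rw [c0]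
            omega))⟩
      have hx1 : ∀ l, r + 2 < (cor x l).1 := fun l => by
        have := hσx j hj.le
        have := cor_fst x i
        have := cor_fst x l
        rw [← c0] at *
        omega
      have := site_out (r := 3) (F := edges p N ∪ edges (sig (p k) (q t)) 3 ∪ seg q t t' ∪
        edges (sig (q t') (p k')) 3) (A := edges p N) le_rfl hvw hv hmin hj hx
        (fun l hl => by
          rcases hl with ((hl | hl) | hl) | ⟨m, hm, hl⟩
          · exact .inl hl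
          · exact .inr (.inl hl)
          · refine .inr (.inr ⟨rfl, (hC _ hl).2.1, .inr ((hC _ hl).2.2.1.resolve_left fun h4 => ?_)⟩)
            have := hx1 (l + 1)
            rw [show cor x (l + 1) = q t' from h4] at this
            omega
          · have := hx1 l
            have := hσx' m hm.le
            rw [← show cor x l = sig (q t') (p k') m from congrArg Prod.fst hl] at this
            omega)
        fun e he => ⟨(Vs_of_edges he).1, (Vs_of_edges he).2, fun h4 => hnx (h4 ▸ (Vs_of_edges he).1)⟩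
      right
      rw [h3 x hxT]
      exact Nat.lt_succ_of_le this
    by_cases hB' : ∃ i, ed x i ∈ edges (sig (q t') (p k')) 3
    · obtain ⟨i, j, hj, hx⟩ := hB'
      have c0 : cor x i = sig (q t') (p k') j := congrArg Prod.fst hx
      have hxT : x ∈ T := (hT x).2 ⟨.inr ⟨j, hj, i, c0⟩,
        EB_left (x := x) (i := i) (hx ▸ ⟨hσR' j hj.le, hσR' _ hj⟩), fun hf => hf (i + 1)
          ((near_of_mem hv').of_d1 (by
            have := hσd' (j + 1) hj
            rw [show cor x (i + 1) = _ from congrArg Prod.snd hx, d1_comm]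
            dsimp only
            omega))⟩
      have := site_in (F := edges p N ∪ edges (sig (p k) (q t)) 3 ∪ seg q t t' ∪
        edges (sig (q t') (p k')) 3) (A := edges p N) hvw' hv' hmin' hj hx
        (fun l hl => by
          rcases hl with ((hl | hl) | hl) | hl
          · exact .inl hl
          · exact absurd ⟨l, hl⟩ hB
          · refine .inr (.inr ⟨.inr ((hC _ hl).2.1.resolve_left fun h4 => ?_), (hC _ hl).2.2.1⟩)
            have := hσx' j hj.le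
            have := cor_fst x i
            have := cor_fst x l
            rw [show cor x l = q t from h4] at this
            rw [← c0] at *
            omega
          · exact .inr (.inl hl))
        fun e he => ⟨(Vs_of_edges he).1, (Vs_of_edges he).2,
          fun h4 => hnx' (h4 ▸ (Vs_of_edges he).2)⟩
      right
      rw [h3 x hxT]
      exact Nat.lt_succ_of_le this
    by_cases hCx : ∃ i, ed x i ∈ seg q t t'
    · obtain ⟨i, hi⟩ := hCx
      have hF : ∀ l, ed x l ∈ edges p N ∪ edges (sig (p k) (q t)) 3 ∪ seg q t t' ∪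
          edges (sig (q t') (p k')) 3 → ed x l ∈ seg q t t' := by
        rintro l (((hl | hl) | hl) | hl)
        · have h4 := near_of_mem (Vs_of_edges hl).1
          rcases (hC _ hi).2.2.2 with h5 | h5
          · exact absurd (h4.of_d1
              (by have := d1_cor x l i; change _ + d1 (cor x l) (cor x i) ≤ _; omega)) h5
          · exact absurd (h4.of_d1
              (by have := d1_cor x l (i + 1); change _ + d1 (cor x l) (cor x (i + 1)) ≤ _; omega)) h5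
        · exact absurd ⟨l, hl⟩ hB
        · exact hl
        · exact absurd ⟨l, hl⟩ hB'
      by_cases hf : x ∈ Far p N
      · exact adm_at hq.adm (hfar x hf).ge fun l hl => seg_subset ht' (hF l hl)
      · obtain ⟨h4, h5, h6, -⟩ := hC _ hi
        have hxT : x ∈ T := by
          refine (hT x).2 ⟨?_, EB_left h4, hf⟩
          rcases near_three hf i with h7 | h7
          · exact .inl ⟨2, by omega, i, e1.symm ▸ h5.resolve_right (not_not.2 h7)⟩
          · exact .inr ⟨0, by omega, i + 1, h6.resolve_right (not_not.2 h7)⟩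
        have hn2 : ∀ {u}, u = q t ∨ u = q t' ∨ ¬ Near p N 3 u → ¬ Near p N 2 u := by
          rintro u (rfl | rfl | hu) hn
          · obtain ⟨l, hl, hd⟩ := hn
            have := hmin _ ⟨l, hl, rfl⟩
            omega
          · obtain ⟨l, hl, hd⟩ := hn
            have := hmin' _ ⟨l, hl, rfl⟩
            rw [d1_comm] at this
            omega
          · exact hu (hn.of_d1 (by rw [d1_self]; omega))
        have := site_mid (F := edges p N ∪ edges (sig (p k) (q t)) 3 ∪ seg q t t' ∪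
          edges (sig (q t') (p k')) 3) hf fun l hl =>
            ⟨hn2 ((hC _ (hF l hl)).2.1.imp_right .inr), hn2 (.inr (hC _ (hF l hl)).2.2.1)⟩
        right
        rw [h3 x hxT]
        exact Nat.lt_succ_of_le this
    · refine adm_at hadm le_rfl ?_
      rintro l (((hl | hl) | hl) | hl)
      · exact hl
      · exact absurd ⟨l, hl⟩ hB
      · exact absurd ⟨l, hl⟩ hCx
      · exact absurd ⟨l, hl⟩ hB'
  have a1 : ∀ i < k, Adj (p i) (p (i + 1)) := fun i hi => he.isW.adj i (by omega)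
  have a2 : ∀ i < k', Adj (p i) (p (i + 1)) := fun i hi => he.isW.adj i (by omega)
  have a3 : ∀ i < 3, Adj (sig (p k) (q t) i) (sig (p k) (q t) (i + 1)) := fun i _ => sig_adj _ _ i
  have a4 : ∀ i < t' - t, Adj (q (t + i)) (q (t + (i + 1))) := fun i hi => hq.adj _ (by omega)
  have a5 : ∀ i < 3, Adj (sig (q t') (p k') i) (sig (q t') (p k') (i + 1)) :=
    fun i _ => sig_adj _ _ i
  have e3 : t + (t' - t) = t' := by omega
  obtain ⟨g, hg⟩ : ∃ g : V → ℤ, ∀ x, g x = pot p k x - pot p k' x + pot (sig (p k) (q t)) 3 x +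
    pot (fun i => q (t + i)) (t' - t) x + pot (sig (q t') (p k')) 3 x := ⟨_, fun _ => rfl⟩
  have hin : ∀ x, 1 ≤ g x → Inn G G x := by
    intro x hx
    by_contra hn
    rw [hg, pot_out a1 (fun i hi => he.box i (by omega)) hn,
      pot_out a2 (fun i hi => he.box i (by omega)) hn, pot_out a3 hσR hn,
      pot_out (p := fun i => q (t + i)) a4 (fun i hi => (hqR _ (by omega)).1) hn,
      pot_out a5 hσR' hn, e1, e2, e3] at hx
    simp only [sig, add_zero] at hx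
    omega
  refine ⟨{x | 1 ≤ g x ∧ 1 ≤ h x}, fun x hx => hin x hx.1, fun x b1 b2 b3 b4 => ⟨?_, ?_⟩,
    hadmF.mono ?_⟩
  · have hp : ∀ i ≤ N, (p i).1 = x.1 → (p i).2 ≤ x.2 := fun i hi h1 => by
      have := he.avoid i hi
      simp only [Yq, mem_ofPred_eq] at this
      omega
    have := hσx 0 (by omega)
    have := hσx' 3 le_rfl
    rw [hg, pot_full a1 fun i hi => hp i (by omega), pot_full a2 fun i hi => hp i (by omega),
      pot_zero a3 fun i hi h1 => by have := hσx i hi; omega,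
      pot_zero (p := fun i => q (t + i)) a4 fun i hi h1 => by
        have := (hqR (t + i) (by omega)).2; omega,
      pot_zero a5 fun i hi h1 => by have := hσx' i hi; omega]
    rw [e2] at *
    simp only [sig] at *
    split_ifs <;> omega
  · exact (he.pot.quad hW (hI he.mem0) (hJ he.memN) (by omega) he.avoid
      (.inl (by simp only [Inn]; omega)) (by omega) (by omega) (by omega)).ge
  · rintro _ ⟨x, i, rfl, ⟨h1, h2⟩, h4⟩
    have hE := (hin x h1).EB i
    by_cases h5 : 1 ≤ h (nbr x i)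
    · have h6 : g (nbr x i) < g x := by
        have : ¬ 1 ≤ g (nbr x i) := fun h6 => h4 ⟨h6, h5⟩
        omega
      by_contra hn
      simp only [mem_union, not_or] at hn
      obtain ⟨⟨⟨n1, n2⟩, n3⟩, n4⟩ := hn
      have b1 := pot_diff a1 x i
      have b2 := pot_diff a2 x i
      have b3 := pot_diff a3 x i
      have b4 := pot_diff (p := fun i => q (t + i)) a4 x i
      have b5 := pot_diff a5 x i
      rw [nE_eq_zero fun h7 => n1 (edges_mono hk h7)] at b1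
      rw [nE_eq_zero (e := (ed x i).swap)
        fun h7 => (swap_mem_bdry.1 (he.sub (edges_mono hk' h7))).2 (he.up x h2)] at b2
      rw [nE_eq_zero n2, e1] at b3
      rw [nE_eq_zero (p := fun i => q (t + i))
        fun ⟨j, hj, h7⟩ => n3 ⟨t + j, by omega, by omega, h7⟩, e3] at b4
      rw [nE_eq_zero n4, e2] at b5
      have := nE_nonneg p k (ed x i).swap
      have := nE_nonneg p k' (ed x i)
      have := nE_nonneg (sig (p k) (q t)) 3 (ed x i).swap
      have := nE_nonneg (fun i => q (t + i)) (t' - t) (ed x i).swap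
      have := nE_nonneg (sig (q t') (p k')) 3 (ed x i).swap
      rw [hg, hg] at h6
      simp only [sig, add_zero] at b3 b4 b5
      omega
    · exact .inl (.inl (.inl (he.pot.mem_of_lt hE (by omega))))

end Pool.Agent.Lib.MP_02c850_pr
end

-- part Pool.Agent.Lib.MP_02c850_pr.RSW1
section

/-! From crossings in the long direction to protecting circuits. -/

namespace Pool.Agent.Lib.MP_02c850_pr

open Set

variable {w : Fin 4 → ℝ} {W H : ℤ}

def cap (W H : ℤ) (I : Set V) : Set V := {v | v ∈ rect 0 W 0 H ∧ v ∈ I}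

theorem Pr_cap (hw : Wt w) {R : Set V} (hR : R ⊆ rect 0 W 0 H) (I J : Set V) :
    Pr w (WW R I J) ≤ Pr w (WW R (cap W H I) (cap W H J)) :=
  Pr_mono hw (WW_mono Subset.rfl (fun _ h h' => ⟨hR h, h'⟩) fun _ h h' => ⟨hR h, h'⟩)

theorem glueC' (hw : Wt w) (hW : 1 ≤ W) (hH : 1 ≤ H) {I J P P' R₂ : Set V}
    (hI : cap W H I ⊆ Bd W H) (hJ : cap W H J ⊆ Bd W H)
    (hIJ : ∀ a ∈ cap W H I, ∀ b ∈ cap W H J, pos W H a ≤ pos W H b) (hP : cap W H P ⊆ Bd W H)
    (hP' : cap W H P' ⊆ Bd W H)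
    (hl : ∀ v ∈ cap W H P, ∀ a ∈ cap W H I, ∀ b ∈ cap W H J,
      pos W H v ≤ pos W H a ∨ pos W H b ≤ pos W H v)
    (hr : ∀ v ∈ cap W H P', ∀ a ∈ cap W H I, ∀ b ∈ cap W H J,
      pos W H a ≤ pos W H v ∧ pos W H v ≤ pos W H b)
    (hR : R₂ ⊆ rect 0 W 0 H) :
    Pr w (WW (rect 0 W 0 H) I J) * Pr w (WW R₂ P P') ≤ Pr w (WW (rect 0 W 0 H) I P') :=
  (mul_le_mul (Pr_cap hw Subset.rfl I J) (Pr_cap hw hR P P') (Pr_nonneg _ _) (Pr_nonneg _ _)).trans
    ((glueC hw hW hH hI hJ hIJ hP hP' hl hr hR).trans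
      (Pr_mono hw (WW_mono Subset.rfl (fun _ _ h => h.2) fun _ _ h => h.2)))

theorem glueA' (hw : Wt w) (hW : 1 ≤ W) (hH : 1 ≤ H) {I J P P' R₂ : Set V}
    (hI : cap W H I ⊆ Bd W H) (hJ : cap W H J ⊆ Bd W H)
    (hIJ : ∀ a ∈ cap W H I, ∀ b ∈ cap W H J, pos W H a ≤ pos W H b) (hP : cap W H P ⊆ Bd W H)
    (hP' : cap W H P' ⊆ Bd W H)
    (hr : ∀ v ∈ cap W H P, ∀ a ∈ cap W H I, ∀ b ∈ cap W H J,
      pos W H a ≤ pos W H v ∧ pos W H v ≤ pos W H b)
    (hl : ∀ v ∈ cap W H P', ∀ a ∈ cap W H I, ∀ b ∈ cap W H J,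
      pos W H v ≤ pos W H a ∨ pos W H b ≤ pos W H v)
    (hR : R₂ ⊆ rect 0 W 0 H) :
    w 3 ^ 12 * (Pr w (WW (rect 0 W 0 H) I J) * Pr w (WW R₂ P P')) ≤
      Pr w (WW (rect 0 W 0 H) I P') := by
  have h := glueA (x0 := -1) hw hW hH hI hJ hIJ hH le_rfl
    (fun a ha hY => by have := ha.1.1; have := hY.1; omega) hP hP' hr hl hR Subset.rfl
    fun v hv _ => hv
  refine le_trans (mul_le_mul_of_nonneg_left (mul_le_mul ?_ (Pr_cap hw hR P P') (Pr_nonneg _ _)
    (Pr_nonneg _ _)) (pow_nonneg (hw.1 3) _))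
    (h.trans (Pr_mono hw (WW_mono Subset.rfl (fun _ _ h => h.2) fun _ _ h => h.2)))
  exact Pr_mono hw (WW_mono (fun v hv => ⟨hv, fun hY => by have := hv.1; have := hY.1; omega⟩)
    (fun _ h h' => ⟨h, h'⟩) fun _ h h' => ⟨h, h'⟩)

/-- crossing from left to right -/
noncomputable def Cx (w : Fin 4 → ℝ) (W H : ℤ) : ℝ :=
  Pr w (WW (rect 0 W 0 H) {v | v.1 = 0} {v | v.1 = W})

noncomputable def Kt (w : Fin 4 → ℝ) (W H : ℤ) : ℝ :=
  Pr w (WW (rect 0 W 0 H) {v | v.2 = H ∧ 2 * v.1 ≤ W} {v | v.1 = W})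

noncomputable def Kb (w : Fin 4 → ℝ) (W H : ℤ) : ℝ :=
  Pr w (WW (rect 0 W 0 H) {v | v.2 = 0 ∧ 2 * v.1 ≤ W} {v | v.1 = W})

theorem Kt_sq (hw : Wt w) (hW : 1 ≤ W) (hH : 1 ≤ H) : Kt w W H ^ 2 ≤ Cx w W H := by
  have h1 : Kt w W H ≤ Pr w (WW (rect 0 W 0 H) {v | v.1 = 0} {v | v.2 = H ∧ W ≤ 2 * v.1}) := by
    refine Pr_ref hw W 0 ?_ ?_ ?_ <;> simp only [rect, mem_ofPred_eq] <;> intros <;> omega
  refine le_trans ?_ (glueC' (J := {v | v.2 = H ∧ W ≤ 2 * v.1}) (P := {v | v.2 = H ∧ 2 * v.1 ≤ W})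
    hw hW hH ?_ ?_ ?_ ?_ ?_ ?_ ?_ Subset.rfl)
  · rw [sq]
    exact mul_le_mul_of_nonneg_right h1 (Pr_nonneg _ _)
  all_goals
    simp only [cap, rect, Bd, pos, mem_ofPred_eq, subset_def]
    intros
    omega

theorem Kb_sq (hw : Wt w) (hW : 1 ≤ W) (hH : 1 ≤ H) : w 3 ^ 12 * Kb w W H ^ 2 ≤ Cx w W H := by
  have h1 : Kb w W H ≤ Pr w (WW (rect 0 W 0 H) {v | v.1 = 0} {v | v.2 = 0 ∧ W ≤ 2 * v.1}) := by
    refine Pr_ref hw W 0 ?_ ?_ ?_ <;> simp only [rect, mem_ofPred_eq] <;> intros <;> omega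
  refine le_trans ?_ (glueA' (J := {v | v.2 = 0 ∧ W ≤ 2 * v.1}) (P := {v | v.2 = 0 ∧ 2 * v.1 ≤ W})
    hw hW hH ?_ ?_ ?_ ?_ ?_ ?_ ?_ Subset.rfl)
  · rw [sq]
    exact mul_le_mul_of_nonneg_left (mul_le_mul_of_nonneg_right h1 (Pr_nonneg _ _))
      (pow_nonneg (hw.1 3) _)
  all_goals
    simp only [cap, rect, Bd, pos, mem_ofPred_eq, subset_def]
    intros
    omega

theorem Cx_anti (hw : Wt w) {W' : ℤ} (h0 : 0 ≤ W') (h : W' ≤ W) : Cx w W H ≤ Cx w W' H := by
  refine Pr_mono hw fun ξ hξ => ?_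
  obtain ⟨p, N, hp, h1, h2, h3⟩ := mem_WW.1 hξ
  simp only [mem_ofPred_eq] at h1 h2
  obtain ⟨m, -, hm, h4, h5⟩ := exists_first_level (f := fun i => (p i).1) (c := W') (Nat.zero_le N)
    (by omega) (by omega) fun k _ hk => by have := hp.adj k hk; unfold Adj at this; omega
  refine hp.mem_WW (Nat.zero_le m) hm h1 h4 fun i hi hi' => ?_
  have := h3 i (by omega)
  have := h5 i hi
  simp only [rect, mem_ofPred_eq] at *
  rcases hi'.eq_or_lt with rfl | hi' <;> omega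

theorem Cx_ext (hw : Wt w) (hH : 1 ≤ H) (hW : H < W) :
    (w 3 ^ 12) ^ 2 * Cx w W H ^ 4 / 4 ≤ Cx w (2 * W - H) H := by
  have hc0 : 0 ≤ w 3 ^ 12 := pow_nonneg (hw.1 3) _
  have hc1 : w 3 ^ 12 ≤ 1 := pow_le_one₀ (hw.1 3) (hw.le_one 3)
  have hp : 0 ≤ Cx w W H := Pr_nonneg _ _
  have h1 : Cx w W H ≤ Pr w (WW (rect 0 H 0 H) {v | v.2 = 0} {v | v.2 = H ∧ H ≤ 2 * v.1}) +
      Pr w (WW (rect 0 H 0 H) {v | v.2 = 0} {v | v.2 = H ∧ 2 * v.1 ≤ H}) := by
    refine (Cx_anti hw (by omega) hW.le).trans (le_trans ?_ (Pr_union _ _ _))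
    refine le_trans (Pr_rot1 hw H 0 (R' := rect 0 H 0 H) (I' := {v | v.2 = 0})
      (J' := {v | v.2 = H}) ?_ ?_ ?_).2 (Pr_mono hw fun ξ hξ => ?_)
    · simp only [rect, mem_ofPred_eq]; intros; omega
    · simp only [rect, mem_ofPred_eq]; intros; omega
    · simp only [rect, mem_ofPred_eq]; intros; omega
    obtain ⟨p, N, hp, h1, h2, h3⟩ := mem_WW.1 hξ
    rcases le_total H (2 * (p N).1) with h | h
    · exact .inl (mem_WW.2 ⟨p, N, hp, h1, ⟨h2, h⟩, h3⟩)
    · exact .inr (mem_WW.2 ⟨p, N, hp, h1, ⟨h2, h⟩, h3⟩)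
  rcases le_total (Pr w (WW (rect 0 H 0 H) {v | v.2 = 0} {v | v.2 = H ∧ 2 * v.1 ≤ H}))
    (Pr w (WW (rect 0 H 0 H) {v | v.2 = 0} {v | v.2 = H ∧ H ≤ 2 * v.1})) with h | h
  · have h2 : Cx w W H / 2 ≤ Pr w (WW (rect (W - H) W 0 H) {v | v.2 = 0}
        {v | v.2 = H ∧ 2 * W - H ≤ 2 * v.1}) := by
      refine le_trans (by linarith) (Pr_tr hw (W - H) 0 (R := rect 0 H 0 H) (I := {v | v.2 = 0})
        (J := {v | v.2 = H ∧ H ≤ 2 * v.1}) ?_ ?_ ?_).2 <;>
        simp only [rect, mem_ofPred_eq] <;> intros <;> omega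
    have h3 : w 3 ^ 12 * (Cx w W H * Pr w (WW (rect (W - H) W 0 H) {v | v.2 = 0}
        {v | v.2 = H ∧ 2 * W - H ≤ 2 * v.1})) ≤ Kt w (2 * W - H) H := by
      refine (glueA' hw (by omega) hH ?_ ?_ ?_ ?_ ?_ ?_ ?_ ?_).trans (Pr_ref hw (2 * W - H) 0 ?_ ?_ ?_)
      all_goals
        simp only [cap, rect, Bd, pos, mem_ofPred_eq, subset_def]
        intros
        omega
    have h4 : w 3 ^ 12 * (Cx w W H * (Cx w W H / 2)) ≤ Kt w (2 * W - H) H :=
      le_trans (by gcongr) h3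
    refine le_trans ?_ (Kt_sq hw (by omega) hH)
    calc (w 3 ^ 12) ^ 2 * Cx w W H ^ 4 / 4 = (w 3 ^ 12 * (Cx w W H * (Cx w W H / 2))) ^ 2 := by ring
      _ ≤ _ := by gcongr
  · have h2 : Cx w W H / 2 ≤ Pr w (WW (rect (W - H) W 0 H) {v | v.2 = H}
        {v | v.2 = 0 ∧ 2 * W - H ≤ 2 * v.1}) := by
      refine le_trans (by linarith) (Pr_rot2 hw W H (R := rect 0 H 0 H) (I := {v | v.2 = 0})
        (J := {v | v.2 = H ∧ 2 * v.1 ≤ H}) ?_ ?_ ?_).2 <;>
        simp only [rect, mem_ofPred_eq] <;> intros <;> omega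
    have h3 : Cx w W H * Pr w (WW (rect (W - H) W 0 H) {v | v.2 = H}
        {v | v.2 = 0 ∧ 2 * W - H ≤ 2 * v.1}) ≤ Kb w (2 * W - H) H := by
      refine (glueC' hw (by omega) hH ?_ ?_ ?_ ?_ ?_ ?_ ?_ ?_).trans (Pr_ref hw (2 * W - H) 0 ?_ ?_ ?_)
      all_goals
        simp only [cap, rect, Bd, pos, mem_ofPred_eq, subset_def]
        intros
        omega
    have h4 : Cx w W H * (Cx w W H / 2) ≤ Kb w (2 * W - H) H := le_trans (by gcongr) h3
    refine le_trans ?_ (Kb_sq hw (by omega) hH)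
    calc (w 3 ^ 12) ^ 2 * Cx w W H ^ 4 / 4
        = w 3 ^ 12 * (w 3 ^ 12 * (Cx w W H * (Cx w W H / 2)) ^ 2) := by ring
      _ ≤ 1 * (w 3 ^ 12 * Kb w (2 * W - H) H ^ 2) := by gcongr
      _ = _ := one_mul _

theorem Cx_long (hw : Wt w) (h3 : 0 < w 3) (k : ℕ) {c : ℝ} (hc : 0 < c) : ∃ c' > 0, ∀ W H : ℤ,
    1 ≤ H → H < W → c ≤ Cx w W H → c' ≤ Cx w (H + 2 ^ k * (W - H)) H := by
  induction k with
  | zero => exact ⟨c, hc, fun W H _ _ h => by simpa using h⟩
  | succ k ih =>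
    obtain ⟨c', hc', h⟩ := ih
    refine ⟨(w 3 ^ 12) ^ 2 * c' ^ 4 / 4, by positivity, fun W H h1 h2 h4 => ?_⟩
    have h5 : 0 < 2 ^ k * (W - H) := by positivity
    have h6 := Cx_ext (W := H + 2 ^ k * (W - H)) hw h1 (by omega)
    rw [show 2 * (H + 2 ^ k * (W - H)) - H = H + 2 ^ (k + 1) * (W - H) by ring] at h6
    refine le_trans ?_ h6
    have := h W H h1 h2 h4
    gcongr

theorem Circ0_ge (hw : Wt w) {G : ℤ} (hH : 1 ≤ H) (hG : 2 * H + 28 ≤ G) :
    w 3 ^ 24 * (w 3 ^ 12 * Cx w G H ^ 2) ^ 2 ≤ Pr w (Circ0 G (H + 12)) := by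
  have h1 := glueA (W := G) (H := G) (I := {v | v ∈ rect 0 G 0 G ∧ v.1 = 0 ∧ v.2 ≤ H})
    (J := {v | v ∈ rect 0 G 0 G ∧ v.1 = G}) (x0 := G + 1) (y0 := H + 1)
    (P := {v | v ∈ rect 0 G 0 G ∧ v.2 = 0}) (P' := {v | v ∈ rect 0 G 0 G ∧ v.2 = G ∧ 0 < v.1})
    (R₂ := rect (G - H) G 0 G) (R := rect 0 G 0 G \ Yq (G - (H + 4)) (H + 4)) hw (by omega)
    (by omega) ?_ ?_ ?_ (by omega) (by omega) ?_ ?_ ?_ ?_ ?_ ?_ sdiff_subset ?_
  rotate_left
  iterate 9
    simp only [rect, Bd, pos, Yq, mem_ofPred_eq, subset_def]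
    intros
    omega
  · rintro v hv (h | ⟨u, hu, h⟩) <;> refine ⟨hv, ?_⟩
    · simp only [rect, Yq, mem_ofPred_eq] at *
      omega
    · have := d1_fst v u
      simp only [rect, Yq, mem_ofPred_eq] at *
      omega
  have h2 : Cx w G H ≤ Pr w (WW (rect 0 G 0 G \ Yq (G + 1) (H + 1))
      {v | v ∈ rect 0 G 0 G ∧ v.1 = 0 ∧ v.2 ≤ H} {v | v ∈ rect 0 G 0 G ∧ v.1 = G}) := by
    refine Pr_mono hw (WW_mono ?_ ?_ ?_) <;>
      simp only [rect, Yq, mem_ofPred_eq, subset_def, mem_sdiff] <;> intros <;> omega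
  have h3 : Cx w G H ≤ Pr w (WW (rect (G - H) G 0 G) {v | v ∈ rect 0 G 0 G ∧ v.2 = 0}
      {v | v ∈ rect 0 G 0 G ∧ v.2 = G ∧ 0 < v.1}) := by
    refine (Pr_rot1 hw G 0 ?_ ?_ ?_).2 <;> simp only [rect, mem_ofPred_eq] <;> intros <;> omega
  have hc0 : 0 ≤ w 3 := hw.1 3
  have hp : 0 ≤ Cx w G H := Pr_nonneg _ _
  have h4 : w 3 ^ 12 * Cx w G H ^ 2 ≤ Pr w (WW (rect 0 G 0 G \ Yq (G - (H + 4)) (H + 4))
      {v | v ∈ rect 0 G 0 G ∧ v.1 = 0 ∧ v.2 < H + 4} {v | v ∈ rect 0 G 0 G ∧ v.2 = G ∧ 0 < v.1}) := by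
    refine le_trans ?_ (h1.trans (Pr_mono hw (WW_mono Subset.rfl
      (fun v _ h => ⟨h.1, h.2.1, by have := h.2.2; omega⟩) fun _ _ h => h)))
    rw [sq]
    exact mul_le_mul_of_nonneg_left (mul_le_mul h2 h3 hp (Pr_nonneg _ _)) (by positivity)
  have h5 : w 3 ^ 12 * Cx w G H ^ 2 ≤ Pr w (WW {v | v ∈ rect 0 G 0 G ∧
      (v.1 < H + 4 ∨ G - (H + 4) < v.2)} {v | v.1 = G} {v | v.2 = 0 ∧ v.1 < H + 4}) := by
    refine h4.trans (Pr_rot2 hw G G ?_ ?_ ?_).2 <;>
      simp only [rect, Yq, mem_ofPred_eq, mem_sdiff] <;> intros <;> omega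
  have h6 := close hw (G := G) (r := H + 4) (by omega) (by omega)
  rw [show H + 4 + 8 = H + 12 by ring] at h6
  refine le_trans ?_ h6
  rw [sq]
  exact mul_le_mul_of_nonneg_left (mul_le_mul h4 h5 (by positivity) (Pr_nonneg _ _))
    (by positivity)

/-- a set with admissible boundary between two squares centred at the origin -/
def Circ (n R : ℤ) : Set Cfg :=
  {ξ | ∃ S : Set V, (∀ x ∈ rect (-n) n (-n) n, x ∈ S) ∧ S ⊆ rect (-R) R (-R) R ∧ Adm ξ (bdry S)}

theorem Circ_ge (hw : Wt w) {m r : ℤ} : Pr w (Circ0 (2 * m) r) ≤ Pr w (Circ (m - r) m) := by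
  refine Pr_comp_le hw (e := fun x => (x.1 + m, x.2 + m)) (fun x y h => ?_) ?_
  · simp only [Prod.ext_iff] at h ⊢
    omega
  rintro ω ⟨S, h1, h2, h3⟩
  refine ⟨{x | (x.1 + m, x.2 + m) ∈ S}, fun x hx => ?_, fun x hx => ?_,
    h3.map (π := id) Function.injective_id fun x i hx => ?_⟩
  · simp only [rect, mem_ofPred_eq] at hx
    refine h2 _ ?_ ?_ ?_ ?_ <;> dsimp only <;> omega
  · have := h1 _ hx
    simp only [rect, mem_ofPred_eq, Inn] at this ⊢
    omega
  · rw [mem_bdry] at hx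
    refine mem_bdry.2 ⟨hx.1, fun h => hx.2 ?_⟩
    have : ((nbr x i).1 + m, (nbr x i).2 + m) = nbr (x.1 + m, x.2 + m) i := by
      rcases fin4 i with rfl | rfl | rfl | rfl <;> simp [nbr] <;> ring
    rw [mem_ofPred_eq, this]
    exact h

theorem rsw_circ (hw : Wt w) (h3 : 0 < w 3) {A B : ℕ} (hB : 1 ≤ B) (hA : B < A) {c : ℝ}
    (hc : 0 < c) (h : ∀ u0 : ℕ, ∃ u ≥ u0, c ≤ Cx w (A * u) (B * u)) :
    ∃ c' > 0, ∀ n : ℕ, ∃ R : ℕ, c' ≤ Pr w (Circ n R) := by
  obtain ⟨c', hc', hl⟩ := Cx_long hw h3 (10 * B) hc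
  refine ⟨w 3 ^ 24 * (w 3 ^ 12 * c' ^ 2) ^ 2, by positivity, fun n => ?_⟩
  obtain ⟨u, hu, hu'⟩ := h (n + 12)
  have h1 : u ≤ B * u := Nat.le_mul_of_pos_left u hB
  have h2 : (B + 1) * u ≤ A * u := Nat.mul_le_mul_right u hA
  have h4 : 10 * B * u ≤ 2 ^ (10 * B) * u := Nat.mul_le_mul_right u Nat.lt_two_pow_self.le
  zify at h1 h2 h4 hu
  have h5 := hl _ _ (by omega) (by linarith) hu'
  have h6 : c' ≤ Cx w (2 * (5 * (B * u))) (B * u) := by
    refine h5.trans (Cx_anti hw (by positivity) ?_)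
    have : (2 : ℤ) ^ (10 * B) * u ≤ 2 ^ (10 * B) * (A * u - B * u) := by
      gcongr
      linarith
    linarith
  refine ⟨5 * (B * u), ?_⟩
  have h7 := (Circ0_ge hw (G := 2 * (5 * (B * u))) (H := B * u) (by omega) (by omega)).trans
    (Circ_ge hw)
  refine le_trans (by gcongr) (h7.trans (Pr_mono hw ?_))
  rintro ξ ⟨S, h8, h9, h10⟩
  refine ⟨S, fun x hx => h8 x ?_, by push_cast; exact h9, h10⟩
  simp only [rect, mem_ofPred_eq] at hx ⊢
  omega

end Pool.Agent.Lib.MP_02c850_pr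
end
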